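import Pool.Agent.NH35.HC.Bdd2

/-! The sum over all ideals is bounded near `s = 1`. -/

set_option autoImplicit false
set_option linter.unusedSectionVars false
open Filter Topology NumberField NumberField.InfinitePlace NumberField.Units
open Module nonZeroDivisors Ideal
open Pool.Agent.H484R2

namespace Pool.Agent.NH35.HC

variable {K : Type} [Field K] [NumberField K]

theorem summable_ideals {s : ℝ} (hs : 1 < s) :
    Summable fun I : NZI K => (absNorm I.1 : ℝ) ^ (-s) := by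
  have h := (hasSum_ideals K (s := (s : ℂ)) (by simpa using hs)).summable.norm
  refine h.congr fun I => ?_
  have hI0 : absNorm I.1 ≠ 0 := by rw [Ne, absNorm_eq_zero_iff]; exact I.2
  rw [Complex.norm_natCast_cpow_of_pos (Nat.pos_of_ne_zero hI0)]
  simp

variable {χ : Ideal (𝓞 K) → ℂ} {m : Ideal (𝓞 K)} {β : 𝓞 K}

theorem summable_chi (hb : ∀ I, ‖χ I‖ ≤ 1) {s : ℝ} (hs : 1 < s) :
    Summable fun I : NZI K => ‖χ I.1 * (((absNorm I.1 : ℝ) ^ (-s) : ℝ) : ℂ)‖ := by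
  refine Summable.of_nonneg_of_le (fun I => norm_nonneg _) (fun I => ?_) (summable_ideals hs)
  rw [norm_mul, Complex.norm_real, Real.norm_of_nonneg (by positivity)]
  calc ‖χ I.1‖ * (absNorm I.1 : ℝ) ^ (-s) ≤ 1 * (absNorm I.1 : ℝ) ^ (-s) :=
        mul_le_mul_of_nonneg_right (hb _) (by positivity)
    _ = _ := one_mul _

theorem cs_bounded (h : Chr K χ m β) (C : ClassGroup (𝓞 K)) : ∃ B : ℝ, ∀ s : ℝ, 1 < s → s ≤ 2 →
    ‖cs K χ s C‖ ≤ B := by
  obtain ⟨B, hB⟩ := tm_bounded (rep K C).1 (rep K C).2 h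
  have hJ0 : absNorm (rep K C).1 ≠ 0 := by
    rw [Ne, absNorm_eq_zero_iff]; exact (rep K C).2
  have hJ1 : (1 : ℝ) ≤ absNorm (rep K C).1 := by exact_mod_cast Nat.one_le_iff_ne_zero.2 hJ0
  have hw : (1 : ℝ) ≤ torsionOrder K := by
    exact_mod_cast Nat.one_le_iff_ne_zero.2 (torsionOrder_ne_zero K)
  refine ⟨B * (absNorm (rep K C).1 : ℝ) ^ (2 : ℝ), fun s hs hs2 => ?_⟩
  have h1 := class_sum K (rep K C).1 (rep K C).2 χ (part_psi K) s C (rep_spec K C)
    (sum_tm _ _ h hs hs2)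
  have h2 := hB s hs hs2
  rw [h1, norm_mul, norm_mul, Complex.norm_natCast, Complex.norm_real,
    Real.norm_of_nonneg (by positivity)] at h2
  have h3 : (0 : ℝ) < (absNorm (rep K C).1 : ℝ) ^ (-s) := by positivity
  have h4 : (absNorm (rep K C).1 : ℝ) ^ (-(2 : ℝ)) ≤ (absNorm (rep K C).1 : ℝ) ^ (-s) :=
    Real.rpow_le_rpow_of_exponent_le hJ1 (by linarith)
  have h5 : (absNorm (rep K C).1 : ℝ) ^ (-(2 : ℝ)) * ‖cs K χ s C‖ ≤ B := by
    refine le_trans ?_ h2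
    refine mul_le_mul_of_nonneg_right ?_ (norm_nonneg _)
    calc (absNorm (rep K C).1 : ℝ) ^ (-(2 : ℝ)) ≤ 1 * (absNorm (rep K C).1 : ℝ) ^ (-s) := by
          rw [one_mul]; exact h4
      _ ≤ _ := mul_le_mul_of_nonneg_right hw h3.le
  have h6 : (0 : ℝ) < (absNorm (rep K C).1 : ℝ) ^ (2 : ℝ) := by positivity
  rw [Real.rpow_neg (by positivity), inv_mul_le_iff₀ h6, mul_comm] at h5
  exact h5

theorem sum_cs (hb : ∀ I, ‖χ I‖ ≤ 1) {s : ℝ} (hs : 1 < s) :
    ∑' I : NZI K, χ I.1 * (((absNorm I.1 : ℝ) ^ (-s) : ℝ) : ℂ) =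
      ∑ C : ClassGroup (𝓞 K), cs K χ s C := by
  classical
  have hsum := (summable_chi (χ := χ) hb hs).of_norm
  have h1 : ∀ C : ClassGroup (𝓞 K), Summable fun I : NZI K =>
      if cls K I = C then χ I.1 * (((absNorm I.1 : ℝ) ^ (-s) : ℝ) : ℂ) else 0 := by
    intro C
    have := hsum.indicator {I : NZI K | cls K I = C}
    refine this.congr fun I => ?_
    rw [Set.indicator_apply]
    rfl
  unfold cs
  rw [← Summable.tsum_finsetSum fun C _ => h1 C]
  refine tsum_congr fun I => ?_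
  rw [Finset.sum_ite_eq]
  simp

/-- **The `L`-function is bounded near `s = 1`.** -/
theorem L_bounded (h : Chr K χ m β) : ∃ B : ℝ, ∀ s : ℝ, 1 < s → s ≤ 2 →
    ‖∑' I : NZI K, χ I.1 * (((absNorm I.1 : ℝ) ^ (-s) : ℝ) : ℂ)‖ ≤ B := by
  choose B hB using fun C : ClassGroup (𝓞 K) => cs_bounded h C
  refine ⟨∑ C, B C, fun s hs hs2 => ?_⟩
  rw [sum_cs h.bd hs]
  exact (norm_sum_le _ _).trans (Finset.sum_le_sum fun C _ => hB C s hs hs2)

end Pool.Agent.NH35.HC
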