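import Pool.Agent.NH35.HC.Cls

/-! The sums over the ideals of a class are bounded near `s = 1` for a nontrivial character. -/

set_option autoImplicit false
open Filter Topology NumberField NumberField.InfinitePlace NumberField.Units
open Module nonZeroDivisors Ideal
open Pool.Agent.H484R2

namespace Pool.Agent.NH35.HC

theorem ray {c : ℂ} (h1 : ‖c‖ = 1) (hc : c ≠ 1) : ∃ δ : ℝ, 0 < δ ∧ ∀ r : ℝ, 0 ≤ r →
    δ ≤ ‖1 - (r : ℂ) * c‖ := by
  by_cases him : c.im = 0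
  · have hre : c.re = -1 := by
      have h2 : c = (c.re : ℂ) := Complex.ext (by simp) (by simp [him])
      rw [h2, Complex.norm_real, Real.norm_eq_abs] at h1
      rcases abs_eq zero_le_one |>.1 h1 with h | h
      · exact absurd (by rw [h2, h]; simp) hc
      · exact h
    refine ⟨1, one_pos, fun r hr => ?_⟩
    have h3 := Complex.abs_re_le_norm (1 - (r : ℂ) * c)
    have h4 : (1 - (r : ℂ) * c).re = 1 + r := by simp [hre]
    rw [h4, abs_of_nonneg (by linarith)] at h3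
    linarith
  · refine ⟨|c.im|, abs_pos.2 him, fun r _ => ?_⟩
    have h3 := Complex.abs_im_le_norm ((starRingEnd ℂ) c * (1 - (r : ℂ) * c))
    have h5 : (starRingEnd ℂ) c * c = 1 := by
      rw [← Complex.normSq_eq_conj_mul_self, Complex.normSq_eq_norm_sq, h1]
      simp
    have h4 : (starRingEnd ℂ) c * (1 - (r : ℂ) * c) = (starRingEnd ℂ) c - r := by
      calc (starRingEnd ℂ) c * (1 - (r : ℂ) * c)
          = (starRingEnd ℂ) c - r * ((starRingEnd ℂ) c * c) := by ring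
        _ = _ := by rw [h5, mul_one]
    rw [norm_mul, Complex.norm_conj, h1, one_mul, h4] at h3
    simpa using h3

variable (K : Type) [Field K] [NumberField K]

/-- the data of a character at infinity and modulo `m` -/
structure Chr (χ : Ideal (𝓞 K) → ℂ) (m : Ideal (𝓞 K)) (β : 𝓞 K) : Prop where
  bd : ∀ I, ‖χ I‖ ≤ 1
  mul : ∀ I I', χ (I * I') = χ I * χ I'
  β0 : β ≠ 0
  β1 : β - 1 ∈ m
  one : ‖χ (span {β})‖ = 1
  ne : χ (span {β}) ≠ 1
  lip : ∃ L : ℝ, 0 ≤ L ∧ ∀ J : Ideal (𝓞 K), ∀ I I' : Ideal (𝓞 K), ∀ x x' : 𝓞 K, x ≠ 0 → x' ≠ 0 →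
    J ≠ ⊥ → I * J = span {x} → I' * J = span {x'} → x' - x ∈ m * J →
    ∀ δ : ℝ, 0 ≤ δ → (∀ w : InfinitePlace K, w ((x' : K) - (x : K)) ≤ δ * w (x : K)) →
    ‖χ I' - χ I‖ ≤ L * δ

variable {K} {χ : Ideal (𝓞 K) → ℂ} {m : Ideal (𝓞 K)} {β : 𝓞 K}

section
variable (J : Ideal (𝓞 K)) (hJ : J ≠ ⊥)

open Classical in
/-- the value of the character at `(x) / J` -/
noncomputable def GG (χ : Ideal (𝓞 K) → ℂ) (x : 𝓞 K) : ℂ :=
  if h : x ∈ J ∧ x ≠ 0 then χ (qI K J hJ ⟨x, h⟩).1 else 0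

theorem GG_pos {x : 𝓞 K} (h : x ∈ J ∧ x ≠ 0) : GG J hJ χ x = χ (qI K J hJ ⟨x, h⟩).1 := by
  unfold GG
  rw [dif_pos h]

theorem GG_bd (h : Chr K χ m β) (x : 𝓞 K) : ‖GG J hJ χ x‖ ≤ 1 := by
  unfold GG
  split_ifs
  · exact h.bd _
  · rw [norm_zero]
    exact zero_le_one

theorem tm_eq (s : ℝ) (x : XJ K J) : tm K J hJ χ (psi K) s x = ff K (GG J hJ χ) s x.1 := by
  rw [ff_ne _ s x.2.2, GG_pos J hJ x.2]
  rfl

theorem sum_tm (h : Chr K χ m β) {s : ℝ} (hs : 1 < s) (hs2 : s ≤ 2) :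
    Summable (tm K J hJ χ (psi K) s) := by
  obtain ⟨C, hC0, hC⟩ := ff_bound K
  have hn : (0 : ℝ) < finrank ℚ K := by exact_mod_cast finrank_pos
  refine Summable.of_norm_bounded
    ((summable_hh K J hJ (r := finrank ℚ K * s) (by nlinarith)).mul_left C) fun x => ?_
  rw [tm_eq]
  exact hC _ (GG_bd J hJ h) s (by linarith) hs2 x.1 x.2.2

theorem qI_mul (b : 𝓞 K) (hb : b ≠ 0) (x : XJ K J) (h : b * x.1 ∈ J ∧ b * x.1 ≠ 0) :
    (qI K J hJ ⟨b * x.1, h⟩).1 = span {b} * (qI K J hJ x).1 := by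
  have h1 : (⟨span {b} * (qI K J hJ x).1, mul_ne_zero (by simpa using hb)
      (qI K J hJ x).2⟩ : NZI K) = qI K J hJ ⟨b * x.1, h⟩ := by
    symm
    rw [qI_eq_iff]
    simp only
    rw [mul_assoc, qI_spec, Ideal.span_singleton_mul_span_singleton]
  rw [← h1]

theorem tm_mul (h : Chr K χ m β) (s : ℝ) (x : XJ K J) : ff K (GG J hJ χ) s (β * x.1) =
    (χ (span {β}) * ((Real.exp (-(s * lN K (β : K))) : ℝ) : ℂ)) *
      tm K J hJ χ (fun y => psi K ((β : K) * y)) s x := by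
  have hβ : (β : K) ≠ 0 := RingOfIntegers.coe_ne_zero_iff.mpr h.β0
  have hx : (x.1 : K) ≠ 0 := RingOfIntegers.coe_ne_zero_iff.mpr x.2.2
  have hmem : β * x.1 ∈ J ∧ β * x.1 ≠ 0 := ⟨J.mul_mem_left _ x.2.1, mul_ne_zero h.β0 x.2.2⟩
  rw [ff_ne _ s hmem.2, GG_pos J hJ hmem, qI_mul J hJ β h.β0 x hmem, h.mul]
  unfold tm
  have e1 : ((β * x.1 : 𝓞 K) : K) = (β : K) * (x.1 : K) := by simp
  rw [e1, lN_mul K hβ hx, mul_add, neg_add, Real.exp_add]
  push_cast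
  ring

theorem sum_tm' (h : Chr K χ m β) {s : ℝ} (hs : 1 < s) (hs2 : s ≤ 2) :
    Summable (tm K J hJ χ (fun y => psi K ((β : K) * y)) s) := by
  have hβ : (β : K) ≠ 0 := RingOfIntegers.coe_ne_zero_iff.mpr h.β0
  have hc0 : χ (span {β}) * ((Real.exp (-(s * lN K (β : K))) : ℝ) : ℂ) ≠ 0 := by
    refine mul_ne_zero ?_ (Complex.ofReal_ne_zero.2 (Real.exp_pos _).ne')
    rw [← norm_pos_iff, h.one]
    exact one_pos
  rw [← summable_mul_left_iff hc0]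
  have e : (fun x : XJ K J => χ (span {β}) * ((Real.exp (-(s * lN K (β : K))) : ℝ) : ℂ) *
      tm K J hJ χ (fun y => psi K ((β : K) * y)) s x) =
      fun x : XJ K J => tm K J hJ χ (psi K) s ⟨β * x.1, J.mul_mem_left _ x.2.1,
        mul_ne_zero h.β0 x.2.2⟩ := by
    funext x
    rw [← tm_mul J hJ h, tm_eq]
  rw [e]
  refine (sum_tm J hJ h hs hs2).comp_injective fun x y hxy => ?_
  have := congrArg (fun z : XJ K J => z.1) hxy
  exact Subtype.ext (mul_left_cancel₀ h.β0 this)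

/-- the values of the two sums agree -/
theorem tsum_tm' (h : Chr K χ m β) {s : ℝ} (hs : 1 < s) (hs2 : s ≤ 2) :
    ∑' x, tm K J hJ χ (fun y => psi K ((β : K) * y)) s x = ∑' x, tm K J hJ χ (psi K) s x := by
  have hβ : (β : K) ≠ 0 := RingOfIntegers.coe_ne_zero_iff.mpr h.β0
  have hC : ClassGroup.mk0 ⟨J, mem_nonZeroDivisors_of_ne_zero hJ⟩ =
      ((ClassGroup.mk0 ⟨J, mem_nonZeroDivisors_of_ne_zero hJ⟩)⁻¹)⁻¹ := (inv_inv _).symm
  rw [class_sum K J hJ χ (part_mul K hβ) s _ hC (sum_tm' J hJ h hs hs2),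
    class_sum K J hJ χ (part_psi K) s _ hC (sum_tm J hJ h hs hs2)]

end

end Pool.Agent.NH35.HC
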