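import Pool.Agent.NH35.HC.Bdd

/-! The sums over the ideals of a class are bounded near `s = 1` for a nontrivial character. -/

set_option autoImplicit false
set_option linter.unusedSectionVars false
open Filter Topology NumberField NumberField.InfinitePlace NumberField.Units
open Module nonZeroDivisors Ideal
open Pool.Agent.H484R2

namespace Pool.Agent.NH35.HC

variable {K : Type} [Field K] [NumberField K] (J : Ideal (𝓞 K)) (β : 𝓞 K)

/-- the classes of the elements of `J` modulo `βJ` -/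
def Qt : Type := {q : 𝓞 K ⧸ (span {β} * J) // ∃ x ∈ J, Ideal.Quotient.mk (span {β} * J) x = q}

/-- representatives -/
noncomputable def rp (q : Qt J β) : 𝓞 K := q.2.choose

theorem rp_mem (q : Qt J β) : rp J β q ∈ J := q.2.choose_spec.1

theorem rp_mk (q : Qt J β) : Ideal.Quotient.mk (span {β} * J) (rp J β q) = q.1 :=
  q.2.choose_spec.2

theorem mem_span_mul {x : 𝓞 K} : x ∈ span {β} * J ↔ ∃ z ∈ J, β * z = x :=
  Ideal.mem_span_singleton_mul

/-- the decomposition -/
noncomputable def dec (p : J × Qt J β) : J :=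
  ⟨β * p.1.1 + (1 - β) * rp J β p.2,
    J.add_mem (J.mul_mem_left _ p.1.2) (J.mul_mem_left _ (rp_mem J β p.2))⟩

theorem dec_bij (hβ : β ≠ 0) : Function.Bijective (dec J β) := by
  have hmk : ∀ p : J × Qt J β,
      Ideal.Quotient.mk (span {β} * J) (dec J β p).1 = p.2.1 := by
    intro p
    rw [← rp_mk, Ideal.Quotient.mk_eq_mk_iff_sub_mem]
    have e : (dec J β p).1 - rp J β p.2 = β * (p.1.1 - rp J β p.2) := by
      unfold dec
      ring
    rw [e, mem_span_mul]
    exact ⟨_, J.sub_mem p.1.2 (rp_mem J β p.2), rfl⟩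
  constructor
  · intro p p' h
    have h1 : p.2 = p'.2 := Subtype.ext (by rw [← hmk, ← hmk, h])
    have h2 := congrArg Subtype.val h
    unfold dec at h2
    simp only at h2
    rw [h1] at h2
    have h3 := mul_left_cancel₀ hβ (add_right_cancel h2)
    exact Prod.ext (Subtype.ext h3) h1
  · intro y
    set q : Qt J β := ⟨Ideal.Quotient.mk (span {β} * J) y.1, y.1, y.2, rfl⟩ with hq
    have h1 : y.1 - rp J β q ∈ span {β} * J := by
      rw [← Ideal.Quotient.mk_eq_mk_iff_sub_mem, rp_mk]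
    obtain ⟨z, hz, hzy⟩ := (mem_span_mul J β).1 h1
    refine ⟨(⟨rp J β q + z, J.add_mem (rp_mem J β q) hz⟩, q), Subtype.ext ?_⟩
    unfold dec
    simp only
    calc β * (rp J β q + z) + (1 - β) * rp J β q = rp J β q + β * z := by ring
      _ = y.1 := by rw [hzy]; ring

theorem finite_Qt (hJ : J ≠ ⊥) (hβ : β ≠ 0) : Finite (Qt J β) := by
  have hne : span {β} * J ≠ ⊥ := mul_ne_zero (by simpa using hβ) hJ
  have : Finite (𝓞 K ⧸ (span {β} * J)) := Ideal.finiteQuotientOfFreeOfNeBot _ hne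
  exact Subtype.finite

variable {β} {χ : Ideal (𝓞 K) → ℂ} {m : Ideal (𝓞 K)} (hJ : J ≠ ⊥)

/-- extension by zero -/
theorem tsum_J {f : 𝓞 K → ℂ} (h0 : f 0 = 0) (hs : Summable fun x : XJ K J => f x.1) :
    Summable (fun y : J => f y.1) ∧ ∑' y : J, f y.1 = ∑' x : XJ K J, f x.1 := by
  let i : XJ K J → J := fun x => ⟨x.1, x.2.1⟩
  have hi : Function.Injective i := fun x y h => Subtype.ext (congrArg (fun z : J => z.1) h)
  have hz : ∀ y : J, y ∉ Set.range i → f y.1 = 0 := by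
    intro y hy
    have : y.1 = 0 := by
      by_contra hne
      exact hy ⟨⟨y.1, y.2, hne⟩, rfl⟩
    rw [this, h0]
  refine ⟨(hi.summable_iff hz).1 hs, ?_⟩
  exact (hi.tsum_eq (f := fun y : J => f y.1) fun y hy => by
    by_contra hne
    exact hy (hz y hne)).symm

open Classical in
theorem hasSum_J {g : 𝓞 K → ℝ} {W : ℝ} (hs : HasSum (fun x : XJ K J => g x.1) W) (q : ℝ) :
    HasSum (fun x : J => if x = 0 then q else g x.1) (q + W) := by
  have h3 : HasSum (fun x : J => if x = 0 then q else (0 : ℝ)) q := hasSum_ite_eq (0 : J) q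
  let i : XJ K J → J := fun x => ⟨x.1, x.2.1⟩
  have hi : Function.Injective i := fun x y h => Subtype.ext (congrArg (fun z : J => z.1) h)
  have h4 : HasSum (fun x : J => if x = 0 then (0 : ℝ) else g x.1) W := by
    refine (hi.hasSum_iff fun y hy => ?_).1 ?_
    · have : y = 0 := by
        by_contra hne
        exact hy ⟨⟨y.1, y.2, fun h0 => hne (Subtype.ext h0)⟩, rfl⟩
      simp [this]
    · have e : ((fun x : J => if x = 0 then (0 : ℝ) else g x.1) ∘ i) =
          fun x : XJ K J => g x.1 := by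
        funext x
        have : i x ≠ 0 := fun h0 => x.2.2 (congrArg Subtype.val h0)
        simp only [Function.comp_apply, if_neg this]
        rfl
      rw [e]
      exact hs
  have h6 := h3.add h4
  have e : (fun x : J => if x = 0 then q else g x.1) =
      fun x : J => (if x = 0 then q else (0 : ℝ)) + if x = 0 then (0 : ℝ) else g x.1 := by
    funext x
    split_ifs <;> simp
  rw [e]
  exact h6

/-- the bound for the differences -/
theorem diff_bound (h : Chr K χ m β) : ∃ C : ℝ, 0 ≤ C ∧ ∀ s : ℝ, 1 < s → s ≤ 2 →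
    ∀ x : XJ K J, ∀ q : Qt J β,
    ‖ff K (GG J hJ χ) s (β * x.1 + (1 - β) * rp J β q) - ff K (GG J hJ χ) s (β * x.1)‖ ≤
      C * hh K (x.1 : K) ^ (-((finrank ℚ K : ℝ) + 1)) := by
  have hfin := finite_Qt J β hJ h.β0
  have hβ : (β : K) ≠ 0 := RingOfIntegers.coe_ne_zero_iff.mpr h.β0
  obtain ⟨L, hL0, hL⟩ := h.lip
  obtain ⟨D, hD⟩ : ∃ D : ℝ, 0 ≤ D ∧
      ∀ q : Qt J β, hh K (((1 - β) * rp J β q : 𝓞 K) : K) ≤ D := by
    cases nonempty_fintype (Qt J β)
    refine ⟨∑ q, hh K (((1 - β) * rp J β q : 𝓞 K) : K),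
      Finset.sum_nonneg fun q _ => hh_nonneg _, fun q => ?_⟩
    exact Finset.single_le_sum
      (f := fun q : Qt J β => hh K (((1 - β) * rp J β q : 𝓞 K) : K))
      (fun q _ => hh_nonneg _) (Finset.mem_univ q)
  obtain ⟨C, hC0, hC⟩ := ff_lip K D L hD.1 hL0
  obtain ⟨cβ, hcβ, hmul⟩ := hh_mul_ge hβ
  set n : ℝ := (finrank ℚ K : ℝ) with hn
  have hn0 : 0 ≤ n := Nat.cast_nonneg _
  refine ⟨(C + (D + 1) ^ (n + 1)) * cβ ^ (-(n + 1)), by
    have : 0 ≤ D := hD.1
    positivity, fun s hs hs2 x q => ?_⟩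
  have hx : (x.1 : K) ≠ 0 := RingOfIntegers.coe_ne_zero_iff.mpr x.2.2
  have hβx : β * x.1 ≠ 0 := mul_ne_zero h.β0 x.2.2
  have hhx := hh_pos hx
  have e1 : ((β * x.1 : 𝓞 K) : K) = (β : K) * (x.1 : K) := by simp
  have hcast : hh K ((β * x.1 : 𝓞 K) : K) ^ (-(n + 1)) ≤
      cβ ^ (-(n + 1)) * hh K (x.1 : K) ^ (-(n + 1)) := by
    rw [← Real.mul_rpow hcβ.le hhx.le, Real.rpow_neg (hh_nonneg _), Real.rpow_neg (by positivity),
      e1]
    exact inv_anti₀ (by positivity) (Real.rpow_le_rpow (by positivity) (hmul _) (by positivity))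
  have hd : ((β * x.1 + (1 - β) * rp J β q : 𝓞 K) : K) - ((β * x.1 : 𝓞 K) : K) =
      (((1 - β) * rp J β q : 𝓞 K) : K) := by
    push_cast
    ring
  have hkey : ‖ff K (GG J hJ χ) s (β * x.1 + (1 - β) * rp J β q) -
      ff K (GG J hJ χ) s (β * x.1)‖ ≤
      (C + (D + 1) ^ (n + 1)) * hh K ((β * x.1 : 𝓞 K) : K) ^ (-(n + 1)) := by
    have hpow : 0 ≤ hh K ((β * x.1 : 𝓞 K) : K) ^ (-(n + 1)) := Real.rpow_nonneg (hh_nonneg _) _
    by_cases h0 : β * x.1 + (1 - β) * rp J β q = 0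
    · rw [h0, ff_zero, zero_sub, norm_neg]
      have h1 := norm_ff_le_one (GG_bd J hJ h) (by linarith : 0 ≤ s) (β * x.1)
      have h2 : hh K ((β * x.1 : 𝓞 K) : K) ≤ D + 1 := by
        have h3 : ((β * x.1 : 𝓞 K) : K) = -(((1 - β) * rp J β q : 𝓞 K) : K) := by
          rw [← hd, h0]
          simp
        rw [h3, hh_neg]
        exact (hD.2 q).trans (by linarith)
      have h4 : 0 < hh K ((β * x.1 : 𝓞 K) : K) :=
        hh_pos (RingOfIntegers.coe_ne_zero_iff.mpr hβx)
      have h5 : 1 ≤ (D + 1) ^ (n + 1) * hh K ((β * x.1 : 𝓞 K) : K) ^ (-(n + 1)) := by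
        rw [Real.rpow_neg h4.le, ← div_eq_mul_inv, one_le_div (by positivity)]
        exact Real.rpow_le_rpow h4.le h2 (by positivity)
      calc _ ≤ (1 : ℝ) := h1
        _ ≤ (D + 1) ^ (n + 1) * hh K ((β * x.1 : 𝓞 K) : K) ^ (-(n + 1)) := h5
        _ ≤ _ := mul_le_mul_of_nonneg_right (by linarith) hpow
    · refine (hC (GG J hJ χ) (GG_bd J hJ h) s hs.le hs2 (β * x.1) _ hβx h0 ?_ ?_).trans
        (mul_le_mul_of_nonneg_right (by
          have : 0 ≤ (D + 1) ^ (n + 1) := Real.rpow_nonneg (by linarith [hD.1]) _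
          linarith) hpow)
      · rw [hd]
        exact hD.2 q
      · intro δ hδ hw
        have hm1 : β * x.1 ∈ J ∧ β * x.1 ≠ 0 := ⟨J.mul_mem_left _ x.2.1, hβx⟩
        have hm2 : β * x.1 + (1 - β) * rp J β q ∈ J ∧ β * x.1 + (1 - β) * rp J β q ≠ 0 :=
          ⟨J.add_mem (J.mul_mem_left _ x.2.1) (J.mul_mem_left _ (rp_mem J β q)), h0⟩
        rw [GG_pos J hJ hm1, GG_pos J hJ hm2]
        refine hL J _ _ (β * x.1) _ hβx h0 hJ (qI_spec K J hJ ⟨_, hm1⟩)
          (qI_spec K J hJ ⟨_, hm2⟩) ?_ δ hδ hw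
        rw [add_sub_cancel_left]
        refine Ideal.mul_mem_mul ?_ (rp_mem J β q)
        rw [← neg_sub]
        exact m.neg_mem h.β1
  refine hkey.trans ?_
  calc (C + (D + 1) ^ (n + 1)) * hh K ((β * x.1 : 𝓞 K) : K) ^ (-(n + 1))
      ≤ (C + (D + 1) ^ (n + 1)) * (cβ ^ (-(n + 1)) * hh K (x.1 : K) ^ (-(n + 1))) :=
        mul_le_mul_of_nonneg_left hcast (by
          have : 0 ≤ (D + 1) ^ (n + 1) := Real.rpow_nonneg (by linarith [hD.1]) _
          linarith)
    _ = _ := by ring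

/-- **The lattice sums are bounded.** -/
theorem tm_bounded (h : Chr K χ m β) : ∃ C : ℝ, ∀ s : ℝ, 1 < s → s ≤ 2 →
    ‖∑' x, tm K J hJ χ (psi K) s x‖ ≤ C := by
  have hfin := finite_Qt J β hJ h.β0
  cases nonempty_fintype (Qt J β)
  obtain ⟨C, hC0, hC⟩ := diff_bound J hJ h
  obtain ⟨δ, hδ, hray⟩ := ray h.one h.ne
  set n : ℝ := (finrank ℚ K : ℝ) with hn
  set q : ℝ := (Fintype.card (Qt J β) : ℝ) with hq
  have hsum := summable_hh K J hJ (r := n + 1) (by linarith)
  set W : ℝ := ∑' x : XJ K J, hh K (x.1 : K) ^ (-(n + 1)) with hW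
  refine ⟨(q + q * (C * W)) / δ, fun s hs hs2 => ?_⟩
  set F : 𝓞 K → ℂ := ff K (GG J hJ χ) s with hF
  have hF0 : F 0 = 0 := ff_zero _ _
  have hS1 : Summable fun x : XJ K J => F x.1 :=
    (sum_tm J hJ h hs hs2).congr fun x => tm_eq J hJ s x
  obtain ⟨hS2, hS3⟩ := tsum_J J hF0 hS1
  set S : ℂ := ∑' x, tm K J hJ χ (psi K) s x with hS
  have hSe : ∑' y : J, F y.1 = S := by
    rw [hS3]
    exact (tsum_congr fun x => tm_eq J hJ s x).symm
  -- the sum over the multiples of beta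
  set e : ℝ := Real.exp (-(s * lN K (β : K))) with he
  have hU1 : Summable fun x : XJ K J => F (β * x.1) := by
    refine ((sum_tm' J hJ h hs hs2).mul_left (χ (span {β}) * (e : ℂ))).congr fun x => ?_
    exact (tm_mul J hJ h s x).symm
  have hβ0 : F (β * 0) = 0 := by rw [mul_zero, hF0]
  obtain ⟨hU2, hU3⟩ := tsum_J J (f := fun x => F (β * x)) hβ0 hU1
  have hUe : ∑' y : J, F (β * y.1) = (χ (span {β}) * (e : ℂ)) * S := by
    rw [hU3, tsum_congr fun x : XJ K J => tm_mul J hJ h s x, tsum_mul_left,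
      tsum_tm' J hJ h hs hs2]
  -- the decomposition
  have hdec : Summable fun p : J × Qt J β => F (dec J β p).1 :=
    (Equiv.ofBijective _ (dec_bij J β h.β0)).summable_iff.2 hS2
  have hSd : S = ∑' x : J, ∑ q : Qt J β, F (dec J β (x, q)).1 := by
    rw [← hSe, ← (Equiv.ofBijective _ (dec_bij J β h.β0)).tsum_eq (fun y : J => F y.1)]
    refine (hdec.tsum_prod' fun x => Summable.of_finite).trans ?_
    exact tsum_congr fun x => tsum_fintype _
  have hdec2 : Summable fun x : J => ∑ q : Qt J β, F (dec J β (x, q)).1 := by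
    refine hdec.prod.congr fun x => ?_
    exact tsum_fintype _
  have hU4 : Summable fun x : J => ∑ _q : Qt J β, F (β * x.1) := by
    simp only [Finset.sum_const]
    exact hU2.const_smul _
  have hdiff : S - (q : ℂ) * ((χ (span {β}) * (e : ℂ)) * S) =
      ∑' x : J, ∑ q : Qt J β, (F (dec J β (x, q)).1 - F (β * x.1)) := by
    rw [← hUe, ← tsum_mul_left]
    nth_rw 1 [hSd]
    have e1 : (fun x : J => (q : ℂ) * F (β * x.1)) = fun x : J => ∑ _q : Qt J β, F (β * x.1) := by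
      funext x
      rw [Finset.sum_const, Finset.card_univ, nsmul_eq_mul, hq]
      push_cast
      rfl
    rw [e1, ← hdec2.tsum_sub hU4]
    refine tsum_congr fun x => ?_
    rw [Finset.sum_sub_distrib]
  -- the bound
  classical
  have hsumJ := hasSum_J J (g := fun x : 𝓞 K => q * (C * hh K (x : K) ^ (-(n + 1))))
    ((hsum.hasSum.mul_left C).mul_left q) q
  have hnorm : ∀ x : J, ‖∑ q : Qt J β, (F (dec J β (x, q)).1 - F (β * x.1))‖ ≤
      if x = 0 then q else q * (C * hh K (x.1 : K) ^ (-(n + 1))) := by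
    intro x
    split_ifs with hx
    · refine (norm_sum_le _ _).trans ?_
      refine (Finset.sum_le_card_nsmul _ _ 1 fun r _ => ?_).trans ?_
      · have hx1 : x.1 = 0 := by rw [hx]; rfl
        rw [hx1, mul_zero, hF0, sub_zero]
        exact norm_ff_le_one (GG_bd J hJ h) (by linarith) _
      · rw [nsmul_eq_mul, mul_one, Finset.card_univ]
    · refine (norm_sum_le _ _).trans ?_
      refine (Finset.sum_le_card_nsmul _ _ (C * hh K (x.1 : K) ^ (-(n + 1))) fun r _ => ?_).trans ?_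
      · exact hC s hs hs2 ⟨x.1, x.2, fun h0 => hx (Subtype.ext h0)⟩ r
      · rw [nsmul_eq_mul, Finset.card_univ]
  have hfinal : ‖S - (q : ℂ) * ((χ (span {β}) * (e : ℂ)) * S)‖ ≤ q + q * (C * W) := by
    rw [hdiff]
    exact tsum_of_norm_bounded hsumJ hnorm
  have hfac : S - (q : ℂ) * ((χ (span {β}) * (e : ℂ)) * S) =
      (1 - ((q * e : ℝ) : ℂ) * χ (span {β})) * S := by
    push_cast
    ring
  rw [hfac, norm_mul] at hfinal
  have hr := hray (q * e) (mul_nonneg (Nat.cast_nonneg _) (Real.exp_pos _).le)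
  rw [le_div_iff₀ hδ]
  calc ‖S‖ * δ ≤ ‖S‖ * ‖1 - ((q * e : ℝ) : ℂ) * χ (span {β})‖ :=
        mul_le_mul_of_nonneg_left hr (norm_nonneg _)
    _ ≤ _ := by rw [mul_comm]; exact hfinal

end Pool.Agent.NH35.HC
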