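import Pool.Agent.NH35.HC.Lip

/-! Sums over the ideals of a class as sums over a lattice. -/

set_option autoImplicit false
open Filter Topology NumberField NumberField.InfinitePlace NumberField.Units
open Module nonZeroDivisors Ideal
open Pool.Agent.H484R2

namespace Pool.Agent.NH35.HC

variable (K : Type) [Field K] [NumberField K] (J : Ideal (𝓞 K)) (hJ : J ≠ ⊥)
  (χ : Ideal (𝓞 K) → ℂ)

/-- the terms -/
noncomputable def tm (φ : K → ℝ) (s : ℝ) (x : XJ K J) : ℂ :=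
  (φ (x.1 : K) : ℂ) * χ (qI K J hJ x).1 * ((Real.exp (-(s * lN K (x.1 : K))) : ℝ) : ℂ)

/-- `φ` is a partition of `w` under the group of units, `w` the number of the roots of unity -/
def IsPart (φ : K → ℝ) : Prop :=
  ∀ x : K, x ≠ 0 → HasSum (fun u : (𝓞 K)ˣ => φ ((u : K) * x)) (torsionOrder K)

theorem exp_lN {A B : ℕ} (hA : A ≠ 0) (hB : B ≠ 0) (s : ℝ) :
    Real.exp (-(s * Real.log ((A * B : ℕ) : ℝ))) = (A : ℝ) ^ (-s) * (B : ℝ) ^ (-s) := by
  have hA' : (0 : ℝ) < A := by exact_mod_cast Nat.pos_of_ne_zero hA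
  have hB' : (0 : ℝ) < B := by exact_mod_cast Nat.pos_of_ne_zero hB
  rw [Real.rpow_def_of_pos hA', Real.rpow_def_of_pos hB', ← Real.exp_add]
  push_cast
  rw [Real.log_mul hA'.ne' hB'.ne']
  congr 1
  ring

theorem fib_pos {φ : K → ℝ} (hφ : IsPart K φ) (s : ℝ) (I : NZI K) (x₀ : 𝓞 K)
    (hx₀ : I.1 * J = span {x₀}) :
    ∑' b : (qI K J hJ ⁻¹' {I} : Set (XJ K J)), tm K J hJ χ φ s b.1 =
      (torsionOrder K : ℂ) * χ I.1 *
        (((absNorm I.1 : ℝ) ^ (-s) * (absNorm J : ℝ) ^ (-s) : ℝ) : ℂ) := by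
  have hx₀ne : x₀ ≠ 0 := by
    rintro rfl
    have : I.1 * J = ⊥ := by rw [hx₀]; simp
    exact (mul_ne_zero I.2 hJ) this
  have hx₀J : x₀ ∈ J :=
    (Ideal.mul_le_right (I := I.1) (J := J)) (hx₀.symm.le (Ideal.mem_span_singleton_self x₀))
  have hx₀K : ((x₀ : 𝓞 K) : K) ≠ 0 := RingOfIntegers.coe_ne_zero_iff.mpr hx₀ne
  let e : (𝓞 K)ˣ ≃ (qI K J hJ ⁻¹' {I} : Set (XJ K J)) :=
    Equiv.ofBijective (fun u => ⟨⟨(u : 𝓞 K) * x₀, J.mul_mem_left _ hx₀J,
      mul_ne_zero u.ne_zero hx₀ne⟩, by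
        rw [Set.mem_preimage, Set.mem_singleton_iff, qI_eq_iff' K J hJ _ I x₀ hx₀,
          Ideal.span_singleton_eq_span_singleton]
        exact associated_unit_mul_left _ _ u.isUnit⟩) (by
      constructor
      · intro u v huv
        have h1 := congrArg (fun z : (qI K J hJ ⁻¹' {I} : Set (XJ K J)) => z.1.1) huv
        simp only at h1
        exact Units.ext (mul_right_cancel₀ hx₀ne h1)
      · rintro ⟨x, hx⟩
        rw [Set.mem_preimage, Set.mem_singleton_iff, qI_eq_iff' K J hJ x I x₀ hx₀,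
          Ideal.span_singleton_eq_span_singleton] at hx
        obtain ⟨u, hu⟩ := hx.symm
        refine ⟨u, ?_⟩
        apply Subtype.ext
        apply Subtype.ext
        simp only
        rw [mul_comm]
        exact hu)
  rw [← e.tsum_eq]
  have hI0 : absNorm I.1 ≠ 0 := by rw [Ne, absNorm_eq_zero_iff]; exact I.2
  have hJ0 : absNorm J ≠ 0 := by rwa [Ne, absNorm_eq_zero_iff]
  have h3 : ∀ u : (𝓞 K)ˣ, tm K J hJ χ φ s (e u).1 = (φ ((u : K) * (x₀ : K)) : ℂ) *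
      (χ I.1 * (((absNorm I.1 : ℝ) ^ (-s) * (absNorm J : ℝ) ^ (-s) : ℝ) : ℂ)) := by
    intro u
    have h4 : ((e u).1.1 : K) = (u : K) * (x₀ : K) := by
      change (((u : 𝓞 K) * x₀ : 𝓞 K) : K) = _
      simp
    have h5 : qI K J hJ (e u).1 = I := (e u).2
    unfold tm
    rw [h4, h5, lN_unit_mul K u hx₀K, lN_absNorm K hx₀ne, ← hx₀, map_mul, exp_lN hI0 hJ0]
    ring
  rw [tsum_congr h3, tsum_mul_right]
  have h6 := (Complex.hasSum_ofReal.mpr (hφ _ hx₀K)).tsum_eq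
  rw [Complex.ofReal_natCast] at h6
  rw [h6]
  ring

theorem fib_neg {φ : K → ℝ} (s : ℝ) (I : NZI K) (hI : ¬ (I.1 * J).IsPrincipal) :
    ∑' b : (qI K J hJ ⁻¹' {I} : Set (XJ K J)), tm K J hJ χ φ s b.1 = 0 := by
  have hempty : (qI K J hJ ⁻¹' {I} : Set (XJ K J)) = ∅ := by
    ext x
    simp only [Set.mem_preimage, Set.mem_singleton_iff, Set.mem_empty_iff_false, iff_false]
    intro h
    rw [qI_eq_iff] at h
    exact hI ⟨x.1, h⟩
  rw [hempty]
  simp

open Classical in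
/-- the sum over the ideals of one class -/
noncomputable def cs (s : ℝ) (C : ClassGroup (𝓞 K)) : ℂ :=
  ∑' I : NZI K, if cls K I = C then χ I.1 * (((absNorm I.1 : ℝ) ^ (-s) : ℝ) : ℂ) else 0

/-- **The sum over the ideals of a class.** -/
theorem class_sum {φ : K → ℝ} (hφ : IsPart K φ) (s : ℝ) (C : ClassGroup (𝓞 K))
    (hC : ClassGroup.mk0 ⟨J, mem_nonZeroDivisors_of_ne_zero hJ⟩ = C⁻¹)
    (hsum : Summable (tm K J hJ χ φ s)) :
    ∑' x, tm K J hJ χ φ s x =
      (torsionOrder K : ℂ) * (((absNorm J : ℝ) ^ (-s) : ℝ) : ℂ) * cs K χ s C := by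
  classical
  have h2 := hsum.hasSum.tsum_fiberwise (qI K J hJ)
  rw [← h2.tsum_eq, cs, ← tsum_mul_left]
  refine tsum_congr fun I => ?_
  split_ifs with hI
  · rw [← principal_iff K J hJ C hC] at hI
    obtain ⟨x₀, hx₀⟩ := hI
    rw [fib_pos K J hJ χ hφ s I x₀ hx₀]
    push_cast
    ring
  · rw [← principal_iff K J hJ C hC] at hI
    rw [fib_neg K J hJ χ s I hI, mul_zero]

theorem part_psi : IsPart K (psi K) := fun _ hx => hasSum_psi K hx

theorem part_mul {b : K} (hb : b ≠ 0) : IsPart K fun x => psi K (b * x) := by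
  intro x hx
  have h := hasSum_psi K (mul_ne_zero hb hx)
  have e : (fun u : (𝓞 K)ˣ => psi K (b * ((u : K) * x))) =
      fun u : (𝓞 K)ˣ => psi K ((u : K) * (b * x)) := by
    funext u
    congr 1
    ring
  show HasSum (fun u : (𝓞 K)ˣ => psi K (b * ((u : K) * x))) (torsionOrder K)
  rw [e]
  exact h

end Pool.Agent.NH35.HC
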