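import Pool.Agent.NH35.HC.Stick

/-! The number of points of the curve `y² + y = x^p`. -/

set_option autoImplicit false
set_option linter.unusedSectionVars false
open NumberField NumberField.InfinitePlace IsDedekindDomain
open Module nonZeroDivisors Ideal IsCyclotomicExtension
open scoped ComplexConjugate

namespace Pool.Agent.NH35.HC

/-- the number of affine points of `y² + y = x^p` -/
noncomputable def pts (p : ℕ) (κ : Type) [CommRing κ] : ℕ :=
  Nat.card {z : κ × κ // z.2 ^ 2 + z.2 = z.1 ^ p}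

section
variable {p : ℕ} [Fact p.Prime]

theorem sum_units {R : Type} [AddCommMonoid R] (f : ℕ → R) :
    ∑ u : (ZMod p)ˣ, f (u : ZMod p).val + f 0 = ∑ a ∈ Finset.range p, f a := by
  have hpr : p.Prime := Fact.out
  have hp1 : p = (p - 1) + 1 := (Nat.sub_add_cancel hpr.one_le).symm
  have e : ∑ a ∈ Finset.range p, f a = ∑ a ∈ Finset.range ((p - 1) + 1), f a := by rw [← hp1]
  rw [e, Finset.sum_range_succ']
  congr 1
  have hne : ∀ k ∈ Finset.range (p - 1), ((k + 1 : ℕ) : ZMod p) ≠ 0 := by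
    intro k hk h0
    rw [ZMod.natCast_eq_zero_iff] at h0
    have := Nat.le_of_dvd (Nat.succ_pos k) h0
    have := Finset.mem_range.1 hk
    omega
  symm
  refine Finset.sum_bij (fun k hk => Units.mk0 ((k + 1 : ℕ) : ZMod p) (hne k hk)) ?_ ?_ ?_ ?_
  · intro k hk
    exact Finset.mem_univ _
  · intro k hk l hl h
    have h2 := congrArg Units.val h
    rw [Units.val_mk0, Units.val_mk0] at h2
    have h3 := congrArg ZMod.val h2
    have hk' := Finset.mem_range.1 hk
    have hl' := Finset.mem_range.1 hl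
    rw [ZMod.val_natCast, ZMod.val_natCast, Nat.mod_eq_of_lt (by omega),
      Nat.mod_eq_of_lt (by omega)] at h3
    omega
  · intro t _
    have h0 : (t : ZMod p).val ≠ 0 := by
      rw [Ne, ZMod.val_eq_zero]
      exact t.ne_zero
    have h1 := ZMod.val_lt (t : ZMod p)
    refine ⟨(t : ZMod p).val - 1, ?_, ?_⟩
    · rw [Finset.mem_range]
      omega
    · apply Units.ext
      rw [Units.val_mk0, Nat.sub_add_cancel (Nat.one_le_iff_ne_zero.2 h0),
        ZMod.natCast_zmod_val]
  · intro k hk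
    rw [Units.val_mk0, ZMod.val_natCast, Nat.mod_eq_of_lt]
    have := Finset.mem_range.1 hk
    omega

variable {K : Type} [Field K] [NumberField K]
  [IsCyclotomicExtension {p} ℚ K] {F : Type} [Field F] [Fintype F] {χ : MulChar F (𝓞 K)}

theorem exists_root (π : 𝓞 K →+* F) (hpF : ((p : ℕ) : F) ≠ 0) (hχ : χ ^ p = 1)
    (hχ2 : ∀ y : F, π (χ y) = y ^ ((Fintype.card F - 1) / p)) {w : F} (hw : w ≠ 0) :
    (∃ α : F, α ^ p = w) ↔ χ w = 1 := by
  classical
  have hpr : p.Prime := Fact.out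
  constructor
  · rintro ⟨α, rfl⟩
    have hα : α ≠ 0 := by
      rintro rfl
      exact hw (zero_pow hpr.ne_zero)
    rw [map_pow, chi_pow hχ hα]
  · intro h
    have h1 := hχ2 w
    rw [h, map_one] at h1
    have hkp : (Fintype.card F - 1) / p * p = Fintype.card F - 1 :=
      Nat.div_mul_cancel (p_dvd π hpF)
    have hcard : 1 < Fintype.card F := Fintype.one_lt_card
    set c := (Fintype.card F - 1) / p with hc
    have hc0 : 0 < c := by
      rcases Nat.eq_zero_or_pos c with h | h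
      · rw [h, zero_mul] at hkp
        omega
      · exact h
    obtain ⟨g, hg⟩ := IsCyclic.exists_generator (α := Fˣ)
    obtain ⟨k, hk⟩ := (mem_powers_iff_mem_zpowers.2 (hg (Units.mk0 w hw)))
    have hk' : g ^ k = Units.mk0 w hw := hk
    have h2 : g ^ (k * c) = 1 := by
      rw [pow_mul, hk']
      apply Units.ext
      rw [Units.val_pow_eq_pow_val, Units.val_mk0, Units.val_one]
      exact h1.symm
    have h3 := orderOf_dvd_of_pow_eq_one h2
    rw [orderOf_eq_card_of_forall_mem_zpowers hg, Nat.card_eq_fintype_card, Fintype.card_units,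
      ← hkp, mul_comm c p] at h3
    obtain ⟨m, rfl⟩ := Nat.dvd_of_mul_dvd_mul_right hc0 h3
    refine ⟨(g : F) ^ m, ?_⟩
    have h4 := congrArg Units.val hk'
    rw [Units.val_mk0, Units.val_pow_eq_pow_val] at h4
    rw [← h4, ← pow_mul, mul_comm]

theorem count_fib (π : 𝓞 K →+* F) (hpF : ((p : ℕ) : F) ≠ 0) (hχ : χ ^ p = 1)
    (hχ2 : ∀ y : F, π (χ y) = y ^ ((Fintype.card F - 1) / p)) (w : F) :
    ((Nat.card {x : F // w = x ^ p} : ℕ) : 𝓞 K) =
      1 + ∑ u : (ZMod p)ˣ, χ w ^ (u : ZMod p).val := by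
  classical
  have hpr : p.Prime := Fact.out
  by_cases hw : w = 0
  · subst hw
    have h1 : ∑ u : (ZMod p)ˣ, χ (0 : F) ^ (u : ZMod p).val = 0 := by
      refine Finset.sum_eq_zero fun u _ => ?_
      rw [MulChar.map_zero, zero_pow]
      rw [Ne, ZMod.val_eq_zero]
      exact u.ne_zero
    rw [h1, add_zero]
    have h2 : Nat.card {x : F // (0 : F) = x ^ p} = 1 := by
      rw [Nat.card_eq_one_iff_unique]
      refine ⟨⟨fun a b => Subtype.ext ?_⟩, ⟨⟨0, by rw [zero_pow hpr.ne_zero]⟩⟩⟩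
      have ha : a.1 = 0 := pow_eq_zero_iff hpr.ne_zero |>.1 a.2.symm
      have hb : b.1 = 0 := pow_eq_zero_iff hpr.ne_zero |>.1 b.2.symm
      rw [ha, hb]
    rw [h2, Nat.cast_one]
  · have h3 := map_zt π hpF
    have h1 : Nat.card {x : F // w = x ^ p} = Multiset.card (Polynomial.nthRoots p w) := by
      have h4 : {x : F | w = x ^ p} = ((Polynomial.nthRoots p w).toFinset : Set F) := by
        ext x
        rw [Finset.mem_coe, Multiset.mem_toFinset, Polynomial.mem_nthRoots hpr.pos]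
        exact eq_comm
      have h5 : Nat.card {x : F // w = x ^ p} = ({x : F | w = x ^ p}).ncard := rfl
      rw [h5, h4, Set.ncard_coe_finset, Multiset.toFinset_card_of_nodup (h3.nthRoots_nodup hw)]
    have h6 := sum_units (p := p) (fun a => χ w ^ a)
    simp only [pow_zero] at h6
    rw [h1, add_comm, h6, h3.card_nthRoots w]
    by_cases hc : χ w = 1
    · rw [if_pos ((exists_root π hpF hχ hχ2 hw).2 hc), hc]
      simp
    · rw [if_neg fun h => hc ((exists_root π hpF hχ hχ2 hw).1 h)]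
      have h7 := geom_sum_mul (χ w) p
      rw [chi_pow hχ hw, sub_self] at h7
      rw [(mul_eq_zero.1 h7).resolve_right (sub_ne_zero.2 hc), Nat.cast_zero]

theorem pts_equiv (p : ℕ) {κ κ' : Type} [CommRing κ] [CommRing κ'] (e : κ ≃+* κ') :
    pts p κ = pts p κ' := by
  refine Nat.card_congr
    { toFun := fun z => ⟨(e z.1.1, e z.1.2), by
        change e z.1.2 ^ 2 + e z.1.2 = e z.1.1 ^ p
        rw [← map_pow, ← map_pow, ← map_add, z.2]⟩
      invFun := fun z => ⟨(e.symm z.1.1, e.symm z.1.2), by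
        change e.symm z.1.2 ^ 2 + e.symm z.1.2 = e.symm z.1.1 ^ p
        rw [← map_pow, ← map_pow, ← map_add, z.2]⟩
      left_inv := fun z => by simp
      right_inv := fun z => by simp }

theorem pts_eq_sum (p : ℕ) (κ : Type) [CommRing κ] [Fintype κ] :
    pts p κ = ∑ y : κ, Nat.card {x : κ // y ^ 2 + y = x ^ p} := by
  classical
  unfold pts
  have e : {z : κ × κ // z.2 ^ 2 + z.2 = z.1 ^ p} ≃ Σ y : κ, {x : κ // y ^ 2 + y = x ^ p} :=
    { toFun := fun z => ⟨z.1.2, z.1.1, z.2⟩
      invFun := fun z => ⟨(z.2.1, z.1), z.2.2⟩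
      left_inv := fun z => rfl
      right_inv := fun z => rfl }
  rw [Nat.card_congr e, Nat.card_sigma]

/-- **The number of points.** -/
theorem count (hp : p ≠ 2) (π : 𝓞 K →+* F) (hpF : ((p : ℕ) : F) ≠ 0) (hχ : χ ^ p = 1)
    (hχ2 : ∀ y : F, π (χ y) = y ^ ((Fintype.card F - 1) / p)) :
    ∑ u : (ZMod p)ˣ, sa p K u (jj χ) = ((Fintype.card F : ℕ) : 𝓞 K) - ((pts p F : ℕ) : 𝓞 K) := by
  classical
  have hpr : p.Prime := Fact.out
  have hneg : χ (-1) = 1 := by
    obtain ⟨m, hm⟩ := hpr.odd_of_ne_two hp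
    have h1 := chi_pow hχ (y := (-1 : F)) (by simp)
    have h2 : χ (-1) ^ 2 = 1 := by rw [← map_pow]; simp
    rw [hm, pow_succ, pow_mul, h2, one_pow, one_mul] at h1
    exact h1
  have h1 : ∀ u : (ZMod p)ˣ, sa p K u (jj χ) = -∑ y : F, χ (y ^ 2 + y) ^ (u : ZMod p).val := by
    intro u
    rw [sa_jj hχ]
    congr 1
    refine Fintype.sum_equiv (Equiv.neg F) _ _ fun x => ?_
    have e : (Equiv.neg F x) ^ 2 + Equiv.neg F x = (-1) * (x * (1 - x)) := by
      rw [Equiv.neg_apply]
      ring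
    rw [e, map_mul χ (-1) (x * (1 - x)), hneg, one_mul]
  simp only [h1]
  rw [pts_eq_sum, Finset.sum_neg_distrib, Finset.sum_comm]
  push_cast
  simp only [count_fib π hpF hχ hχ2]
  rw [Finset.sum_add_distrib, Finset.sum_const, Finset.card_univ]
  simp

end

end Pool.Agent.NH35.HC
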