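import Mathlib

/-! Extension of characters with values in the circle. -/

set_option autoImplicit false

namespace Pool.Agent.NH35.HC

/-- the circle is divisible -/
noncomputable instance divC : DivisibleBy (Additive Circle) ℤ where
  div z n := Additive.ofMul (Circle.exp (Complex.arg (Additive.toMul z : Circle) / n))
  div_zero z := by simp
  div_cancel {n} z hn := by
    have hn' : (n : ℝ) ≠ 0 := by exact_mod_cast hn
    rw [← ofMul_zpow]
    apply Additive.toMul.injective
    rw [toMul_ofMul, ← Circle.exp_zsmul, zsmul_eq_mul, mul_div_cancel₀ _ hn', Circle.exp_arg]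

theorem exists_ext {G : Type} [CommGroup G] (H : Subgroup G) (f : H →* Circle) :
    ∃ ψ : G →* Circle, ∀ x : H, ψ x = f x := by
  obtain ⟨h, hh⟩ := (Module.Baer.of_divisible (Additive Circle)).extension_property_addMonoidHom
    (MonoidHom.toAdditive H.subtype) H.subtype_injective (MonoidHom.toAdditive f)
  refine ⟨MonoidHom.toAdditive.symm h, fun x => ?_⟩
  have := DFunLike.congr_fun hh (Additive.ofMul x)
  exact this

/-- a multiplicative function on a submonoid of a group extends to the group -/
theorem exists_ext_monoid {G : Type} [CommGroup G] (P : Submonoid G) (g : P →* Circle) :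
    ∃ ψ : G →* Circle, ∀ x : P, ψ x = g x := by
  classical
  let H : Subgroup G :=
    { carrier := {x | ∃ a b : P, x = a / b}
      mul_mem' := by
        rintro x y ⟨a, b, rfl⟩ ⟨c, d, rfl⟩
        refine ⟨a * c, b * d, ?_⟩
        push_cast
        exact div_mul_div_comm _ _ _ _
      one_mem' := ⟨1, 1, by simp⟩
      inv_mem' := by
        rintro x ⟨a, b, rfl⟩
        exact ⟨b, a, by simp⟩ }
  have hH : ∀ x : H, ∃ y : P × P, (x : G) = y.1 / y.2 := by
    rintro ⟨x, a, b, h⟩
    exact ⟨(a, b), h⟩
  choose r hr using hH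
  have key : ∀ a b c d : P, (a : G) / b = c / d → g a / g b = g c / g d := by
    intro a b c d h
    rw [div_eq_div_iff_mul_eq_mul] at h ⊢
    have h' : a * d = c * b := Subtype.ext (by push_cast; exact h)
    rw [← map_mul, ← map_mul, h']
  let f : H →* Circle :=
    { toFun := fun x => g (r x).1 / g (r x).2
      map_one' := by
        have h1 := hr 1
        have := key (r 1).1 (r 1).2 1 1 (by rw [← h1]; simp)
        rw [this]
        simp
      map_mul' := by
        intro x y
        have h1 := hr x
        have h2 := hr y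
        have h3 := hr (x * y)
        have h4 : ((r (x * y)).1 : G) / (r (x * y)).2 =
            ((r x).1 * (r y).1 : P) / ((r x).2 * (r y).2 : P) := by
          rw [← h3]
          push_cast
          rw [h1, h2]
          exact div_mul_div_comm _ _ _ _
        rw [key _ _ _ _ h4, map_mul, map_mul, div_mul_div_comm] }
  obtain ⟨ψ, hψ⟩ := exists_ext H f
  refine ⟨ψ, fun x => ?_⟩
  have hx : (x : G) ∈ H := ⟨x, 1, by simp⟩
  have h1 : ψ (x : G) = g (r ⟨x, hx⟩).1 / g (r ⟨x, hx⟩).2 := hψ ⟨x, hx⟩
  rw [h1]
  have h2 := hr ⟨(x : G), hx⟩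
  have h3 := key (r ⟨(x : G), hx⟩).1 (r ⟨(x : G), hx⟩).2 x 1 (by rw [← h2]; simp)
  rw [h3]
  simp

end Pool.Agent.NH35.HC
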