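import Pool.Agent.NH35.HC.Hk
import Pool.Agent.NH35.HC.Grp

/-! The Galois action on the integers of the cyclotomic field of prime level. -/

set_option autoImplicit false
set_option linter.unusedSectionVars false
open NumberField NumberField.InfinitePlace IsDedekindDomain
open Module nonZeroDivisors Ideal IsCyclotomicExtension
open scoped ComplexConjugate

namespace Pool.Agent.NH35.HC

variable (p : ℕ) [Fact p.Prime] (K : Type) [Field K] [NumberField K]
  [IsCyclotomicExtension {p} ℚ K]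

/-- the automorphism `ζ ↦ ζ^u` -/
noncomputable def gal (u : (ZMod p)ˣ) : K ≃ₐ[ℚ] K := (IsCyclotomicExtension.Rat.galEquivZMod p K).symm u

/-- the automorphism `ζ ↦ ζ^u` of the ring of integers -/
noncomputable def sa (u : (ZMod p)ˣ) : 𝓞 K ≃+* 𝓞 K := sg (gal p K u).toRingEquiv

/-- the root of unity -/
noncomputable def zt : 𝓞 K := (zeta_spec p ℚ K).toInteger

theorem zt_prim : IsPrimitiveRoot (zt p K) p := (zeta_spec p ℚ K).toInteger_isPrimitiveRoot

theorem coe_sa (u : (ZMod p)ˣ) (x : 𝓞 K) : ((sa p K u x : 𝓞 K) : K) = gal p K u (x : K) := rfl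

theorem gal_mul (u v : (ZMod p)ˣ) (x : K) : gal p K (u * v) x = gal p K u (gal p K v x) := by
  unfold gal
  rw [map_mul]
  rfl

theorem gal_one (x : K) : gal p K 1 x = x := by
  unfold gal
  rw [map_one]
  rfl

theorem sa_mul (u v : (ZMod p)ˣ) (x : 𝓞 K) : sa p K (u * v) x = sa p K u (sa p K v x) :=
  RingOfIntegers.ext (gal_mul p K u v x)

theorem sa_one (x : 𝓞 K) : sa p K 1 x = x := RingOfIntegers.ext (gal_one p K x)

theorem gal_zeta (u : (ZMod p)ˣ) : gal p K u (zt p K : K) = (zt p K : K) ^ (u : ZMod p).val := by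
  have h : (zt p K : K) ^ p = 1 := by
    have := (zt_prim p K).pow_eq_one
    have h2 := congrArg (fun y : 𝓞 K => (y : K)) this
    simpa using h2
  have h3 := IsCyclotomicExtension.Rat.galEquivZMod_apply_of_pow_eq p K (gal p K u) h
  rw [h3]
  unfold gal
  rw [MulEquiv.apply_symm_apply]

theorem sa_zt (u : (ZMod p)ˣ) : sa p K u (zt p K) = zt p K ^ (u : ZMod p).val := by
  apply RingOfIntegers.ext
  rw [coe_sa, gal_zeta]
  simp

theorem sa_injective (u : (ZMod p)ˣ) : Function.Injective (sa p K u) := (sa p K u).injective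

theorem sa_ne {u : (ZMod p)ˣ} {x : 𝓞 K} (hx : x ≠ 0) : sa p K u x ≠ 0 :=
  (map_ne_zero_iff _ (sa p K u).injective).2 hx

theorem hom_ext {R : Type} [Field R] (f g : K →+* R) (h : f (zt p K : K) = g (zt p K : K)) :
    f = g := by
  have : CharZero R := charZero_of_injective_ringHom f.injective
  have hz : IsPrimitiveRoot (zt p K : K) p := zeta_spec p ℚ K
  let B := hz.powerBasis ℚ
  letI : Algebra ℚ R := DivisionRing.toRatAlgebra
  have e : f.toRatAlgHom = g.toRatAlgHom := by
    apply (hz.powerBasis ℚ).algHom_ext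
    rw [IsPrimitiveRoot.powerBasis_gen]
    exact h
  ext x
  exact DFunLike.congr_fun e x

theorem emb_conj (τ : K →+* ℂ) (x : 𝓞 K) :
    τ ((sa p K (-1) x : 𝓞 K) : K) = conj (τ (x : K)) := by
  have h : τ.comp ((gal p K (-1)).toRingEquiv : K →+* K) = (starRingEnd ℂ).comp τ := by
    apply hom_ext p K
    rw [RingHom.comp_apply, RingHom.comp_apply]
    change τ (gal p K (-1) (zt p K : K)) = conj (τ (zt p K : K))
    rw [gal_zeta, map_pow]
    have h1 : (τ (zt p K : K)) ^ p = 1 := by
      rw [← map_pow]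
      have := (zt_prim p K).pow_eq_one
      have h2 := congrArg (fun y : 𝓞 K => (y : K)) this
      have h3 : (zt p K : K) ^ p = 1 := by simpa using h2
      rw [h3, map_one]
    have h2 : τ (zt p K : K) * conj (τ (zt p K : K)) = 1 := by
      rw [Complex.mul_conj, Complex.normSq_eq_norm_sq,
        Complex.norm_eq_one_of_pow_eq_one h1 (Fact.out : p.Prime).ne_zero]
      simp
    have h3 : τ (zt p K : K) * τ (zt p K : K) ^ (((-1 : (ZMod p)ˣ) : ZMod p)).val = 1 := by
      rw [← pow_succ']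
      have h4 : p ∣ (((-1 : (ZMod p)ˣ) : ZMod p)).val + 1 := by
        rw [← ZMod.natCast_eq_zero_iff]
        push_cast
        rw [ZMod.natCast_zmod_val]
        simp
      obtain ⟨k, hk⟩ := h4
      rw [hk, pow_mul, h1, one_pow]
    have h0 : τ (zt p K : K) ≠ 0 := left_ne_zero_of_mul_eq_one h2
    exact mul_left_cancel₀ h0 (h3.trans h2.symm)
  exact DFunLike.congr_fun h (x : K)

theorem norm_sq (τ : K →+* ℂ) (x : 𝓞 K) :
    τ ((x * sa p K (-1) x : 𝓞 K) : K) = ((‖τ (x : K)‖ ^ 2 : ℝ) : ℂ) := by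
  rw [show ((x * sa p K (-1) x : 𝓞 K) : K) = (x : K) * ((sa p K (-1) x : 𝓞 K) : K) by simp,
    map_mul, emb_conj, Complex.mul_conj, Complex.normSq_eq_norm_sq]

/-- the absolute norm as a product over the Galois group -/
theorem norm_prod (x : 𝓞 K) : ((Algebra.norm ℤ x : ℤ) : 𝓞 K) = ∏ u : (ZMod p)ˣ, sa p K u x := by
  have : IsGalois ℚ K := IsCyclotomicExtension.isGalois {p} ℚ K
  apply RingOfIntegers.ext
  have h1 := Algebra.norm_eq_prod_automorphisms ℚ (x : K)
  rw [← Algebra.coe_norm_int] at h1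
  have h2 : (algebraMap ℚ K) ((Algebra.norm ℤ x : ℤ) : ℚ) =
      (((Algebra.norm ℤ x : ℤ) : 𝓞 K) : K) := by
    rw [map_intCast]
    exact (map_intCast (algebraMap (𝓞 K) K) _).symm
  rw [← h2, h1]
  change _ = algebraMap (𝓞 K) K (∏ u : (ZMod p)ˣ, sa p K u x)
  rw [map_prod]
  exact (Fintype.prod_equiv ((IsCyclotomicExtension.Rat.galEquivZMod p K).symm.toEquiv) _ _
    fun u => rfl).symm

end Pool.Agent.NH35.HC
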