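import Pool.Agent.NH35.HC.All
import Pool.Agent.W540.BE.Core

/-! The Euler product and the mean value of a nontrivial character over the primes. -/

set_option autoImplicit false
set_option linter.unusedSectionVars false
open Filter Topology NumberField NumberField.InfinitePlace NumberField.Units IsDedekindDomain
open Module nonZeroDivisors Ideal
open Pool.Agent.H484R2

namespace Pool.Agent.NH35.HC

variable {K : Type} [Field K] [NumberField K]

section euler
variable (F : Ideal (𝓞 K) → ℂ)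

open Classical in
/-- the sum over the ideals prime to `S` -/
noncomputable def AS (S : Finset (HeightOneSpectrum (𝓞 K))) : ℂ :=
  ∑' I : NZI K, if ∀ v ∈ S, ¬ v.asIdeal ∣ I.1 then F I.1 else 0

theorem sum_AS {F : Ideal (𝓞 K) → ℂ} (hs : Summable fun I : NZI K => ‖F I.1‖)
    (P : NZI K → Prop) [DecidablePred P] : Summable fun I : NZI K => if P I then F I.1 else 0 := by
  refine Summable.of_norm_bounded hs fun I => ?_
  split_ifs
  · exact le_rfl
  · rw [norm_zero]
    exact norm_nonneg _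

theorem AS_step {F : Ideal (𝓞 K) → ℂ} (hs : Summable fun I : NZI K => ‖F I.1‖)
    (hm : ∀ I I', F (I * I') = F I * F I') (S : Finset (HeightOneSpectrum (𝓞 K)))
    (v : HeightOneSpectrum (𝓞 K)) (hv : v ∉ S) [DecidableEq (HeightOneSpectrum (𝓞 K))] :
    AS F (insert v S) = AS F S * (1 - F v.asIdeal) := by
  classical
  have hv0 : v.asIdeal ≠ 0 := v.ne_bot
  let φ : NZI K → NZI K := fun J => ⟨v.asIdeal * J.1, mul_ne_zero hv0 J.2⟩
  have hφ : Function.Injective φ := by
    intro J J' h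
    have h1 : v.asIdeal * J.1 = v.asIdeal * J'.1 := congrArg Subtype.val h
    exact Subtype.ext (mul_left_cancel₀ hv0 h1)
  have h1 : AS F S - AS F (insert v S) = ∑' I : NZI K,
      if (∀ w ∈ S, ¬ w.asIdeal ∣ I.1) ∧ v.asIdeal ∣ I.1 then F I.1 else 0 := by
    unfold AS
    rw [← Summable.tsum_sub (sum_AS hs _) (sum_AS hs _)]
    refine tsum_congr fun I => ?_
    by_cases hS : ∀ w ∈ S, ¬ w.asIdeal ∣ I.1
    · by_cases hI : v.asIdeal ∣ I.1
      · have h3 : ¬ ∀ w ∈ insert v S, ¬ w.asIdeal ∣ I.1 := fun h =>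
          h v (Finset.mem_insert_self _ _) hI
        rw [if_pos hS, if_pos (And.intro hS hI), if_neg h3, sub_zero]
      · have h3 : ∀ w ∈ insert v S, ¬ w.asIdeal ∣ I.1 := by
          intro w hw
          rcases Finset.mem_insert.1 hw with rfl | hw
          · exact hI
          · exact hS w hw
        have h4 : ¬ ((∀ w ∈ S, ¬ w.asIdeal ∣ I.1) ∧ v.asIdeal ∣ I.1) := fun h => hI h.2
        rw [if_pos hS, if_neg h4, if_pos h3, sub_self]
    · have h3 : ¬ ∀ w ∈ insert v S, ¬ w.asIdeal ∣ I.1 := fun h =>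
        hS fun w hw => h w (Finset.mem_insert_of_mem hw)
      have h4 : ¬ ((∀ w ∈ S, ¬ w.asIdeal ∣ I.1) ∧ v.asIdeal ∣ I.1) := fun h => hS h.1
      rw [if_neg hS, if_neg h4, if_neg h3, sub_self]
  have h2 : (∑' I : NZI K,
      if (∀ w ∈ S, ¬ w.asIdeal ∣ I.1) ∧ v.asIdeal ∣ I.1 then F I.1 else 0) =
      F v.asIdeal * AS F S := by
    rw [← hφ.tsum_eq]
    · unfold AS
      rw [← tsum_mul_left]
      refine tsum_congr fun J => ?_
      have e1 : (φ J).1 = v.asIdeal * J.1 := rfl
      rw [e1, hm]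
      by_cases hS : ∀ w ∈ S, ¬ w.asIdeal ∣ J.1
      · rw [if_pos hS, if_pos]
        refine ⟨fun w hw h => ?_, dvd_mul_right _ _⟩
        rcases w.prime.dvd_or_dvd h with h | h
        · have h3 : w.asIdeal = v.asIdeal := by
            have := v.isMaximal
            exact ((v.isMaximal.eq_of_le w.isPrime.ne_top (dvd_iff_le.1 h))).symm
          exact hv (HeightOneSpectrum.ext h3 ▸ hw)
        · exact hS w hw h
      · rw [if_neg hS, if_neg, mul_zero]
        intro h
        exact hS fun w hw h' => h.1 w hw (h'.mul_left _)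
    · intro I hI
      rw [Function.mem_support] at hI
      by_cases h : (∀ w ∈ S, ¬ w.asIdeal ∣ I.1) ∧ v.asIdeal ∣ I.1
      · obtain ⟨J, hJ⟩ := h.2
        have hJ0 : J ≠ ⊥ := by
          rintro rfl
          exact I.2 (by rw [hJ]; exact mul_zero _)
        exact ⟨⟨J, hJ0⟩, Subtype.ext hJ.symm⟩
      · exact absurd (if_neg h) hI
  linear_combination -h1 - h2

theorem AS_prod {F : Ideal (𝓞 K) → ℂ} (hs : Summable fun I : NZI K => ‖F I.1‖)
    (hm : ∀ I I', F (I * I') = F I * F I') (S : Finset (HeightOneSpectrum (𝓞 K))) :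
    AS F S = (∑' I : NZI K, F I.1) * ∏ v ∈ S, (1 - F v.asIdeal) := by
  classical
  induction S using Finset.induction_on with
  | empty =>
      unfold AS
      simp
  | insert v S hv ih =>
      rw [AS_step hs hm S v hv, ih, Finset.prod_insert hv]
      ring

theorem AS_tendsto {F : Ideal (𝓞 K) → ℂ} (hs : Summable fun I : NZI K => ‖F I.1‖)
    (h1 : F ⊤ = 1) : Tendsto (AS F) atTop (𝓝 1) := by
  classical
  have htop : (⊤ : Ideal (𝓞 K)) ≠ ⊥ := top_ne_bot
  have e1 : (1 : ℂ) = ∑' I : NZI K, if I = ⟨⊤, htop⟩ then (1 : ℂ) else 0 := by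
    rw [tsum_ite_eq]
  rw [e1]
  unfold AS
  refine tendsto_tsum_of_dominated_convergence hs (fun I => ?_)
    (Eventually.of_forall fun S I => ?_)
  · by_cases hI : I = ⟨⊤, htop⟩
    · rw [if_pos hI]
      refine tendsto_const_nhds.congr fun S => ?_
      rw [if_pos, hI, h1]
      intro v _ hv
      rw [hI] at hv
      exact v.isPrime.ne_top (top_le_iff.1 (dvd_iff_le.1 hv))
    · rw [if_neg hI]
      have hI' : I.1 ≠ ⊤ := fun h => hI (Subtype.ext h)
      obtain ⟨M, hM, hIM⟩ := Ideal.exists_le_maximal I.1 hI'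
      have hM0 : M ≠ ⊥ := by
        rintro rfl
        exact I.2 (le_bot_iff.1 hIM)
      let v : HeightOneSpectrum (𝓞 K) := ⟨M, hM.isPrime, hM0⟩
      refine tendsto_const_nhds.congr' ?_
      filter_upwards [eventually_ge_atTop ({v} : Finset (HeightOneSpectrum (𝓞 K)))] with S hS
      rw [if_neg]
      intro h
      exact h v (hS (Finset.mem_singleton_self _)) (dvd_iff_le.2 hIM)
  · split_ifs
    · exact le_rfl
    · rw [norm_zero]
      exact norm_nonneg _

/-- the Euler product in logarithmic form -/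
theorem euler_exp {F : Ideal (𝓞 K) → ℂ} (hs : Summable fun I : NZI K => ‖F I.1‖)
    (hm : ∀ I I', F (I * I') = F I * F I') (h1 : F ⊤ = 1) (G : HeightOneSpectrum (𝓞 K) → ℂ)
    (hG : ∀ v, Complex.exp (-G v) = 1 - F v.asIdeal) (hsum : Summable G) :
    ∑' I : NZI K, F I.1 = Complex.exp (∑' v, G v) := by
  have h2 := hsum.neg.hasSum.cexp
  rw [tsum_neg] at h2
  have h3 : Tendsto (fun S : Finset (HeightOneSpectrum (𝓞 K)) => ∏ v ∈ S, (1 - F v.asIdeal)) atTop
      (𝓝 (Complex.exp (-∑' v, G v))) := by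
    have h2' : Tendsto (fun S : Finset (HeightOneSpectrum (𝓞 K)) =>
        ∏ v ∈ S, (Complex.exp ∘ fun v => -G v) v) atTop (𝓝 (Complex.exp (-∑' v, G v))) := h2
    refine h2'.congr fun S => ?_
    exact Finset.prod_congr rfl fun v _ => hG v
  have h4 := (h3.const_mul (∑' I : NZI K, F I.1)).congr fun S => (AS_prod hs hm S).symm
  have h5 := tendsto_nhds_unique h4 (AS_tendsto hs h1)
  rw [Complex.exp_neg] at h5
  have h6 := Complex.exp_ne_zero (∑' v, G v)
  field_simp at h5
  exact h5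

end euler

variable {χ : Ideal (𝓞 K) → ℂ} {m : Ideal (𝓞 K)} {β : 𝓞 K}

theorem chi_top (h : Chr K χ m β) : χ ⊤ = 1 := by
  have h1 : χ (span {β}) ≠ 0 := by
    rw [← norm_pos_iff, h.one]
    exact one_pos
  have h2 := h.mul (span {β}) ⊤
  rw [Ideal.mul_top] at h2
  have h3 : χ (span {β}) * 1 = χ (span {β}) * χ ⊤ := by rw [mul_one]; exact h2
  exact (mul_left_cancel₀ h1 h3).symm

/-- **The mean value of a nontrivial character over the primes is at most zero.** -/
theorem prime_bound (h : Chr K χ m β) : ∃ C : ℝ, ∀ ε : ℝ, 0 < ε → ε ≤ 1 →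
    W540.BE.EP (W540.BE.nm K) ε (fun v => (χ v.asIdeal).re) ≤ C := by
  classical
  obtain ⟨B, hB⟩ := L_bounded h
  refine ⟨Real.log B + |1| * ∑' v, (W540.BE.nm K v : ℝ) ^ (-2 : ℝ), fun ε hε hε1 => ?_⟩
  have hN := W540.BE.normSys (F := K)
  set F : Ideal (𝓞 K) → ℂ := fun I => χ I * (((absNorm I : ℝ) ^ (-(1 + ε)) : ℝ) : ℂ) with hF
  set G : HeightOneSpectrum (𝓞 K) → ℂ := fun v => -Complex.log (1 - F v.asIdeal) with hG
  have hFs : Summable fun I : NZI K => ‖F I.1‖ := summable_chi h.bd (by linarith)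
  have hFm : ∀ I I', F (I * I') = F I * F I' := by
    intro I I'
    simp only [hF]
    rw [h.mul, map_mul]
    push_cast
    rw [Real.mul_rpow (by positivity) (by positivity)]
    push_cast
    ring
  have hF1 : F ⊤ = 1 := by
    simp only [hF]
    rw [chi_top h, Ideal.absNorm_top]
    simp
  have hFv : ∀ v : HeightOneSpectrum (𝓞 K), F v.asIdeal =
      χ v.asIdeal * ((W540.BE.nm K v : ℝ) ^ (-(1 + ε)) : ℝ) := fun v => rfl
  have hn : ∀ v : HeightOneSpectrum (𝓞 K), ‖F v.asIdeal‖ ≤ (W540.BE.nm K v : ℝ) ^ (-(1 : ℝ)) := by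
    intro v
    have h2 := hN.two_le v
    have h2' : (2 : ℝ) ≤ W540.BE.nm K v := by exact_mod_cast h2
    rw [hFv, norm_mul, Complex.norm_real, Real.norm_of_nonneg (by positivity)]
    calc ‖χ v.asIdeal‖ * (W540.BE.nm K v : ℝ) ^ (-(1 + ε))
        ≤ 1 * (W540.BE.nm K v : ℝ) ^ (-(1 + ε)) :=
          mul_le_mul_of_nonneg_right (h.bd _) (by positivity)
      _ ≤ _ := by
          rw [one_mul]
          exact Real.rpow_le_rpow_of_exponent_le (by linarith) (by linarith)
  have hn2 : ∀ v : HeightOneSpectrum (𝓞 K), ‖F v.asIdeal‖ ≤ 1 / 2 := by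
    intro v
    have h2 := hN.two_le v
    have h2' : (2 : ℝ) ≤ W540.BE.nm K v := by exact_mod_cast h2
    refine (hn v).trans ?_
    rw [Real.rpow_neg_one, one_div]
    exact inv_anti₀ (by norm_num) h2'
  have hGb : ∀ v : HeightOneSpectrum (𝓞 K), True →
      ‖G v - χ v.asIdeal * ((W540.BE.nm K v : ℝ) ^ (-(1 + ε)) : ℝ)‖ ≤
        1 * (W540.BE.nm K v : ℝ) ^ (-2 : ℝ) := by
    intro v _
    rw [← hFv, hG]
    refine (H341R2.norm_neg_log_sub_le (hn2 v)).trans ?_
    rw [one_mul]
    calc ‖F v.asIdeal‖ ^ 2 ≤ ((W540.BE.nm K v : ℝ) ^ (-(1 : ℝ))) ^ 2 :=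
          pow_le_pow_left₀ (norm_nonneg _) (hn v) 2
      _ = _ := by
          rw [← Real.rpow_natCast, ← Real.rpow_mul (by positivity)]
          norm_num
  obtain ⟨hsum, hbd⟩ := W540.BE.summable_and_boundP hN (Good := fun _ => True) hε G
    (fun v => χ v.asIdeal) (K := 1) (fun v => h.bd _) (fun v hv => absurd trivial hv) hGb
  simp only [if_true] at hsum hbd
  have hGe : ∀ v : HeightOneSpectrum (𝓞 K), Complex.exp (-G v) = 1 - F v.asIdeal := by
    intro v
    rw [hG]
    simp only [neg_neg]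
    refine Complex.exp_log ?_
    intro h0
    have h3 : ‖F v.asIdeal‖ = 1 := by
      have : F v.asIdeal = 1 := by linear_combination -h0
      rw [this, norm_one]
    have := hn2 v
    rw [h3] at this
    norm_num at this
  have h5 := euler_exp hFs hFm hF1 G hGe hsum
  have h6 := hB (1 + ε) (by linarith) (by linarith)
  have h7 : ‖Complex.exp (∑' v, G v)‖ ≤ B := by
    rw [← h5]
    exact h6
  rw [Complex.norm_exp] at h7
  have h8 : (∑' v, G v).re ≤ Real.log B := by
    rw [← Real.log_exp (∑' v, G v).re]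
    exact Real.log_le_log (Real.exp_pos _) h7
  have h9 := (abs_le.1 hbd).1
  linarith

end Pool.Agent.NH35.HC
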