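import Pool.Agent.NH35.HC.Rel

/-! The Hecke character of the Jacobi sums, extended to all ideals. -/

set_option autoImplicit false
set_option linter.unusedSectionVars false
open NumberField NumberField.InfinitePlace IsDedekindDomain
open Module nonZeroDivisors Ideal IsCyclotomicExtension
open scoped ComplexConjugate

namespace Pool.Agent.NH35.HC

/-- `z / |z|` as an element of the circle -/
noncomputable def czz (z : ℂ) (h : z ≠ 0) : Circle where
  val := z / ‖z‖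
  property := mem_sphere_zero_iff_norm.2 <| by
    rw [norm_div, Complex.norm_real, norm_norm, div_self (norm_ne_zero_iff.2 h)]

open Classical in
/-- `z / |z|` as an element of the circle, `1` for `z = 0` -/
noncomputable def cz (z : ℂ) : Circle := if h : z ≠ 0 then czz z h else 1

theorem coe_cz {z : ℂ} (h : z ≠ 0) : (cz z : ℂ) = z / ‖z‖ := by
  have e : cz z = czz z h := dif_pos h
  rw [e]
  rfl

theorem cz_mul {z w : ℂ} (hz : z ≠ 0) (hw : w ≠ 0) : cz (z * w) = cz z * cz w := by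
  apply Circle.ext
  rw [Circle.coe_mul, coe_cz hz, coe_cz hw, coe_cz (mul_ne_zero hz hw), norm_mul]
  push_cast
  rw [mul_div_mul_comm]

theorem cz_one : cz 1 = 1 := by
  apply Circle.ext
  rw [coe_cz one_ne_zero]
  simp

theorem cz_lip {z w : ℂ} (hz : z ≠ 0) (hw : w ≠ 0) {δ : ℝ} (h : ‖w - z‖ ≤ δ * ‖z‖) :
    ‖(cz w : ℂ) - cz z‖ ≤ 2 * δ := by
  have hz' : 0 < ‖z‖ := norm_pos_iff.2 hz
  have hw' : 0 < ‖w‖ := norm_pos_iff.2 hw
  have hzc : ((‖z‖ : ℝ) : ℂ) ≠ 0 := by exact_mod_cast hz'.ne'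
  have hwc : ((‖w‖ : ℝ) : ℂ) ≠ 0 := by exact_mod_cast hw'.ne'
  rw [coe_cz hw, coe_cz hz]
  have e1 : w / ‖w‖ - z / ‖z‖ = (w - z) / ‖z‖ + (w / ‖w‖) * ((‖z‖ - ‖w‖) / ‖z‖ : ℝ) := by
    push_cast
    field_simp
    ring
  rw [e1]
  refine (norm_add_le _ _).trans ?_
  have e2 : ‖(w - z) / (‖z‖ : ℂ)‖ ≤ δ := by
    rw [norm_div, Complex.norm_real, norm_norm, div_le_iff₀ hz']
    exact h
  have e3 : ‖(w / (‖w‖ : ℂ)) * (((‖z‖ - ‖w‖) / ‖z‖ : ℝ) : ℂ)‖ ≤ δ := by
    rw [norm_mul, norm_div, Complex.norm_real, norm_norm, div_self hw'.ne', one_mul,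
      Complex.norm_real, norm_div, norm_norm, div_le_iff₀ hz', Real.norm_eq_abs, abs_sub_comm]
    exact (abs_norm_sub_norm_le _ _).trans h
  linarith

variable (p : ℕ) [Fact p.Prime] (K : Type) [Field K] [NumberField K]
  [IsCyclotomicExtension {p} ℚ K]

theorem prod_lip {ι : Type} (S : Finset ι) (a b : ι → Circle) {δ : ℝ}
    (h : ∀ i ∈ S, ‖(a i : ℂ) - b i‖ ≤ δ) :
    ‖((∏ i ∈ S, a i : Circle) : ℂ) - (∏ i ∈ S, b i : Circle)‖ ≤ S.card * δ := by
  classical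
  induction S using Finset.induction_on with
  | empty => simp
  | insert i S hi ih =>
      rw [Finset.prod_insert hi, Finset.prod_insert hi, Finset.card_insert_of_notMem hi]
      have h1 := ih fun j hj => h j (Finset.mem_insert_of_mem hj)
      have h2 := h i (Finset.mem_insert_self _ _)
      have e1 : ((a i * ∏ j ∈ S, a j : Circle) : ℂ) - (b i * ∏ j ∈ S, b j : Circle) =
          ((a i : ℂ) - b i) * (∏ j ∈ S, a j : Circle) +
            (b i : ℂ) * (((∏ j ∈ S, a j : Circle) : ℂ) - (∏ j ∈ S, b j : Circle)) := by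
        rw [Circle.coe_mul, Circle.coe_mul]
        ring
      rw [e1]
      refine (norm_add_le _ _).trans ?_
      rw [norm_mul, norm_mul, Circle.norm_coe, Circle.norm_coe, mul_one, one_mul]
      push_cast
      linarith

/-- the type at infinity -/
noncomputable def chinf (τ : K →+* ℂ) (x : 𝓞 K) : Circle := cz (τ ((xph p K x : 𝓞 K) : K))

variable {p K}

theorem emb_ne (τ : K →+* ℂ) {x : 𝓞 K} (hx : x ≠ 0) : τ (x : K) ≠ 0 :=
  (map_ne_zero τ).2 (RingOfIntegers.coe_ne_zero_iff.mpr hx)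

theorem chinf_mul (τ : K →+* ℂ) {x y : 𝓞 K} (hx : x ≠ 0) (hy : y ≠ 0) :
    chinf p K τ (x * y) = chinf p K τ x * chinf p K τ y := by
  unfold chinf
  rw [xph_mul, ← cz_mul (emb_ne τ (xph_ne p K hx)) (emb_ne τ (xph_ne p K hy)), ← map_mul]
  rfl

theorem chinf_prod (τ : K →+* ℂ) {x : 𝓞 K} (hx : x ≠ 0) :
    chinf p K τ x = ∏ t ∈ Ph p, cz (τ (sa p K t⁻¹ x : K)) := by
  have key : ∀ S : Finset (ZMod p)ˣ, cz (τ ((∏ t ∈ S, sa p K t⁻¹ x : 𝓞 K) : K)) =
      ∏ t ∈ S, cz (τ (sa p K t⁻¹ x : K)) := by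
    classical
    intro S
    induction S using Finset.induction_on with
    | empty =>
        rw [Finset.prod_empty, Finset.prod_empty]
        have : ((1 : 𝓞 K) : K) = 1 := map_one (algebraMap (𝓞 K) K)
        rw [this, map_one, cz_one]
    | insert t S ht ih =>
        rw [Finset.prod_insert ht, Finset.prod_insert ht, ← ih]
        have e : ((sa p K t⁻¹ x * ∏ t ∈ S, sa p K t⁻¹ x : 𝓞 K) : K) =
            (sa p K t⁻¹ x : K) * ((∏ t ∈ S, sa p K t⁻¹ x : 𝓞 K) : K) :=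
          map_mul (algebraMap (𝓞 K) K) _ _
        rw [e, map_mul, cz_mul (emb_ne τ (sa_ne p K hx))
          (emb_ne τ (Finset.prod_ne_zero_iff.2 fun _ _ => sa_ne p K hx))]
  exact key _

theorem chinf_lip (τ : K →+* ℂ) : ∃ L : ℝ, 0 ≤ L ∧ ∀ x x' : 𝓞 K, x ≠ 0 → x' ≠ 0 → ∀ δ : ℝ, 0 ≤ δ →
    (∀ w : InfinitePlace K, w ((x' : K) - (x : K)) ≤ δ * w (x : K)) →
    ‖(chinf p K τ x' : ℂ) - chinf p K τ x‖ ≤ L * δ := by
  refine ⟨(Ph p).card * 2, by positivity, fun x x' hx hx' δ hδ hw => ?_⟩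
  rw [chinf_prod τ hx, chinf_prod τ hx', mul_assoc]
  refine prod_lip _ _ _ fun t _ => cz_lip (emb_ne τ (sa_ne p K hx)) (emb_ne τ (sa_ne p K hx')) ?_
  have h1 := hw (InfinitePlace.mk (τ.comp ((gal p K t⁻¹).toRingEquiv : K →+* K)))
  rw [InfinitePlace.apply, InfinitePlace.apply, map_sub] at h1
  exact h1

/-- the ideal as a unit of the group of fractional ideals -/
noncomputable def ui (I : Ideal (𝓞 K)) (h : I ≠ ⊥) : (FractionalIdeal (𝓞 K)⁰ K)ˣ :=
  Units.mk0 (I : FractionalIdeal (𝓞 K)⁰ K) (FractionalIdeal.coeIdeal_ne_zero.2 h)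

theorem ui_mul {I I' : Ideal (𝓞 K)} (h : I ≠ ⊥) (h' : I' ≠ ⊥) (h2 : I * I' ≠ ⊥) :
    ui (I * I') h2 = ui I h * ui I' h' := by
  apply Units.ext
  unfold ui
  rw [Units.val_mul, Units.val_mk0, Units.val_mk0, Units.val_mk0, FractionalIdeal.coeIdeal_mul]

theorem exists_psi (hp : p ≠ 2) (τ : K →+* ℂ) : ∃ ψ : (FractionalIdeal (𝓞 K)⁰ K)ˣ →* Circle,
    ∀ (I : Ideal (𝓞 K)) (h : I ≠ ⊥) (x : 𝓞 K), Rel p K I x → ψ (ui I h) = cz (τ (x : K)) := by
  classical
  let P : Submonoid (FractionalIdeal (𝓞 K)⁰ K)ˣ :=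
    { carrier := {g | ∃ (I : Ideal (𝓞 K)) (h : I ≠ ⊥) (x : 𝓞 K), g = ui I h ∧ Rel p K I x}
      mul_mem' := by
        rintro g g' ⟨I, h, x, rfl, hx⟩ ⟨I', h', x', rfl, hx'⟩
        exact ⟨I * I', mul_ne_zero h h', x * x', (ui_mul h h' _).symm, hx.mul hx'⟩
      one_mem' := by
        refine ⟨⊤, top_ne_bot, 1, ?_, Rel.top⟩
        apply Units.ext
        unfold ui
        rw [Units.val_mk0, Units.val_one, FractionalIdeal.coeIdeal_top] }
  have hP : ∀ g : P, ∃ (I : Ideal (𝓞 K)) (h : I ≠ ⊥) (x : 𝓞 K), (g : _) = ui I h ∧ Rel p K I x :=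
    fun g => g.2
  choose I hI x hg hx using hP
  have huniq : ∀ (g : P) (I' : Ideal (𝓞 K)) (h' : I' ≠ ⊥) (x' : 𝓞 K),
      (g : (FractionalIdeal (𝓞 K)⁰ K)ˣ) = ui I' h' → Rel p K I' x' → x' = x g := by
    intro g I' h' x' h1 h2
    have h3 := congrArg Units.val (h1.symm.trans (hg g))
    unfold ui at h3
    rw [Units.val_mk0, Units.val_mk0, FractionalIdeal.coeIdeal_inj] at h3
    subst h3
    exact Rel.unique hp h' h2 (hx g)
  let g : P →* Circle :=
    { toFun := fun y => cz (τ (x y : K))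
      map_one' := by
        have h1 : (1 : 𝓞 K) = x 1 := by
          refine huniq 1 ⊤ top_ne_bot 1 ?_ Rel.top
          apply Units.ext
          unfold ui
          rw [Units.val_mk0, FractionalIdeal.coeIdeal_top]
          rfl
        rw [← h1]
        have : ((1 : 𝓞 K) : K) = 1 := map_one (algebraMap (𝓞 K) K)
        rw [this, map_one, cz_one]
      map_mul' := by
        intro y z
        have h1 : x y * x z = x (y * z) := by
          refine huniq (y * z) (I y * I z) (mul_ne_zero (hI y) (hI z)) _ ?_ ((hx y).mul (hx z))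
          rw [ui_mul (hI y) (hI z), ← hg y, ← hg z]
          rfl
        rw [← h1, ← cz_mul (emb_ne τ ((hx y).ne (hI y))) (emb_ne τ ((hx z).ne (hI z))), ← map_mul]
        rfl }
  obtain ⟨ψ, hψ⟩ := exists_ext_monoid P g
  refine ⟨ψ, fun I' h' x' hx' => ?_⟩
  have hmem : ui I' h' ∈ P := ⟨I', h', x', rfl, hx'⟩
  have h1 := hψ ⟨ui I' h', hmem⟩
  have h2 := huniq ⟨ui I' h', hmem⟩ I' h' x' rfl hx'
  rw [h1, h2]
  rfl

theorem coprime_ne (I : Ideal (𝓞 K)) (h : IsCoprime I (span {((p : ℕ) : 𝓞 K)})) : I ≠ ⊥ := by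
  rintro rfl
  rw [Ideal.isCoprime_iff_sup_eq, bot_sup_eq] at h
  have h1 : zt p K - 1 ∣ ((p : ℕ) : 𝓞 K) := by
    by_cases hp : p = 2
    · obtain ⟨z, -, hz⟩ := (zt_prim p K).self_sub_one_pow_dvd_order (k := 1)
        (Fact.out : p.Prime).one_lt
      exact ⟨z, by rw [hz]; ring⟩
    · exact (dvd_pow_self _ two_ne_zero).trans (dvd_p p K hp)
  have h2 : IsUnit ((p : ℕ) : 𝓞 K) := Ideal.span_singleton_eq_top.1 h
  exact (zt_prime p K).not_isUnit (isUnit_of_dvd_unit h1 h2)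

/-- **The Hecke character.** -/
theorem exists_hecke (hp : p ≠ 2) (τ : K →+* ℂ) : ∃ χ : Ideal (𝓞 K) → ℂ,
    Hk χ (span {((p : ℕ) : 𝓞 K)}) (fun x => (chinf p K τ x : ℂ)) ∧
    ∀ (I : Ideal (𝓞 K)) (x : 𝓞 K), IsCoprime I (span {((p : ℕ) : 𝓞 K)}) → Rel p K I x →
      χ I = (cz (τ (x : K)) : ℂ) := by
  classical
  obtain ⟨ψ, hψ⟩ := exists_psi (p := p) (K := K) hp τ
  have hp0 : ((p : ℕ) : 𝓞 K) ≠ 0 := Nat.cast_ne_zero.2 (Fact.out : p.Prime).ne_zero
  set m : Ideal (𝓞 K) := span {((p : ℕ) : 𝓞 K)} with hm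
  let χ : Ideal (𝓞 K) → ℂ := fun I =>
    if h : IsCoprime I m then (ψ (ui I (coprime_ne I h)) : ℂ) else 0
  have hχ : ∀ I (h : IsCoprime I m), χ I = (ψ (ui I (coprime_ne I h)) : ℂ) := fun I h => dif_pos h
  refine ⟨χ, ⟨?_, fun I hI => dif_neg hI, fun I hI => ?_, fun I I' => ?_, fun α h0 h1 => ?_,
    fun x y hx hy => ?_, fun x _ => Circle.norm_coe _, chinf_lip τ⟩, fun I x hI hx => ?_⟩
  · rw [hm, Ne, Ideal.span_singleton_eq_bot]
    exact hp0
  · rw [hχ I hI, Circle.norm_coe]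
  · by_cases h : IsCoprime (I * I') m
    · have h1 := IsCoprime.mul_left_iff.1 h
      rw [hχ _ h, hχ _ h1.1, hχ _ h1.2, ui_mul (coprime_ne I h1.1) (coprime_ne I' h1.2), map_mul,
        Circle.coe_mul]
    · rw [show χ (I * I') = 0 from dif_neg h]
      have h1 : ¬ IsCoprime I m ∨ ¬ IsCoprime I' m := by
        by_contra h2
        push Not at h2
        exact h (IsCoprime.mul_left_iff.2 h2)
      rcases h1 with h1 | h1
      · rw [show χ I = 0 from dif_neg h1, zero_mul]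
      · rw [show χ I' = 0 from dif_neg h1, mul_zero]
  · have h2 : IsCoprime (span {α}) m := coprime_span h1
    rw [hχ _ h2, hψ _ _ _ (Rel.prin hp h1)]
    rfl
  · rw [chinf_mul τ hx hy, Circle.coe_mul]
  · rw [hχ _ hI, hψ _ _ _ hx]

end Pool.Agent.NH35.HC
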