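import Pool.Agent.NH35.HC.Euler

/-! Hecke characters, given by their values on ideals and their type at infinity. -/

set_option autoImplicit false
set_option linter.unusedSectionVars false
open Filter Topology NumberField NumberField.InfinitePlace IsDedekindDomain
open Module nonZeroDivisors Ideal
open scoped ComplexConjugate

namespace Pool.Agent.NH35.HC

section gen
variable {K : Type} [Field K] [NumberField K]

/-- `χ` is a Hecke character modulo `m` of type `χi` at infinity -/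
structure Hk (χ : Ideal (𝓞 K) → ℂ) (m : Ideal (𝓞 K)) (χi : 𝓞 K → ℂ) : Prop where
  m0 : m ≠ ⊥
  zero : ∀ I, ¬ IsCoprime I m → χ I = 0
  one : ∀ I, IsCoprime I m → ‖χ I‖ = 1
  mul : ∀ I I', χ (I * I') = χ I * χ I'
  prin : ∀ α : 𝓞 K, α ≠ 0 → α - 1 ∈ m → χ (span {α}) = χi α
  imul : ∀ x y, x ≠ 0 → y ≠ 0 → χi (x * y) = χi x * χi y
  ione : ∀ x, x ≠ 0 → ‖χi x‖ = 1
  lip : ∃ L : ℝ, 0 ≤ L ∧ ∀ x x' : 𝓞 K, x ≠ 0 → x' ≠ 0 → ∀ δ : ℝ, 0 ≤ δ →
    (∀ w : InfinitePlace K, w ((x' : K) - (x : K)) ≤ δ * w (x : K)) → ‖χi x' - χi x‖ ≤ L * δ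

variable {χ : Ideal (𝓞 K) → ℂ} {m : Ideal (𝓞 K)} {χi : 𝓞 K → ℂ}

theorem coprime_span {y : 𝓞 K} (hy : y - 1 ∈ m) : IsCoprime (span {y}) m := by
  rw [Ideal.isCoprime_iff_exists]
  exact ⟨y, Ideal.mem_span_singleton_self y, -(y - 1), m.neg_mem hy, by ring⟩

theorem coprime_of {J I I' : Ideal (𝓞 K)} {x x' : 𝓞 K} (hJ : J ≠ ⊥) (h1 : I * J = span {x})
    (h2 : I' * J = span {x'}) (h3 : x' - x ∈ m * J) (hI : IsCoprime I m) : IsCoprime I' m := by
  have e1 : span {x} ⊔ m * J = J := by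
    rw [← h1, ← Ideal.sup_mul]
    rw [Ideal.isCoprime_iff_sup_eq] at hI
    rw [hI, Ideal.top_mul]
  have e2 : span {x'} ⊔ m * J = span {x} ⊔ m * J := by
    apply le_antisymm
    · refine sup_le ?_ le_sup_right
      rw [Ideal.span_singleton_le_iff_mem]
      have : x' = x + (x' - x) := by ring
      rw [this]
      exact Ideal.add_mem _ (Ideal.mem_sup_left (Ideal.mem_span_singleton_self x))
        (Ideal.mem_sup_right h3)
    · refine sup_le ?_ le_sup_right
      rw [Ideal.span_singleton_le_iff_mem]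
      have : x = x' + -(x' - x) := by ring
      rw [this]
      exact Ideal.add_mem _ (Ideal.mem_sup_left (Ideal.mem_span_singleton_self x'))
        (Ideal.mem_sup_right ((m * J).neg_mem h3))
  rw [Ideal.isCoprime_iff_sup_eq]
  rw [e1, ← h2, ← Ideal.sup_mul] at e2
  have e3 : (I' ⊔ m) * J = ⊤ * J := by rw [e2, Ideal.top_mul]
  exact mul_right_cancel₀ (show J ≠ 0 from hJ) e3

/-- the Lipschitz property on ideals -/
theorem Hk.lip' (h : Hk χ m χi) : ∃ L : ℝ, 0 ≤ L ∧ ∀ J : Ideal (𝓞 K), ∀ I I' : Ideal (𝓞 K),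
    ∀ x x' : 𝓞 K, x ≠ 0 → x' ≠ 0 →
    J ≠ ⊥ → I * J = span {x} → I' * J = span {x'} → x' - x ∈ m * J →
    ∀ δ : ℝ, 0 ≤ δ → (∀ w : InfinitePlace K, w ((x' : K) - (x : K)) ≤ δ * w (x : K)) →
    ‖χ I' - χ I‖ ≤ L * δ := by
  obtain ⟨L, hL0, hL⟩ := h.lip
  refine ⟨L, hL0, fun J I I' x x' hx hx' hJ h1 h2 h3 δ hδ hw => ?_⟩
  by_cases hI : IsCoprime I m
  · have hI' := coprime_of hJ h1 h2 h3 hI
    have hI0 : I ≠ ⊥ := by
      rintro rfl
      rw [Ideal.bot_mul] at h1
      exact hx (Ideal.span_singleton_eq_bot.1 h1.symm)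
    obtain ⟨y, hy, hy0, hy1⟩ : ∃ y ∈ I, y ≠ 0 ∧ y - 1 ∈ m := by
      obtain ⟨a, ha, b, hb, hab⟩ := Ideal.isCoprime_iff_exists.1 hI
      by_cases ha0 : a = 0
      · -- then `m = ⊤`
        rw [ha0, zero_add] at hab
        have hm : m = ⊤ := (Ideal.eq_top_iff_one _).2 (hab ▸ hb)
        obtain ⟨z, hz, hz0⟩ := Submodule.exists_mem_ne_zero_of_ne_bot hI0
        exact ⟨z, hz, hz0, by rw [hm]; exact Submodule.mem_top⟩
      · refine ⟨a, ha, ha0, ?_⟩
        have : a - 1 = -b := by linear_combination hab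
        rw [this]
        exact m.neg_mem hb
    obtain ⟨b, hb⟩ : I ∣ span {y} := Ideal.dvd_span_singleton.2 hy
    -- `y (x' - x) ∈ x m`
    have h4 : y * (x' - x) ∈ span {x} * m := by
      rw [← h1]
      have h5 : y * (x' - x) ∈ I * (m * J) := Ideal.mul_mem_mul hy h3
      rwa [mul_left_comm, mul_comm m] at h5
    rw [Ideal.mem_span_singleton_mul] at h4
    obtain ⟨z, hz, hz'⟩ := h4
    set y' : 𝓞 K := y + z with hy'
    have h6 : y' * x = y * x' := by
      rw [hy']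
      linear_combination hz'
    have hy'0 : y' ≠ 0 := by
      intro h0
      rw [h0, zero_mul] at h6
      exact mul_ne_zero hy0 hx' h6.symm
    have hy'1 : y' - 1 ∈ m := by
      have : y' - 1 = (y - 1) + z := by rw [hy']; ring
      rw [this]
      exact m.add_mem hy1 hz
    have hb' : span {y'} = I' * b := by
      have e1 : span {y'} * (I * J) = (I' * b) * (I * J) := by
        rw [h1, Ideal.span_singleton_mul_span_singleton, h6,
          ← Ideal.span_singleton_mul_span_singleton, hb, ← h2, h1.symm]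
        ring
      refine mul_right_cancel₀ (mul_ne_zero hI0 hJ) e1
    have hbc : IsCoprime b m := by
      have h7 : IsCoprime (I * b) m := hb ▸ coprime_span hy1
      exact (IsCoprime.mul_left_iff.1 h7).2
    have e2 : χ I * χ b = χi y := by rw [← h.mul, ← hb, h.prin y hy0 hy1]
    have e3 : χ I' * χ b = χi y' := by rw [← h.mul, ← hb', h.prin y' hy'0 hy'1]
    have e4 : χi y' * χi x = χi y * χi x' := by
      rw [← h.imul _ _ hy'0 hx, ← h.imul _ _ hy0 hx', h6]
    have e5 : ‖χ I' - χ I‖ = ‖χi y' - χi y‖ := by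
      rw [← e2, ← e3, ← sub_mul, norm_mul, h.one b hbc, mul_one]
    have e6 : ‖χi y' - χi y‖ = ‖χi x' - χi x‖ := by
      have e7 : (χi y' - χi y) * χi x = χi y * (χi x' - χi x) := by
        rw [sub_mul, e4]
        ring
      have e8 := congrArg norm e7
      rwa [norm_mul, norm_mul, h.ione x hx, h.ione y hy0, mul_one, one_mul] at e8
    rw [e5, e6]
    exact hL x x' hx hx' δ hδ hw
  · have hI' : ¬ IsCoprime I' m := by
      intro h5
      refine hI (coprime_of hJ h2 h1 ?_ h5)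
      have : x - x' = -(x' - x) := by ring
      rw [this]
      exact (m * J).neg_mem h3
    rw [h.zero I hI, h.zero I' hI', sub_zero, norm_zero]
    positivity

theorem Hk.bd (h : Hk χ m χi) (I : Ideal (𝓞 K)) : ‖χ I‖ ≤ 1 := by
  by_cases hI : IsCoprime I m
  · exact (h.one I hI).le
  · rw [h.zero I hI, norm_zero]
    exact zero_le_one

theorem Hk.chr (h : Hk χ m χi) {β : 𝓞 K} (h0 : β ≠ 0) (h1 : β - 1 ∈ m) (h2 : χi β ≠ 1) :
    Chr K χ m β := by
  refine ⟨h.bd, h.mul, h0, h1, ?_, ?_, h.lip'⟩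
  · exact h.one _ (coprime_span h1)
  · rw [h.prin β h0 h1]
    exact h2

/-- the action of an automorphism on the integers -/
noncomputable def sg (σ : K ≃+* K) : 𝓞 K ≃+* 𝓞 K := RingOfIntegers.mapRingEquiv σ

theorem coe_sg (σ : K ≃+* K) (x : 𝓞 K) : ((sg σ x : 𝓞 K) : K) = σ (x : K) := rfl

theorem place_sg (σ : K ≃+* K) {x x' : 𝓞 K} {δ : ℝ}
    (hw : ∀ w : InfinitePlace K, w ((x' : K) - (x : K)) ≤ δ * w (x : K)) (w : InfinitePlace K) :
    w (((sg σ x' : 𝓞 K) : K) - ((sg σ x : 𝓞 K) : K)) ≤ δ * w ((sg σ x : 𝓞 K) : K) := by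
  rw [coe_sg, coe_sg, ← map_sub]
  exact hw (w.comap (σ : K →+* K))

theorem Hk.mulconj (h : Hk χ m χi) (σ : K ≃+* K) (hσ : m.map (sg σ) = m) :
    Hk (fun I => χ I * conj (χ (I.map (sg σ)))) m (fun x => χi x * conj (χi (sg σ x))) := by
  have hc : ∀ I : Ideal (𝓞 K), IsCoprime I m → IsCoprime (I.map (sg σ)) m := by
    intro I hI
    rw [Ideal.isCoprime_iff_sup_eq] at hI ⊢
    rw [← hσ, ← Ideal.map_sup, hI, Ideal.map_top]
  have hne : ∀ x : 𝓞 K, x ≠ 0 → sg σ x ≠ 0 := fun x hx => (map_ne_zero_iff _ (sg σ).injective).2 hx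
  refine ⟨h.m0, fun I hI => ?_, fun I hI => ?_, fun I I' => ?_, fun α h0 h1 => ?_,
    fun x y hx hy => ?_, fun x hx => ?_, ?_⟩
  · rw [h.zero I hI, zero_mul]
  · rw [norm_mul, Complex.norm_conj, h.one I hI, h.one _ (hc I hI), mul_one]
  · rw [h.mul, Ideal.map_mul, h.mul, map_mul]
    ring
  · rw [h.prin α h0 h1, Ideal.map_span, Set.image_singleton, h.prin _ (hne α h0)]
    have h2 := Ideal.mem_map_of_mem (sg σ) h1
    rw [hσ, map_sub, map_one] at h2
    exact h2
  · simp only [map_mul]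
    rw [h.imul x y hx hy, h.imul _ _ (hne x hx) (hne y hy), map_mul]
    ring
  · rw [norm_mul, Complex.norm_conj, h.ione x hx, h.ione _ (hne x hx), mul_one]
  · obtain ⟨L, hL0, hL⟩ := h.lip
    refine ⟨L + L, by positivity, fun x x' hx hx' δ hδ hw => ?_⟩
    have h1 := hL x x' hx hx' δ hδ hw
    have h2 := hL (sg σ x) (sg σ x') (hne x hx) (hne x' hx') δ hδ (place_sg σ hw)
    have e1 : χi x' * conj (χi (sg σ x')) - χi x * conj (χi (sg σ x)) =
        (χi x' - χi x) * conj (χi (sg σ x')) + χi x * conj (χi (sg σ x') - χi (sg σ x)) := by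
      rw [map_sub]
      ring
    rw [e1]
    refine (norm_add_le _ _).trans ?_
    rw [norm_mul, norm_mul, Complex.norm_conj, Complex.norm_conj, h.ione x hx,
      h.ione _ (hne x' hx'), mul_one, one_mul, add_mul]
    exact add_le_add h1 h2

end gen

end Pool.Agent.NH35.HC
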