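import Pool.Agent.NH35.HC.Size

/-! Bounds for the terms of the lattice sums. -/

set_option autoImplicit false
open Filter Topology NumberField NumberField.InfinitePlace NumberField.Units
open Module nonZeroDivisors Ideal
open Pool.Agent.H484R2

namespace Pool.Agent.NH35.HC

variable (K : Type) [Field K] [NumberField K]

open Classical in
/-- the terms of the lattice sums -/
noncomputable def ff (G : 𝓞 K → ℂ) (s : ℝ) (x : 𝓞 K) : ℂ :=
  if x = 0 then 0 else
    (psi K (x : K) : ℂ) * G x * ((Real.exp (-(s * lN K (x : K))) : ℝ) : ℂ)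

variable {K}

theorem ff_zero (G : 𝓞 K → ℂ) (s : ℝ) : ff K G s 0 = 0 := by simp [ff]

theorem ff_ne (G : 𝓞 K → ℂ) (s : ℝ) {x : 𝓞 K} (hx : x ≠ 0) : ff K G s x =
    (psi K (x : K) : ℂ) * G x * ((Real.exp (-(s * lN K (x : K))) : ℝ) : ℂ) := by
  simp [ff, hx]

theorem norm_ff {G : 𝓞 K → ℂ} (hG : ∀ x, ‖G x‖ ≤ 1) (s : ℝ) {x : 𝓞 K} (hx : x ≠ 0) :
    ‖ff K G s x‖ ≤ psi K (x : K) * Real.exp (-(s * lN K (x : K))) := by
  rw [ff_ne G s hx, norm_mul, norm_mul, Complex.norm_real, Complex.norm_real,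
    Real.norm_of_nonneg (psi_nonneg K _), Real.norm_of_nonneg (Real.exp_pos _).le]
  refine mul_le_mul_of_nonneg_right ?_ (Real.exp_pos _).le
  calc psi K (x : K) * ‖G x‖ ≤ psi K (x : K) * 1 :=
        mul_le_mul_of_nonneg_left (hG x) (psi_nonneg K _)
    _ = _ := mul_one _

theorem norm_ff_le_one {G : 𝓞 K → ℂ} (hG : ∀ x, ‖G x‖ ≤ 1) {s : ℝ} (hs : 0 ≤ s) (x : 𝓞 K) :
    ‖ff K G s x‖ ≤ 1 := by
  by_cases hx : x = 0
  · rw [hx, ff_zero, norm_zero]
    exact zero_le_one
  · refine (norm_ff hG s hx).trans ?_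
    have h1 : Real.exp (-(s * lN K (x : K))) ≤ 1 :=
      Real.exp_le_one_iff.mpr (by have := mul_nonneg hs (lN_nonneg K hx); linarith)
    calc _ ≤ (1 : ℝ) * 1 := mul_le_mul (psi_le_one K _) h1 (Real.exp_pos _).le zero_le_one
      _ = 1 := one_mul 1

variable (K)

theorem ff_bound : ∃ C : ℝ, 0 ≤ C ∧ ∀ (G : 𝓞 K → ℂ), (∀ x, ‖G x‖ ≤ 1) → ∀ s : ℝ, 0 ≤ s → s ≤ 2 →
    ∀ x : 𝓞 K, x ≠ 0 → ‖ff K G s x‖ ≤ C * hh K (x : K) ^ (-((finrank ℚ K : ℝ) * s)) := by
  obtain ⟨c, hc, hc1, h⟩ := supp_hh K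
  refine ⟨Real.exp (-(2 * finrank ℚ K * Real.log c)), (Real.exp_pos _).le,
    fun G hG s hs0 hs2 x hx => ?_⟩
  refine (norm_ff hG s hx).trans ?_
  have hx' : (x : K) ≠ 0 := RingOfIntegers.coe_ne_zero_iff.mpr hx
  by_cases hp : psi K (x : K) = 0
  · rw [hp, zero_mul]
    exact mul_nonneg (Real.exp_pos _).le (Real.rpow_nonneg (hh_nonneg _) _)
  · have hA := hh_pos hx'
    have h1 := lN_ge K (t := c * hh K (x : K)) (by positivity) (h _ hx' hp)
    have h2 := exp_bound hc hc1 hA (Nat.cast_nonneg _) hs0 hs2 h1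
    calc _ ≤ 1 * Real.exp (-(s * lN K (x : K))) :=
          mul_le_mul_of_nonneg_right (psi_le_one K _) (Real.exp_pos _).le
      _ ≤ _ := by rw [one_mul]; exact h2

theorem ff_lip (D L : ℝ) (hD : 0 ≤ D) (hL : 0 ≤ L) : ∃ C : ℝ, 0 ≤ C ∧ ∀ (G : 𝓞 K → ℂ),
    (∀ x, ‖G x‖ ≤ 1) → ∀ s : ℝ, 1 ≤ s → s ≤ 2 → ∀ x x' : 𝓞 K, x ≠ 0 → x' ≠ 0 →
    hh K ((x' : K) - (x : K)) ≤ D →
    (∀ δ : ℝ, 0 ≤ δ → (∀ w : InfinitePlace K, w ((x' : K) - (x : K)) ≤ δ * w (x : K)) →
      ‖G x' - G x‖ ≤ L * δ) →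
    ‖ff K G s x' - ff K G s x‖ ≤ C * hh K (x : K) ^ (-((finrank ℚ K : ℝ) + 1)) := by
  obtain ⟨c, hc, hc1, hsupp⟩ := supp_hh K
  obtain ⟨Cψ, hCψ, hlip⟩ := psi_lip K
  set n : ℝ := (finrank ℚ K : ℝ) with hn
  have hn1 : 1 ≤ n := by
    rw [hn]; exact_mod_cast (finrank_pos (R := ℚ) (M := K))
  set κ : ℝ := c / 4 with hκd
  have hκ : 0 < κ := by positivity
  have hκ1 : κ ≤ 1 := by rw [hκd]; linarith
  set R0 : ℝ := 1 + 4 * D / c + 2 * n * D / κ with hR0
  have hR01 : 1 ≤ R0 := by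
    have h1 : 0 ≤ 4 * D / c := by positivity
    have h2 : 0 ≤ 2 * n * D / κ := by positivity
    linarith
  set C1 : ℝ := 2 * R0 ^ (n + 1) with hC1
  set E0 : ℝ := Real.exp (-(2 * n * Real.log κ)) with hE0
  set C2 : ℝ := (Cψ + L + 4 * n) * (D / κ) * E0 with hC2
  have hC10 : 0 ≤ C1 := by positivity
  have hC20 : 0 ≤ C2 := by positivity
  refine ⟨C1 + C2, by positivity, fun G hG s hs1 hs2 x x' hx hx' hdist hGl => ?_⟩
  have hxK : (x : K) ≠ 0 := RingOfIntegers.coe_ne_zero_iff.mpr hx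
  have hxK' : (x' : K) ≠ 0 := RingOfIntegers.coe_ne_zero_iff.mpr hx'
  set h : ℝ := hh K (x : K) with hh0
  have hA1 : 1 ≤ h := one_le_hh hx
  have hA0 : 0 < h := by linarith
  have hs0 : 0 ≤ s := by linarith
  have hpow : 0 ≤ h ^ (-(n + 1)) := by positivity
  by_cases hsmall : h < R0
  · have h1 : ‖ff K G s x' - ff K G s x‖ ≤ 2 := by
      refine (norm_sub_le _ _).trans ?_
      have := norm_ff_le_one hG hs0 x
      have := norm_ff_le_one hG hs0 x'
      linarith
    have h2 : 1 ≤ R0 ^ (n + 1) * h ^ (-(n + 1)) := by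
      rw [Real.rpow_neg hA0.le, ← div_eq_mul_inv, one_le_div (by positivity)]
      exact Real.rpow_le_rpow hA0.le hsmall.le (by linarith)
    calc _ ≤ (2 : ℝ) := h1
      _ ≤ C1 * h ^ (-(n + 1)) := by rw [hC1]; nlinarith
      _ ≤ _ := mul_le_mul_of_nonneg_right (by linarith) hpow
  · push Not at hsmall
    by_cases hor : psi K (x : K) ≠ 0 ∨ psi K (x' : K) ≠ 0
    swap
    · push Not at hor
      rw [ff_ne G s hx, ff_ne G s hx', hor.1, hor.2]
      simp only [Complex.ofReal_zero, zero_mul, sub_zero, norm_zero]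
      positivity
    have hD1 : 4 * D ≤ c * h := by
      have h2 : 0 ≤ 2 * n * D / κ := by positivity
      have h1 : 4 * D / c ≤ h := by linarith
      rw [div_le_iff₀ hc] at h1
      linarith
    have hD2 : 2 * n * D ≤ κ * h := by
      have h2 : 0 ≤ 4 * D / c := by positivity
      have h1 : 2 * n * D / κ ≤ h := by linarith
      rw [div_le_iff₀ hκ] at h1
      linarith
    have hdw : ∀ w : InfinitePlace K, |w (x' : K) - w (x : K)| ≤ D := fun w =>
      (abs_place_sub w _ _).trans ((le_hh _ w).trans hdist)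
    have hbig : ∀ w : InfinitePlace K, κ * h ≤ w (x : K) ∧ κ * h ≤ w (x' : K) := by
      intro w
      have hd := abs_le.1 (hdw w)
      rcases hor with hp | hp
      · have h3 := hsupp _ hxK hp w
        rw [← hh0] at h3
        constructor
        · rw [hκd]; nlinarith
        · rw [hκd]; nlinarith [hd.1]
      · have h3 := hsupp _ hxK' hp w
        have h4 : h - D ≤ hh K (x' : K) := by
          have h5 := hh_add (x' : K) ((x : K) - (x' : K))
          rw [hh_sub_comm, add_sub_cancel] at h5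
          linarith
        have h6 : c * (h - D) ≤ w (x' : K) :=
          (mul_le_mul_of_nonneg_left h4 hc.le).trans h3
        have h7 : c * D ≤ D := by nlinarith
        constructor
        · rw [hκd]; nlinarith [hd.2]
        · rw [hκd]; nlinarith
    set δ : ℝ := D / (κ * h) with hδ
    have hκh : 0 < κ * h := by positivity
    have hδ0 : 0 ≤ δ := by positivity
    have hδ1 : 2 * n * δ ≤ 1 := by
      rw [hδ, ← mul_div_assoc, div_le_one hκh]
      exact hD2
    have hlog : ∀ w : InfinitePlace K, |Real.log (w (x' : K)) - Real.log (w (x : K))| ≤ δ :=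
      fun w => log_diff hκh (hbig w).2 (hbig w).1 (hdw w)
    have hGd : ‖G x' - G x‖ ≤ L * δ := by
      refine hGl δ hδ0 fun w => ?_
      refine ((le_hh _ w).trans hdist).trans ?_
      calc D = δ * (κ * h) := by rw [hδ]; field_simp
        _ ≤ δ * w (x : K) := mul_le_mul_of_nonneg_left (hbig w).1 hδ0
    set l := lN K (x : K) with hl
    set l' := lN K (x' : K) with hl'
    have hll : |l' - l| ≤ n * δ := lN_lip K hlog
    have hψ : |psi K (x' : K) - psi K (x : K)| ≤ Cψ * δ := hlip _ _ δ hδ0 hlog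
    set E : ℝ := E0 * h ^ (-(n * s)) with hE
    have hE0' : 0 ≤ E := by positivity
    have he : Real.exp (-(s * l)) ≤ E :=
      exp_bound hκ hκ1 hA0 (by linarith) hs0 hs2 (lN_ge K hκh fun w => (hbig w).1)
    have he' : Real.exp (-(s * l')) ≤ E :=
      exp_bound hκ hκ1 hA0 (by linarith) hs0 hs2 (lN_ge K hκh fun w => (hbig w).2)
    have hz : |-(s * (l' - l))| ≤ 2 * (n * δ) := by
      rw [abs_neg, abs_mul, abs_of_nonneg hs0]
      exact mul_le_mul hs2 hll (abs_nonneg _) (by norm_num)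
    have hz1 : |-(s * (l' - l))| ≤ 1 := hz.trans (by linarith)
    have hed : |Real.exp (-(s * l')) - Real.exp (-(s * l))| ≤ (4 * n * δ) * E := by
      have h1 : Real.exp (-(s * l')) - Real.exp (-(s * l)) =
          Real.exp (-(s * l)) * (Real.exp (-(s * (l' - l))) - 1) := by
        rw [mul_sub, mul_one, ← Real.exp_add]
        congr 2
        ring
      rw [h1, abs_mul, abs_of_pos (Real.exp_pos _), mul_comm]
      have h2 := Real.abs_exp_sub_one_le hz1
      calc |Real.exp (-(s * (l' - l))) - 1| * Real.exp (-(s * l))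
          ≤ (2 * (2 * (n * δ))) * E :=
            mul_le_mul (h2.trans (by linarith)) he (Real.exp_pos _).le (by positivity)
        _ = _ := by ring
    rw [ff_ne G s hx, ff_ne G s hx', ← hl, ← hl']
    have hfin : ‖(psi K (x' : K) : ℂ) * G x' * ((Real.exp (-(s * l')) : ℝ) : ℂ) -
        (psi K (x : K) : ℂ) * G x * ((Real.exp (-(s * l)) : ℝ) : ℂ)‖ ≤
        (Cψ * δ) * E + (L * δ) * E + (4 * n * δ) * E := by
      have h1 : (psi K (x' : K) : ℂ) * G x' * ((Real.exp (-(s * l')) : ℝ) : ℂ) -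
          (psi K (x : K) : ℂ) * G x * ((Real.exp (-(s * l)) : ℝ) : ℂ) =
          ((psi K (x' : K) - psi K (x : K) : ℝ) : ℂ) * G x' * ((Real.exp (-(s * l')) : ℝ) : ℂ) +
          (psi K (x : K) : ℂ) * (G x' - G x) * ((Real.exp (-(s * l')) : ℝ) : ℂ) +
          (psi K (x : K) : ℂ) * G x *
            ((Real.exp (-(s * l')) - Real.exp (-(s * l)) : ℝ) : ℂ) := by
        push_cast
        ring
      rw [h1]
      refine (norm_add_le _ _).trans (add_le_add ((norm_add_le _ _).trans (add_le_add ?_ ?_)) ?_)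
      · rw [norm_mul, norm_mul, Complex.norm_real, Complex.norm_real, Real.norm_eq_abs,
          Real.norm_of_nonneg (Real.exp_pos _).le]
        refine mul_le_mul ?_ he' (Real.exp_pos _).le (by positivity)
        calc |psi K (x' : K) - psi K (x : K)| * ‖G x'‖ ≤ (Cψ * δ) * 1 :=
              mul_le_mul hψ (hG x') (norm_nonneg _) (by positivity)
          _ = _ := mul_one _
      · rw [norm_mul, norm_mul, Complex.norm_real, Complex.norm_real,
          Real.norm_of_nonneg (psi_nonneg K _), Real.norm_of_nonneg (Real.exp_pos _).le]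
        refine mul_le_mul ?_ he' (Real.exp_pos _).le (by positivity)
        calc psi K (x : K) * ‖G x' - G x‖ ≤ 1 * (L * δ) :=
              mul_le_mul (psi_le_one K _) hGd (norm_nonneg _) zero_le_one
          _ = _ := one_mul _
      · rw [norm_mul, norm_mul, Complex.norm_real, Complex.norm_real,
          Real.norm_of_nonneg (psi_nonneg K _), Real.norm_eq_abs]
        calc psi K (x : K) * ‖G x‖ * |Real.exp (-(s * l')) - Real.exp (-(s * l))|
            ≤ (1 * 1) * ((4 * n * δ) * E) :=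
              mul_le_mul (mul_le_mul (psi_le_one K _) (hG x) (norm_nonneg _) zero_le_one) hed
                (abs_nonneg _) (by norm_num)
          _ = _ := by ring
    refine hfin.trans ?_
    have hAA : h ^ (-(n * s)) ≤ h ^ (-n) := by
      refine Real.rpow_le_rpow_of_exponent_le hA1 ?_
      nlinarith
    have hAB : h ^ (-(n + 1)) = h ^ (-n) / h := by
      rw [neg_add, Real.rpow_add hA0, Real.rpow_neg_one]
      rfl
    calc (Cψ * δ) * E + (L * δ) * E + (4 * n * δ) * E
        = (Cψ + L + 4 * n) * δ * E0 * h ^ (-(n * s)) := by rw [hE]; ring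
      _ ≤ (Cψ + L + 4 * n) * δ * E0 * h ^ (-n) :=
          mul_le_mul_of_nonneg_left hAA (by positivity)
      _ = C2 * h ^ (-(n + 1)) := by
          rw [hAB, hC2, hδ]
          field_simp
      _ ≤ _ := mul_le_mul_of_nonneg_right (by linarith) hpow

end Pool.Agent.NH35.HC
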