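import Pool.Agent.NH35.HC.Cyc

/-! The normalisation of the generators of the ideals in the image of the CM type. -/

set_option autoImplicit false
set_option linter.unusedSectionVars false
open NumberField NumberField.InfinitePlace IsDedekindDomain
open Module nonZeroDivisors Ideal IsCyclotomicExtension
open scoped ComplexConjugate

namespace Pool.Agent.NH35.HC

section type
variable (p : ℕ) [Fact p.Prime]

/-- the CM type -/
def Ph : Finset (ZMod p)ˣ := Finset.univ.filter fun t => 2 * (t : ZMod p).val < p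

variable {p}

theorem mem_Ph {t : (ZMod p)ˣ} : t ∈ Ph p ↔ 2 * (t : ZMod p).val < p := by
  unfold Ph
  simp

theorem neg_mem_Ph (hp : p ≠ 2) {t : (ZMod p)ˣ} : -t ∈ Ph p ↔ t ∉ Ph p := by
  have hpr : p.Prime := Fact.out
  rw [mem_Ph, mem_Ph, Units.val_neg, ZMod.neg_val, if_neg t.ne_zero]
  have h1 := ZMod.val_lt (t : ZMod p)
  have h2 : p % 2 = 1 := (hpr.eq_two_or_odd.resolve_left hp)
  omega

theorem prod_Ph {M : Type} [CommMonoid M] (hp : p ≠ 2) (f : (ZMod p)ˣ → M) :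
    (∏ t ∈ Ph p, f t) * ∏ t ∈ Ph p, f (-t) = ∏ u : (ZMod p)ˣ, f u := by
  classical
  have h1 : ∏ t ∈ Ph p, f (-t) = ∏ t ∈ Finset.univ.filter (fun t => t ∉ Ph p), f t := by
    refine Finset.prod_bij (fun t _ => -t) ?_ ?_ ?_ ?_
    · intro t ht
      rw [Finset.mem_filter]
      refine ⟨Finset.mem_univ _, ?_⟩
      rw [← neg_mem_Ph hp, neg_neg]
      exact ht
    · intro a _ b _ h
      exact neg_injective h
    · intro t ht
      rw [Finset.mem_filter] at ht
      exact ⟨-t, (neg_mem_Ph hp).2 ht.2, neg_neg t⟩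
    · intro t _
      rfl
  have h2 : Ph p = Finset.univ.filter (fun t => t ∈ Ph p) := by
    ext t
    simp
  rw [h1]
  nth_rewrite 1 [h2]
  exact Finset.prod_filter_mul_prod_filter_not _ _ _

theorem card_Ph (hp : p ≠ 2) : 2 * (Ph p).card = p - 1 := by
  have h := prod_Ph (M := Multiplicative ℕ) hp fun _ => Multiplicative.ofAdd 1
  rw [Finset.prod_const, Finset.prod_const, Finset.card_univ, ZMod.card_units, ← pow_add] at h
  have h2 := congrArg Multiplicative.toAdd h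
  rw [← ofAdd_nsmul, ← ofAdd_nsmul] at h2
  simp only [toAdd_ofAdd, smul_eq_mul, mul_one] at h2
  omega

end type

variable (p : ℕ) [Fact p.Prime] (K : Type) [Field K] [NumberField K]
  [IsCyclotomicExtension {p} ℚ K]

/-- the type norm on elements -/
noncomputable def xph (x : 𝓞 K) : 𝓞 K := ∏ t ∈ Ph p, sa p K t⁻¹ x

/-- the type norm on ideals -/
noncomputable def iph (I : Ideal (𝓞 K)) : Ideal (𝓞 K) := ∏ t ∈ Ph p, I.map (sa p K t⁻¹)

theorem xph_mul (x y : 𝓞 K) : xph p K (x * y) = xph p K x * xph p K y := by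
  unfold xph
  rw [← Finset.prod_mul_distrib]
  exact Finset.prod_congr rfl fun t _ => map_mul _ _ _

theorem iph_mul (I I' : Ideal (𝓞 K)) : iph p K (I * I') = iph p K I * iph p K I' := by
  unfold iph
  rw [← Finset.prod_mul_distrib]
  exact Finset.prod_congr rfl fun t _ => Ideal.map_mul _ _ _

theorem iph_span (x : 𝓞 K) : iph p K (span {x}) = span {xph p K x} := by
  unfold iph xph
  rw [← Ideal.prod_span_singleton]
  refine Finset.prod_congr rfl fun t _ => ?_
  rw [Ideal.map_span, Set.image_singleton]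

theorem xph_ne {x : 𝓞 K} (hx : x ≠ 0) : xph p K x ≠ 0 :=
  Finset.prod_ne_zero_iff.2 fun _ _ => sa_ne p K hx

theorem xph_norm (hp : p ≠ 2) (x : 𝓞 K) :
    xph p K x * sa p K (-1) (xph p K x) = ((Algebra.norm ℤ x : ℤ) : 𝓞 K) := by
  rw [norm_prod p K x]
  unfold xph
  rw [map_prod]
  have h1 : ∏ t ∈ Ph p, sa p K (-1) (sa p K t⁻¹ x) = ∏ t ∈ Ph p, sa p K (-t)⁻¹ x := by
    refine Finset.prod_congr rfl fun t _ => ?_
    rw [← sa_mul, inv_neg, neg_one_mul]
  rw [h1, prod_Ph hp fun t => sa p K t⁻¹ x]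
  exact Fintype.prod_equiv (Equiv.inv _) _ _ fun t => rfl

/-- the prime above `p`, squared, divides `p` -/
theorem dvd_p (hp : p ≠ 2) : (zt p K - 1) ^ 2 ∣ ((p : ℕ) : 𝓞 K) := by
  have h2 : 2 < p := lt_of_le_of_ne (Fact.out : p.Prime).two_le (Ne.symm hp)
  obtain ⟨z, -, hz⟩ := (zt_prim p K).self_sub_one_pow_dvd_order h2
  exact ⟨z, by rw [hz]; ring⟩

theorem zt_prime : Prime (zt p K - 1) := (zeta_spec p ℚ K).zeta_sub_one_prime'

/-- the relation between an ideal and the normalised generator of its image -/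
structure Rel (I : Ideal (𝓞 K)) (x : 𝓞 K) : Prop where
  sp : span {x} = iph p K I
  nrm : x * sa p K (-1) x = ((absNorm I : ℕ) : 𝓞 K)
  cg : (zt p K - 1) ^ 2 ∣ x - 1

variable {p K}

theorem Rel.mul {I I' : Ideal (𝓞 K)} {x x' : 𝓞 K} (h : Rel p K I x) (h' : Rel p K I' x') :
    Rel p K (I * I') (x * x') := by
  refine ⟨?_, ?_, ?_⟩
  · rw [iph_mul, ← h.sp, ← h'.sp, Ideal.span_singleton_mul_span_singleton]
  · rw [map_mul, map_mul]
    push_cast
    rw [← h.nrm, ← h'.nrm]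
    ring
  · have e : x * x' - 1 = (x - 1) * x' + (x' - 1) := by ring
    rw [e]
    exact dvd_add (h.cg.mul_right _) h'.cg

theorem sa_one_right (u : (ZMod p)ˣ) : sa p K u 1 = 1 := map_one _

theorem Rel.top : Rel p K ⊤ 1 := by
  refine ⟨?_, ?_, ?_⟩
  · rw [← Ideal.span_singleton_one, iph_span]
    congr 2
    unfold xph
    simp
  · rw [sa_one_right, Ideal.absNorm_top]
    simp
  · simp

theorem Rel.norm_sq {I : Ideal (𝓞 K)} {x : 𝓞 K} (h : Rel p K I x) (τ : K →+* ℂ) :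
    ‖τ (x : K)‖ ^ 2 = (absNorm I : ℝ) := by
  have h1 := HC.norm_sq p K τ x
  rw [h.nrm] at h1
  have h2 : τ (((absNorm I : ℕ) : 𝓞 K) : K) = ((absNorm I : ℝ) : ℂ) := by
    have : (((absNorm I : ℕ) : 𝓞 K) : K) = ((absNorm I : ℕ) : K) := by simp
    rw [this, map_natCast]
    simp
  rw [h2] at h1
  exact_mod_cast h1.symm

theorem Rel.ne {I : Ideal (𝓞 K)} {x : 𝓞 K} (h : Rel p K I x) (hI : I ≠ ⊥) : x ≠ 0 := by
  rintro rfl
  have h1 := h.nrm
  rw [zero_mul] at h1
  have h2 : absNorm I = 0 := by exact_mod_cast h1.symm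
  exact hI (absNorm_eq_zero_iff.1 h2)

/-- a unit of absolute value one congruent to one modulo the square of the prime above `p` -/
theorem unit_eq_one (hp : p ≠ 2) (u : 𝓞 K) (h1 : ∀ τ : K →+* ℂ, ‖τ (u : K)‖ = 1)
    (h2 : (zt p K - 1) ^ 2 ∣ u - 1) : u = 1 := by
  have hpr : p.Prime := Fact.out
  have hodd : Odd p := hpr.odd_of_ne_two hp
  obtain ⟨n, hn, hu⟩ := NumberField.Embeddings.pow_eq_one_of_norm_eq_one K ℂ u.isIntegral_coe h1
  have hfin : IsOfFinOrder (u : K) := isOfFinOrder_iff_pow_eq_one.2 ⟨n, hn, hu⟩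
  obtain ⟨r, hr, hru⟩ := (zeta_spec p ℚ K).exists_pow_or_neg_mul_pow_of_isOfFinOrder hodd hfin
  have hdvd : zt p K - 1 ∣ (zt p K - 1) ^ 2 := dvd_pow_self _ two_ne_zero
  have hprime := zt_prime p K
  rcases hru with h | h
  · have e : u = zt p K ^ r := by
      apply RingOfIntegers.ext
      rw [h]
      exact (map_pow (algebraMap (𝓞 K) K) (zt p K) r).symm
    by_cases hr0 : r = 0
    · rw [e, hr0, pow_zero]
    · exfalso
      have hc : r.Coprime p := by
        rw [Nat.coprime_comm, hpr.coprime_iff_not_dvd]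
        exact Nat.not_dvd_of_pos_of_lt (Nat.pos_of_ne_zero hr0) hr
      have h3 := (zt_prim p K).associated_sub_one_pow_sub_one_of_coprime hc
      rw [← e] at h3
      have h4 := h2.trans h3.symm.dvd
      rw [pow_two] at h4
      have h5 : (zt p K - 1) * (zt p K - 1) ∣ (zt p K - 1) * 1 := by rwa [mul_one]
      exact hprime.not_isUnit (isUnit_of_dvd_one ((mul_dvd_mul_iff_left hprime.ne_zero).1 h5))
  · exfalso
    have e : u = - zt p K ^ r := by
      apply RingOfIntegers.ext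
      rw [h]
      have := map_neg (algebraMap (𝓞 K) K) (zt p K ^ r)
      rw [map_pow] at this
      exact this.symm
    have h3 : zt p K - 1 ∣ zt p K ^ r - 1 := by
      simpa using sub_dvd_pow_sub_pow (zt p K) 1 r
    have h4 : zt p K - 1 ∣ 2 := by
      have h5 := dvd_add (hdvd.trans h2) h3
      rw [e] at h5
      have h6 : -zt p K ^ r - 1 + (zt p K ^ r - 1) = -2 := by ring
      rw [h6] at h5
      exact (dvd_neg.1 h5)
    have h5 : zt p K - 1 ∣ ((p : ℕ) : 𝓞 K) := hdvd.trans (dvd_p p K hp)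
    obtain ⟨k, hk⟩ := hodd
    have hk' : ((p : ℕ) : 𝓞 K) = 2 * (k : 𝓞 K) + 1 := by
      have := congrArg (Nat.cast : ℕ → 𝓞 K) hk
      push_cast at this
      exact this
    rw [hk'] at h5
    exact hprime.not_isUnit (isUnit_of_dvd_one ((dvd_add_right (h4.mul_right _)).1 h5))

theorem Rel.unique (hp : p ≠ 2) {I : Ideal (𝓞 K)} {x y : 𝓞 K} (hI : I ≠ ⊥) (h : Rel p K I x)
    (h' : Rel p K I y) : x = y := by
  have hx := h.ne hI
  obtain ⟨u, hu⟩ : Associated x y :=
    Ideal.span_singleton_eq_span_singleton.1 (h.sp.trans h'.sp.symm)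
  have h1 : ∀ τ : K →+* ℂ, ‖τ ((u : 𝓞 K) : K)‖ = 1 := by
    intro τ
    have e1 := h.norm_sq τ
    have e2 := h'.norm_sq τ
    have e3 : ((y : 𝓞 K) : K) = (x : K) * ((u : 𝓞 K) : K) := by rw [← hu]; simp
    rw [e3, map_mul, norm_mul, mul_pow, e1] at e2
    have h0 : (absNorm I : ℝ) ≠ 0 := by
      have : absNorm I ≠ 0 := fun h => hI (absNorm_eq_zero_iff.1 h)
      exact_mod_cast this
    have e4 : ‖τ ((u : 𝓞 K) : K)‖ ^ 2 = 1 := by
      have : (absNorm I : ℝ) * ‖τ ((u : 𝓞 K) : K)‖ ^ 2 = absNorm I * 1 := by rw [e2, mul_one]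
      exact mul_left_cancel₀ h0 this
    exact (pow_eq_one_iff_of_nonneg (norm_nonneg _) two_ne_zero).1 e4
  have h2 : (zt p K - 1) ^ 2 ∣ (u : 𝓞 K) - 1 := by
    have e : (u : 𝓞 K) - 1 = (y - 1) - u * (x - 1) := by rw [← hu]; ring
    rw [e]
    exact dvd_sub h'.cg (h.cg.mul_left _)
  have h3 := unit_eq_one hp (u : 𝓞 K) h1 h2
  rw [← hu, h3, mul_one]

theorem Rel.prin (hp : p ≠ 2) {α : 𝓞 K} (h1 : α - 1 ∈ span {((p : ℕ) : 𝓞 K)}) :
    Rel p K (span {α}) (xph p K α) := by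
  refine ⟨(iph_span p K α).symm, ?_, ?_⟩
  · rw [xph_norm p K hp, Ideal.absNorm_span_singleton]
    have h2 : 0 ≤ Algebra.norm ℤ α := by
      obtain ⟨τ⟩ : Nonempty (K →+* ℂ) := inferInstance
      have h3 := HC.norm_sq p K τ (xph p K α)
      rw [xph_norm p K hp] at h3
      have h4 : τ (((Algebra.norm ℤ α : ℤ) : 𝓞 K) : K) = (((Algebra.norm ℤ α : ℤ) : ℝ) : ℂ) := by
        have : (((Algebra.norm ℤ α : ℤ) : 𝓞 K) : K) = ((Algebra.norm ℤ α : ℤ) : K) := by simp
        rw [this, map_intCast]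
        simp
      rw [h4] at h3
      have h5 : ((Algebra.norm ℤ α : ℤ) : ℝ) = ‖τ ((xph p K α : 𝓞 K) : K)‖ ^ 2 := by
        exact_mod_cast h3
      have h6 : (0 : ℝ) ≤ ((Algebra.norm ℤ α : ℤ) : ℝ) := by rw [h5]; positivity
      exact_mod_cast h6
    have h7 : (((Algebra.norm ℤ α).natAbs : ℕ) : 𝓞 K) = ((((Algebra.norm ℤ α).natAbs : ℕ) : ℤ) : 𝓞 K) := by
      simp
    rw [h7, Int.natAbs_of_nonneg h2]
  · have h2 : ((p : ℕ) : 𝓞 K) ∣ xph p K α - 1 := by
      rw [← Ideal.mem_span_singleton]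
      have h3 : ∀ t : (ZMod p)ˣ, sa p K t α - 1 ∈ span {((p : ℕ) : 𝓞 K)} := by
        intro t
        rw [Ideal.mem_span_singleton] at h1 ⊢
        have h4 := map_dvd (sa p K t) h1
        rwa [map_natCast, map_sub, map_one] at h4
      rw [← Ideal.Quotient.eq_zero_iff_mem, map_sub, map_one, sub_eq_zero]
      unfold xph
      rw [map_prod]
      refine Finset.prod_eq_one fun t _ => ?_
      have h5 := h3 t⁻¹
      rwa [← Ideal.Quotient.eq_zero_iff_mem, map_sub, map_one, sub_eq_zero] at h5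
    exact (dvd_p p K hp).trans h2

end Pool.Agent.NH35.HC
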