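import Pool.Agent.NH35.HC.Typ

/-! The residue character and its Jacobi sum. -/

set_option autoImplicit false
set_option linter.unusedSectionVars false
open NumberField NumberField.InfinitePlace IsDedekindDomain
open Module nonZeroDivisors Ideal IsCyclotomicExtension
open scoped ComplexConjugate

namespace Pool.Agent.NH35.HC

section
variable {p : ℕ} [Fact p.Prime] {K : Type} [Field K] [NumberField K]
  [IsCyclotomicExtension {p} ℚ K] {F : Type} [Field F] [Fintype F]

theorem map_zt (π : 𝓞 K →+* F) (hpF : ((p : ℕ) : F) ≠ 0) : IsPrimitiveRoot (π (zt p K)) p := by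
  have hpr : p.Prime := Fact.out
  have h1 : zt p K - 1 ∣ ((p : ℕ) : 𝓞 K) := by
    obtain ⟨z, -, hz⟩ := (zt_prim p K).self_sub_one_pow_dvd_order (k := 1) hpr.one_lt
    exact ⟨z, by rw [hz]; ring⟩
  have h2 : π (zt p K) ≠ 1 := by
    intro h
    obtain ⟨z, hz⟩ := h1
    have h3 := congrArg π hz
    rw [map_mul, map_sub, map_one, h, sub_self, zero_mul, map_natCast] at h3
    exact hpF h3
  have h3 : π (zt p K) ^ p = 1 := by rw [← map_pow, (zt_prim p K).pow_eq_one, map_one]
  exact IsPrimitiveRoot.iff_orderOf.2 (orderOf_eq_prime h3 h2)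

theorem p_dvd (π : 𝓞 K →+* F) (hpF : ((p : ℕ) : F) ≠ 0) : p ∣ Fintype.card F - 1 := by
  classical
  have h1 := map_zt π hpF
  have h2 : π (zt p K) ^ (Fintype.card F - 1) = 1 := by
    apply FiniteField.pow_card_sub_one_eq_one
    exact h1.ne_zero (Fact.out : p.Prime).ne_zero
  exact h1.dvd_of_pow_eq_one _ h2

/-- two roots of unity congruent modulo a prime not above `p` are equal -/
theorem root_inj (π : 𝓞 K →+* F) (hpF : ((p : ℕ) : F) ≠ 0) {a b : 𝓞 K} (ha : a ^ p = 1)
    (hb : b ^ p = 1) (h : π a = π b) : a = b := by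
  obtain ⟨i, hi, rfl⟩ := (zt_prim p K).eq_pow_of_pow_eq_one ha
  obtain ⟨j, hj, rfl⟩ := (zt_prim p K).eq_pow_of_pow_eq_one hb
  rw [map_pow, map_pow] at h
  rw [(map_zt π hpF).pow_inj hi hj h]

theorem root_lift (π : 𝓞 K →+* F) (hpF : ((p : ℕ) : F) ≠ 0) {y : F} (hy : y ^ p = 1) :
    ∃ a : 𝓞 K, a ^ p = 1 ∧ π a = y := by
  obtain ⟨i, hi, rfl⟩ := (map_zt π hpF).eq_pow_of_pow_eq_one hy
  refine ⟨zt p K ^ i, ?_, map_pow _ _ _⟩
  rw [← pow_mul, mul_comm, pow_mul, (zt_prim p K).pow_eq_one, one_pow]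

/-- the residue character -/
theorem exists_res (π : 𝓞 K →+* F) (hpF : ((p : ℕ) : F) ≠ 0) :
    ∃ χ : MulChar F (𝓞 K), χ ^ p = 1 ∧ ∀ y : F, π (χ y) = y ^ ((Fintype.card F - 1) / p) := by
  classical
  have hpr : p.Prime := Fact.out
  set k := (Fintype.card F - 1) / p with hk
  have hkp : k * p = Fintype.card F - 1 := Nat.div_mul_cancel (p_dvd π hpF)
  have hcard : 1 < Fintype.card F := Fintype.one_lt_card
  have hk0 : k ≠ 0 := by
    intro h
    rw [h, zero_mul] at hkp
    omega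
  have h1 : ∀ y : Fˣ, ∃ a : 𝓞 K, a ^ p = 1 ∧ π a = (y : F) ^ k := by
    intro y
    apply root_lift π hpF
    rw [← pow_mul, hkp]
    exact FiniteField.pow_card_sub_one_eq_one _ y.ne_zero
  choose f hf1 hf2 using h1
  have hfm : ∀ y z, f (y * z) = f y * f z := by
    intro y z
    apply root_inj π hpF (hf1 _)
    · rw [mul_pow, hf1, hf1, one_mul]
    · rw [hf2, map_mul, hf2, hf2, Units.val_mul, mul_pow]
  have hf0 : f 1 = 1 := by
    apply root_inj π hpF (hf1 _) (one_pow _)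
    rw [hf2, map_one, Units.val_one, one_pow]
  let g : Fˣ →* (𝓞 K)ˣ :=
    { toFun := fun y => ⟨f y, f y⁻¹, by rw [← hfm, mul_inv_cancel, hf0],
        by rw [← hfm, inv_mul_cancel, hf0]⟩
      map_one' := Units.ext hf0
      map_mul' := fun y z => Units.ext (hfm y z) }
  refine ⟨MulChar.ofUnitHom g, ?_, fun y => ?_⟩
  · refine MulChar.ext fun y => ?_
    rw [MulChar.pow_apply_coe, MulChar.ofUnitHom_coe, MulChar.one_apply_coe]
    exact hf1 y
  · by_cases hy : y = 0
    · rw [hy, MulChar.map_zero, map_zero, zero_pow hk0]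
    · have e := MulChar.ofUnitHom_coe g (Units.mk0 y hy)
      rw [Units.val_mk0] at e
      rw [e]
      exact hf2 (Units.mk0 y hy)

variable {χ : MulChar F (𝓞 K)}

theorem chi_pow (hχ : χ ^ p = 1) {y : F} (hy : y ≠ 0) : χ y ^ p = 1 := by
  have h1 : (χ ^ p) y = (1 : MulChar F (𝓞 K)) y := by rw [hχ]
  rw [MulChar.pow_apply' _ (Fact.out : p.Prime).ne_zero, MulChar.one_apply (isUnit_iff_ne_zero.2 hy)]
    at h1
  exact h1

/-- the Galois group acts on the values -/
theorem sa_chi (hχ : χ ^ p = 1) (u : (ZMod p)ˣ) (y : F) :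
    sa p K u (χ y) = χ y ^ (u : ZMod p).val := by
  have hu : (u : ZMod p).val ≠ 0 := by
    rw [Ne, ZMod.val_eq_zero]
    exact u.ne_zero
  by_cases hy : y = 0
  · rw [hy, MulChar.map_zero, map_zero, zero_pow hu]
  · obtain ⟨i, -, hi⟩ := (zt_prim p K).eq_pow_of_pow_eq_one (chi_pow hχ hy)
    rw [← hi, map_pow, sa_zt, ← pow_mul, ← pow_mul, mul_comm]

theorem chi_ne_one (π : 𝓞 K →+* F) (hpF : ((p : ℕ) : F) ≠ 0)
    (hχ2 : ∀ y : F, π (χ y) = y ^ ((Fintype.card F - 1) / p)) : χ ≠ 1 := by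
  classical
  rintro rfl
  have hpr : p.Prime := Fact.out
  have hkp : (Fintype.card F - 1) / p * p = Fintype.card F - 1 := Nat.div_mul_cancel (p_dvd π hpF)
  have hcard : 1 < Fintype.card F := Fintype.one_lt_card
  obtain ⟨g, hg⟩ := IsCyclic.exists_generator (α := Fˣ)
  have h1 := hχ2 (g : F)
  rw [MulChar.one_apply_coe, map_one] at h1
  have h2 : g ^ ((Fintype.card F - 1) / p) = 1 := Units.ext (by
    rw [Units.val_pow_eq_pow_val, Units.val_one]; exact h1.symm)
  have h3 := orderOf_dvd_of_pow_eq_one h2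
  rw [orderOf_eq_card_of_forall_mem_zpowers hg, Nat.card_eq_fintype_card, Fintype.card_units] at h3
  have h4 : (Fintype.card F - 1) / p ≠ 0 := by
    intro h
    rw [h, zero_mul] at hkp
    omega
  have h5 := Nat.le_of_dvd (Nat.pos_of_ne_zero h4) h3
  have h6 := hpr.two_le
  generalize (Fintype.card F - 1) / p = c at *
  have h7 : c * 2 ≤ c * p := Nat.mul_le_mul_left c h6
  omega

/-- the normalised Jacobi sum -/
noncomputable def jj (χ : MulChar F (𝓞 K)) : 𝓞 K := -jacobiSum χ χ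

theorem sa_jj (hχ : χ ^ p = 1) (u : (ZMod p)ˣ) :
    sa p K u (jj χ) = -∑ x : F, (χ (x * (1 - x))) ^ (u : ZMod p).val := by
  unfold jj jacobiSum
  rw [map_neg, map_sum]
  congr 1
  refine Finset.sum_congr rfl fun x _ => ?_
  rw [map_mul, sa_chi hχ, sa_chi hχ, map_mul, mul_pow]

theorem jj_norm (hp : p ≠ 2) (π : 𝓞 K →+* F) (hpF : ((p : ℕ) : F) ≠ 0) (hχ : χ ^ p = 1)
    (hχ2 : ∀ y : F, π (χ y) = y ^ ((Fintype.card F - 1) / p)) :
    jj χ * sa p K (-1) (jj χ) = ((Fintype.card F : ℕ) : 𝓞 K) := by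
  classical
  have hpr : p.Prime := Fact.out
  have h1 := chi_ne_one π hpF hχ2
  have hinv : ∀ y : F, sa p K (-1) (χ y) = χ⁻¹ y := by
    intro y
    by_cases hy : y = 0
    · rw [hy, MulChar.map_zero, MulChar.map_zero, map_zero]
    · rw [sa_chi hχ, MulChar.inv_apply']
      have e1 : χ y * χ y⁻¹ = 1 := by rw [← map_mul, mul_inv_cancel₀ hy, map_one]
      have e2 : χ y * χ y ^ (((-1 : (ZMod p)ˣ) : ZMod p)).val = 1 := by
        rw [← pow_succ']
        have h4 : p ∣ (((-1 : (ZMod p)ˣ) : ZMod p)).val + 1 := by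
          rw [← ZMod.natCast_eq_zero_iff]
          push_cast
          rw [ZMod.natCast_zmod_val]
          simp
        obtain ⟨k, hk⟩ := h4
        rw [hk, pow_mul, chi_pow hχ hy, one_pow]
      exact mul_left_cancel₀ (left_ne_zero_of_mul_eq_one e1) (e2.trans e1.symm)
  have e3 : sa p K (-1) (jj χ) = -jacobiSum χ⁻¹ χ⁻¹ := by
    unfold jj jacobiSum
    rw [map_neg, map_sum]
    congr 1
    refine Finset.sum_congr rfl fun x _ => ?_
    rw [map_mul, hinv, hinv]
  rw [e3]
  unfold jj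
  rw [neg_mul_neg]
  -- to the field `K`
  have hinj : Function.Injective (algebraMap (𝓞 K) K) := RingOfIntegers.coe_injective
  have hχχ : χ * χ ≠ 1 := by
    intro h
    obtain ⟨m, hm⟩ := hpr.odd_of_ne_two hp
    have h2 : χ ^ p = χ := by
      rw [hm, pow_succ, pow_mul, pow_two, h, one_pow, one_mul]
    exact h1 (h2.symm.trans hχ)
  have hchar : ringChar K ≠ ringChar F := by
    rw [ringChar.eq_zero]
    intro h
    have h3 : CharP F 0 := by
      have := ringChar.charP F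
      rwa [← h] at this
    have : CharZero F := CharP.charP_to_charZero F
    exact (Infinite.of_injective (Nat.cast : ℕ → F) Nat.cast_injective).not_finite inferInstance
  have h5 := jacobiSum_mul_jacobiSum_inv hchar
    ((MulChar.ringHomComp_ne_one_iff hinj).mpr h1) ((MulChar.ringHomComp_ne_one_iff hinj).mpr h1)
    (χ := χ.ringHomComp (algebraMap (𝓞 K) K)) (φ := χ.ringHomComp (algebraMap (𝓞 K) K))
    (by rw [← MulChar.ringHomComp_mul]; exact (MulChar.ringHomComp_ne_one_iff hinj).mpr hχχ)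
  rw [MulChar.ringHomComp_inv, jacobiSum_ringHomComp, jacobiSum_ringHomComp, ← map_mul] at h5
  apply hinj
  rw [h5, map_natCast]

theorem jj_cong (hp : p ≠ 2) (hχ : χ ^ p = 1) (hd : p ∣ Fintype.card F - 1) :
    (zt p K - 1) ^ 2 ∣ jj χ - 1 := by
  have h2 : 2 < p := lt_of_le_of_ne (Fact.out : p.Prime).two_le (Ne.symm hp)
  obtain ⟨z, -, hz⟩ := exists_jacobiSum_eq_neg_one_add h2 hχ hχ hd (zt_prim p K)
  unfold jj
  rw [hz]
  exact ⟨-z, by ring⟩

/-- power sums -/
theorem sum_poly (f : Polynomial F) (hf : f.natDegree < Fintype.card F - 1) :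
    ∑ x : F, f.eval x = 0 := by
  simp only [Polynomial.eval_eq_sum_range]
  rw [Finset.sum_comm]
  refine Finset.sum_eq_zero fun i hi => ?_
  rw [← Finset.mul_sum, FiniteField.sum_pow_lt_card_sub_one, mul_zero]
  have := Finset.mem_range.1 hi
  omega

theorem jj_mem (π : 𝓞 K →+* F) (hpF : ((p : ℕ) : F) ≠ 0) (hχ : χ ^ p = 1)
    (hχ2 : ∀ y : F, π (χ y) = y ^ ((Fintype.card F - 1) / p)) {t : (ZMod p)ˣ} (ht : t ∈ Ph p) :
    π (sa p K t (jj χ)) = 0 := by
  have hkp : (Fintype.card F - 1) / p * p = Fintype.card F - 1 := Nat.div_mul_cancel (p_dvd π hpF)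
  have hcard : 1 < Fintype.card F := Fintype.one_lt_card
  rw [sa_jj hχ, map_neg, map_sum, neg_eq_zero]
  set k := (Fintype.card F - 1) / p with hk
  set a := (t : ZMod p).val with ha
  have h1 : ∀ x : F, π (χ (x * (1 - x)) ^ a) =
      ((Polynomial.X * (1 - Polynomial.X)) ^ (k * a) : Polynomial F).eval x := by
    intro x
    rw [map_pow, hχ2, ← pow_mul]
    simp
  simp only [h1]
  apply sum_poly
  rw [mem_Ph] at ht
  have h2 : (Polynomial.X * (1 - Polynomial.X) : Polynomial F).natDegree ≤ 2 := by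
    compute_degree
  refine lt_of_le_of_lt (Polynomial.natDegree_pow_le_of_le (k * a) h2) ?_
  have hk0 : 0 < k := by
    rcases Nat.eq_zero_or_pos k with h | h
    · rw [h, zero_mul] at hkp
      omega
    · exact h
  calc k * a * 2 = k * (2 * a) := by ring
    _ < k * p := Nat.mul_lt_mul_of_pos_left ht hk0
    _ = _ := hkp

end

end Pool.Agent.NH35.HC
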