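import Pool.Agent.NH35.HC.Tr

/-! The second moment of the traces. -/

set_option autoImplicit false
set_option linter.unusedSectionVars false
open NumberField NumberField.InfinitePlace IsDedekindDomain Filter Topology
open Module nonZeroDivisors Ideal IsCyclotomicExtension
open scoped ComplexConjugate
open Pool.Agent.H921R2.TatePole (below deg nm_eq deg_two_bound w)
open Pool.Agent.H341R2 (E lam)

namespace Pool.Agent.NH35.HC

section
variable {p : ℕ} [hp1 : Fact p.Prime] {K : Type} [Field K] [NumberField K]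
  [IsCyclotomicExtension {p} ℚ K]

theorem inj_above (ℓ : Nat.Primes) (h : p ∣ (ℓ : ℕ) - 1) (v0 : HeightOneSpectrum (𝓞 K))
    (hv0 : below v0 = ℓ) (u u' : (ZMod p)ˣ)
    (huu : v0.asIdeal.map (sa p K u) = v0.asIdeal.map (sa p K u')) : u = u' := by
  classical
  have hpr : p.Prime := hp1.out
  obtain ⟨hdeg, hcard⟩ := above_one K ℓ h
  have hmax : v0.asIdeal.IsMaximal := v0.isMaximal
  have hpv : ((p : ℕ) : 𝓞 K) ∉ v0.asIdeal := by
    intro h2
    have h3 := H82R3.EK.below_eq_of_mem K (p := ⟨p, hpr⟩) v0 h2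
    rw [hv0] at h3
    rw [h3] at h
    change p ∣ p - 1 at h
    have := Nat.le_of_dvd (by have := hpr.two_le; omega) h
    have := hpr.two_le
    omega
  let _ : Field (𝓞 K ⧸ v0.asIdeal) := Ideal.Quotient.field v0.asIdeal
  have : Finite (𝓞 K ⧸ v0.asIdeal) := Ideal.finiteQuotientOfFreeOfNeBot _ v0.ne_bot
  let _ : Fintype (𝓞 K ⧸ v0.asIdeal) := Fintype.ofFinite _
  have hI : ∀ x, x ∈ v0.asIdeal ↔ Ideal.Quotient.mk v0.asIdeal x = 0 :=
    fun x => Ideal.Quotient.eq_zero_iff_mem.symm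
  have hcF : Fintype.card (𝓞 K ⧸ v0.asIdeal) = ℓ := by
    have h2 := (nm_eq v0).1
    rw [hdeg v0 hv0, pow_one, hv0] at h2
    rw [← h2]
    change _ = absNorm v0.asIdeal
    rw [Ideal.absNorm_apply, Submodule.cardQuot_apply, Nat.card_eq_fintype_card]
  refine distinct (Ideal.Quotient.mk v0.asIdeal) ?_ (by rw [hcF]; exact ℓ.2) hI huu
  intro h2
  apply hpv
  rw [hI, map_natCast]
  exact h2

/-- the correlation of the character with its conjugates -/
noncomputable def gu (χ : Ideal (𝓞 K) → ℂ) (u : (ZMod p)ˣ) (v : HeightOneSpectrum (𝓞 K)) : ℝ :=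
  (χ v.asIdeal * conj (χ (v.asIdeal.map (sa p K u)))).re

theorem sq_trace (hp : p ≠ 2) (τ : K →+* ℂ) {χ : Ideal (𝓞 K) → ℂ}
    (hχ0 : ∀ I, ¬ IsCoprime I (span {((p : ℕ) : 𝓞 K)}) → χ I = 0)
    (hrel : ∀ (I : Ideal (𝓞 K)) (x : 𝓞 K), IsCoprime I (span {((p : ℕ) : 𝓞 K)}) →
      Rel p K I x → χ I = (cz (τ (x : K)) : ℂ)) (ℓ : Nat.Primes) :
    TT p ℓ ^ 2 = ∑ u : (ZMod p)ˣ, ∑ v : {v : HeightOneSpectrum (𝓞 K) // below v = ℓ},
      (if deg v.1 = 1 then gu χ u v.1 else 0) := by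
  classical
  have htr := trace hp τ hχ0 hrel ℓ
  by_cases h : p ∣ (ℓ : ℕ) - 1
  · obtain ⟨hdeg, hcard⟩ := above_one K ℓ h
    have e1 : ∀ g : HeightOneSpectrum (𝓞 K) → ℂ,
        ∑ v : {v : HeightOneSpectrum (𝓞 K) // below v = ℓ}, (if deg v.1 = 1 then g v.1 else 0) =
        ∑ v : {v : HeightOneSpectrum (𝓞 K) // below v = ℓ}, g v.1 := fun g =>
      Finset.sum_congr rfl fun v _ => if_pos (hdeg v.1 v.2)
    have e1' : ∀ g : HeightOneSpectrum (𝓞 K) → ℝ,
        ∑ v : {v : HeightOneSpectrum (𝓞 K) // below v = ℓ}, (if deg v.1 = 1 then g v.1 else 0) =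
        ∑ v : {v : HeightOneSpectrum (𝓞 K) // below v = ℓ}, g v.1 := fun g =>
      Finset.sum_congr rfl fun v _ => if_pos (hdeg v.1 v.2)
    rw [e1 fun v => χ v.asIdeal] at htr
    simp only [e1']
    have h2 : ∀ v : {v : HeightOneSpectrum (𝓞 K) // below v = ℓ},
        ∑ u : (ZMod p)ˣ, χ (v.1.asIdeal.map (sa p K u)) = ((TT p ℓ : ℝ) : ℂ) := by
      intro v
      rw [← htr, sum_above ℓ h v.1 v.2 (inj_above ℓ h v.1 v.2) χ]
    have h3 : ∑ u : (ZMod p)ˣ, ∑ v : {v : HeightOneSpectrum (𝓞 K) // below v = ℓ},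
        χ v.1.asIdeal * conj (χ (v.1.asIdeal.map (sa p K u))) = ((TT p ℓ ^ 2 : ℝ) : ℂ) := by
      rw [Finset.sum_comm]
      have h4 : ∀ v : {v : HeightOneSpectrum (𝓞 K) // below v = ℓ},
          ∑ u : (ZMod p)ˣ, χ v.1.asIdeal * conj (χ (v.1.asIdeal.map (sa p K u))) =
          χ v.1.asIdeal * ((TT p ℓ : ℝ) : ℂ) := by
        intro v
        rw [← Finset.mul_sum, ← map_sum, h2 v, Complex.conj_ofReal]
      simp only [h4]
      rw [← Finset.sum_mul, htr]
      push_cast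
      ring
    have h5 := congrArg Complex.re h3
    rw [Complex.ofReal_re, Complex.re_sum] at h5
    rw [← h5]
    exact Finset.sum_congr rfl fun u _ => Complex.re_sum _ _
  · rw [TT_zero h, zero_pow two_ne_zero]
    symm
    refine Finset.sum_eq_zero fun u _ => Finset.sum_eq_zero fun v _ => ?_
    by_cases h' : (ℓ : ℕ) = p
    · have h2 := (nm_eq v.1).2.2
      rw [v.2, h'] at h2
      unfold gu
      rw [hχ0 _ (not_coprime v.1.isPrime h2), zero_mul]
      split_ifs <;> rfl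
    · exact if_neg (deg_ne_one K h h' v.1 v.2)

theorem gu_le {χ : Ideal (𝓞 K) → ℂ} (hb : ∀ I, ‖χ I‖ ≤ 1) (u : (ZMod p)ˣ)
    (v : HeightOneSpectrum (𝓞 K)) : |gu χ u v| ≤ 1 := by
  unfold gu
  refine (Complex.abs_re_le_norm _).trans ?_
  rw [norm_mul, Complex.norm_conj]
  exact mul_le_one₀ (hb _) (norm_nonneg _) (hb _)

/-- the second moment is bounded by the number of primes -/
theorem second (hp : p ≠ 2) (K : Type) [Field K] [NumberField K] [IsCyclotomicExtension {p} ℚ K] :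
    ∃ C : ℝ, ∀ ε : ℝ, 0 < ε → ε ≤ 1 →
      E ε (fun ℓ => TT p ℓ ^ 2) ≤ W540.BE.EP (W540.BE.nm K) ε (fun _ => 1) + C := by
  classical
  obtain ⟨τ⟩ : Nonempty (K →+* ℂ) := inferInstance
  obtain ⟨χ, hk, hrel⟩ := exists_hecke (p := p) (K := K) hp τ
  have hmap : ∀ u : (ZMod p)ˣ, (span {((p : ℕ) : 𝓞 K)}).map (sa p K u) =
      span {((p : ℕ) : 𝓞 K)} := by
    intro u
    rw [Ideal.map_span, Set.image_singleton, map_natCast]
  have h1 : ∀ u : (ZMod p)ˣ, ∃ C : ℝ, u ≠ 1 → ∀ ε : ℝ, 0 < ε → ε ≤ 1 →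
      W540.BE.EP (W540.BE.nm K) ε (gu χ u) ≤ C := by
    intro u
    by_cases hu : u = 1
    · exact ⟨0, fun h => absurd hu h⟩
    · obtain ⟨β, h0, hβ, hne⟩ := exists_nontriv hp τ hu
      obtain ⟨C, hC⟩ := prime_bound ((hk.mulconj (gal p K u).toRingEquiv (hmap u)).chr h0 hβ hne)
      exact ⟨C, fun _ => hC⟩
  choose C hC using h1
  refine ⟨∑ u : (ZMod p)ˣ, (|C u| + 1 * Module.finrank ℚ K * H921R2.TatePole.C0),
    fun ε hε hε1 => ?_⟩
  have hN := W540.BE.normSys (F := K)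
  have h2 : ∀ u : (ZMod p)ˣ, ∑' ℓ : Nat.Primes,
      (∑ v : {v : HeightOneSpectrum (𝓞 K) // below v = ℓ}, if deg v.1 = 1 then gu χ u v.1 else 0) *
        w (1 + ε) ℓ ≤ W540.BE.EP (W540.BE.nm K) ε (gu χ u) +
          1 * Module.finrank ℚ K * H921R2.TatePole.C0 := by
    intro u
    have h3 := deg_two_bound (x := 1 + ε) (by linarith) (gu_le (χ := χ) hk.bd u)
    have h4 := (abs_le.1 h3).1
    have h5 : W540.BE.EP (W540.BE.nm K) ε (gu χ u) =
      ∑' v, gu χ u v * (H921R2.TatePole.nm v : ℝ) ^ (-(1 + ε)) := rfl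
    rw [h5]
    linarith
  have hsum : ∀ u : (ZMod p)ˣ, Summable fun ℓ : Nat.Primes =>
      (∑ v : {v : HeightOneSpectrum (𝓞 K) // below v = ℓ}, if deg v.1 = 1 then gu χ u v.1 else 0) *
        w (1 + ε) ℓ := by
    intro u
    refine H921R2.TatePole.bddmul_summable (C := Module.finrank ℚ K) (by linarith) fun ℓ => ?_
    refine (Finset.abs_sum_le_sum_abs _ _).trans ?_
    calc ∑ v : {v : HeightOneSpectrum (𝓞 K) // below v = ℓ}, |if deg v.1 = 1 then gu χ u v.1 else 0|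
        ≤ ∑ v : {v : HeightOneSpectrum (𝓞 K) // below v = ℓ}, (1 : ℝ) := by
          refine Finset.sum_le_sum fun v _ => ?_
          split_ifs
          · exact gu_le hk.bd u _
          · simp
      _ = (Fintype.card {v : HeightOneSpectrum (𝓞 K) // below v = ℓ} : ℝ) := by simp
      _ ≤ _ := by exact_mod_cast H921R2.TatePole.fiber_card_le ℓ
  have h3 : E ε (fun ℓ => TT p ℓ ^ 2) = ∑ u : (ZMod p)ˣ, ∑' ℓ : Nat.Primes,
      (∑ v : {v : HeightOneSpectrum (𝓞 K) // below v = ℓ}, if deg v.1 = 1 then gu χ u v.1 else 0) *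
        w (1 + ε) ℓ := by
    rw [← Summable.tsum_finsetSum fun u _ => hsum u]
    unfold E
    refine tsum_congr fun ℓ => ?_
    change TT p ℓ ^ 2 * w (1 + ε) ℓ = _
    rw [sq_trace hp τ hk.zero hrel ℓ, Finset.sum_mul]
  rw [h3]
  have h4 : ∀ u : (ZMod p)ˣ, W540.BE.EP (W540.BE.nm K) ε (gu χ u) ≤
      (if u = 1 then W540.BE.EP (W540.BE.nm K) ε (fun _ => 1) else 0) + |C u| := by
    intro u
    split_ifs with hu
    · have h5 := W540.BE.EP_le hN hε (gu_le (χ := χ) hk.bd u)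
        (b := 1) fun v => (le_abs_self _).trans (gu_le (χ := χ) hk.bd u v)
      rw [one_mul] at h5
      exact h5.trans (le_add_of_nonneg_right (abs_nonneg _))
    · rw [zero_add]
      exact (hC u hu ε hε hε1).trans (le_abs_self _)
  calc ∑ u : (ZMod p)ˣ, ∑' ℓ : Nat.Primes,
      (∑ v : {v : HeightOneSpectrum (𝓞 K) // below v = ℓ}, if deg v.1 = 1 then gu χ u v.1 else 0) *
        w (1 + ε) ℓ
      ≤ ∑ u : (ZMod p)ˣ, (((if u = 1 then W540.BE.EP (W540.BE.nm K) ε (fun _ => 1) else 0) +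
          |C u|) + 1 * Module.finrank ℚ K * H921R2.TatePole.C0) :=
        Finset.sum_le_sum fun u _ => (h2 u).trans (add_le_add_left (h4 u) _)
    _ = _ := by
        simp only [Finset.sum_add_distrib, Finset.sum_ite_eq', Finset.mem_univ, if_true]
        ring

/-- the primes `≡ 1` -/
theorem first (K : Type) [Field K] [NumberField K] [IsCyclotomicExtension {p} ℚ K] :
    ∃ C : ℝ, ∀ ε : ℝ, 0 < ε →
      ((p : ℝ) - 1) * E ε (fun ℓ => if p ∣ (ℓ : ℕ) - 1 then 1 else 0) ≤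
        W540.BE.EP (W540.BE.nm K) ε (fun _ => 1) + C := by
  classical
  have hpr : p.Prime := hp1.out
  refine ⟨1 * Module.finrank ℚ K * H921R2.TatePole.C0, fun ε hε => ?_⟩
  have h3 := deg_two_bound (K := K) (x := 1 + ε) (by linarith) (g := fun _ => 1) (C := 1)
    (fun _ => by simp)
  have h4 := (abs_le.1 h3).1
  have h5 : W540.BE.EP (W540.BE.nm K) ε (fun _ => 1) =
      ∑' v : HeightOneSpectrum (𝓞 K), (1 : ℝ) * (H921R2.TatePole.nm v : ℝ) ^ (-(1 + ε)) := rfl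
  have hsum : Summable fun ℓ : Nat.Primes =>
      (∑ v : {v : HeightOneSpectrum (𝓞 K) // below v = ℓ}, if deg v.1 = 1 then (1 : ℝ) else 0) *
        w (1 + ε) ℓ := by
    refine H921R2.TatePole.bddmul_summable (C := Module.finrank ℚ K) (by linarith) fun ℓ => ?_
    refine (Finset.abs_sum_le_sum_abs _ _).trans ?_
    calc ∑ v : {v : HeightOneSpectrum (𝓞 K) // below v = ℓ}, |if deg v.1 = 1 then (1 : ℝ) else 0|
        ≤ ∑ v : {v : HeightOneSpectrum (𝓞 K) // below v = ℓ}, (1 : ℝ) := by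
          refine Finset.sum_le_sum fun v _ => ?_
          split_ifs <;> simp
      _ = (Fintype.card {v : HeightOneSpectrum (𝓞 K) // below v = ℓ} : ℝ) := by simp
      _ ≤ _ := by exact_mod_cast H921R2.TatePole.fiber_card_le ℓ
  have h6 : ((p : ℝ) - 1) * E ε (fun ℓ => if p ∣ (ℓ : ℕ) - 1 then 1 else 0) ≤
      ∑' ℓ : Nat.Primes, (∑ v : {v : HeightOneSpectrum (𝓞 K) // below v = ℓ},
        if deg v.1 = 1 then (1 : ℝ) else 0) * w (1 + ε) ℓ := by
    have hsumE := H341R2.summable_E (φ := fun ℓ : Nat.Primes =>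
      if p ∣ (ℓ : ℕ) - 1 then (1 : ℝ) else 0) (B := 1) hε (fun ℓ => by split_ifs <;> simp)
    unfold E
    rw [← tsum_mul_left]
    refine Summable.tsum_le_tsum (fun ℓ => ?_) (hsumE.mul_left _) hsum
    rw [← mul_assoc]
    refine mul_le_mul_of_nonneg_right ?_ (by positivity)
    beta_reduce
    split_ifs with h
    · obtain ⟨hdeg, hcard⟩ := above_one K ℓ h
      rw [Finset.sum_congr rfl fun v _ => if_pos (hdeg v.1 v.2)]
      rw [Finset.sum_const, Finset.card_univ, hcard, nsmul_eq_mul, mul_one, mul_one,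
        Nat.cast_sub hpr.one_le, Nat.cast_one]
    · rw [mul_zero]
      exact Finset.sum_nonneg fun v _ => by split_ifs <;> simp
  rw [h5]
  linarith

end

end Pool.Agent.NH35.HC
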