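import Pool.Agent.H484R2.Zeta

/-! The size of the elements of a number field; the weight on lattices. -/

set_option autoImplicit false
open Filter Topology NumberField NumberField.InfinitePlace NumberField.Units
open Module nonZeroDivisors Ideal
open Pool.Agent.H484R2

namespace Pool.Agent.NH35.HC

variable (K : Type) [Field K] [NumberField K]

/-- the size of an element: the sum of the absolute values at the infinite places -/
noncomputable def hh (x : K) : ℝ := ∑ w : InfinitePlace K, w x

variable {K}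

theorem le_hh (x : K) (w : InfinitePlace K) : w x ≤ hh K x :=
  Finset.single_le_sum (f := fun w : InfinitePlace K => w x) (fun _ _ => apply_nonneg _ _)
    (Finset.mem_univ w)

theorem hh_nonneg (x : K) : 0 ≤ hh K x := Finset.sum_nonneg fun _ _ => apply_nonneg _ _

theorem hh_add (x y : K) : hh K (x + y) ≤ hh K x + hh K y := by
  unfold hh
  rw [← Finset.sum_add_distrib]
  exact Finset.sum_le_sum fun w _ => w.1.add_le x y

theorem hh_neg (x : K) : hh K (-x) = hh K x := by
  unfold hh
  exact Finset.sum_congr rfl fun w _ => w.1.map_neg x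

theorem hh_sub_comm (x y : K) : hh K (x - y) = hh K (y - x) := by
  rw [← hh_neg, neg_sub]

theorem hh_pos {x : K} (hx : x ≠ 0) : 0 < hh K x := by
  obtain ⟨w⟩ := (inferInstance : Nonempty (InfinitePlace K))
  exact (w.pos_iff.2 hx).trans_le (le_hh x w)

theorem one_le_hh {x : 𝓞 K} (hx : x ≠ 0) : 1 ≤ hh K (x : K) := by
  have hx' : (x : K) ≠ 0 := RingOfIntegers.coe_ne_zero_iff.mpr hx
  by_contra hcon
  push Not at hcon
  have h0 := lN_nonneg K hx
  have h1 : lN K (x : K) < 0 := by
    unfold lN
    refine Finset.sum_neg' (fun w _ => ?_) ?_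
    · exact mul_nonpos_of_nonneg_of_nonpos (Nat.cast_nonneg _)
        (Real.log_nonpos (apply_nonneg _ _) ((le_hh _ w).trans hcon.le))
    · obtain ⟨w⟩ := (inferInstance : Nonempty (InfinitePlace K))
      refine ⟨w, Finset.mem_univ _, mul_neg_of_pos_of_neg (by exact_mod_cast mult_pos) ?_⟩
      exact Real.log_neg (w.pos_iff.2 hx') ((le_hh _ w).trans_lt hcon)
  linarith

theorem hh_mul_ge {b : K} (hb : b ≠ 0) : ∃ c : ℝ, 0 < c ∧ ∀ x : K, c * hh K x ≤ hh K (b * x) := by
  obtain ⟨w₀, hw₀⟩ := Finite.exists_min fun w : InfinitePlace K => w b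
  refine ⟨w₀ b, w₀.pos_iff.2 hb, fun x => ?_⟩
  unfold hh
  rw [Finset.mul_sum]
  refine Finset.sum_le_sum fun w _ => ?_
  rw [map_mul]
  exact mul_le_mul_of_nonneg_right (hw₀ w) (apply_nonneg _ _)

variable (K)

/-- on the support of the weight all absolute values are comparable to the size -/
theorem supp_hh : ∃ c : ℝ, 0 < c ∧ c ≤ 1 ∧ ∀ x : K, x ≠ 0 → psi K x ≠ 0 →
    ∀ w : InfinitePlace K, c * hh K x ≤ w x := by
  obtain ⟨c, hc, h⟩ := psi_supp K
  set n : ℝ := (Fintype.card (InfinitePlace K) : ℝ) with hn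
  have hn1 : 1 ≤ n := by
    rw [hn]
    exact_mod_cast Fintype.card_pos
  refine ⟨min 1 (c / n), by positivity, min_le_left _ _, fun x hx hp w => ?_⟩
  have h1 : c * hh K x ≤ n * w x := by
    unfold hh
    rw [Finset.mul_sum]
    refine (Finset.sum_le_card_nsmul _ _ (w x) fun w' _ => h x hx hp w w').trans ?_
    rw [nsmul_eq_mul, Finset.card_univ]
  calc min 1 (c / n) * hh K x ≤ c / n * hh K x :=
        mul_le_mul_of_nonneg_right (min_le_right _ _) (hh_nonneg x)
    _ = (c * hh K x) / n := by ring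
    _ ≤ w x := by
      rw [div_le_iff₀ (by linarith), mul_comm (w x)]
      exact h1

variable (J : Ideal (𝓞 K)) (hJ : J ≠ ⊥)

include hJ in
/-- the sums of the negative powers of the size -/
theorem summable_hh {r : ℝ} (hr : (finrank ℚ K : ℝ) < r) :
    Summable fun x : XJ K J => hh K (x.1 : K) ^ (-r) := by
  classical
  obtain ⟨ε, hε, hlow⟩ := exists_lower K J hJ
  have h1 := (Cont.summable_norm_rpow_pi (ι := Idx K) (r := r)
    (by rw [card_idx]; exact hr)).mul_left (ε ^ (-r))
  let e : {a : Idx K → ℤ // a ≠ 0} ≃ XJ K J :=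
    { toFun := fun a => ⟨(xJ K J hJ a.1 : 𝓞 K), (xJ K J hJ a.1).2, by
        have := xK_ne_zero K J hJ a.2
        unfold xK at this
        exact RingOfIntegers.coe_ne_zero_iff.mp this⟩
      invFun := fun x => ⟨(bJ K J hJ).equivFun ⟨x.1, x.2.1⟩, by
        intro h0
        have := (LinearEquiv.map_eq_zero_iff _).mp h0
        exact x.2.2 (congrArg Subtype.val this)⟩
      left_inv := by
        intro a
        apply Subtype.ext
        simp only [xJ]
        exact LinearEquiv.apply_symm_apply _ _
      right_inv := by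
        intro x
        apply Subtype.ext
        simp only [xJ]
        rw [LinearEquiv.symm_apply_apply] }
  rw [← e.summable_iff]
  have h2 : Summable fun a : {a : Idx K → ℤ // a ≠ 0} => ε ^ (-r) * ‖a.1‖ ^ (-r) :=
    h1.comp_injective Subtype.val_injective
  refine Summable.of_nonneg_of_le (fun a => Real.rpow_nonneg (hh_nonneg _) _) (fun a => ?_) h2
  obtain ⟨w, hw⟩ := hlow a.1
  have ha1 : 0 < ‖a.1‖ := norm_pos_iff.2 a.2
  have h3 : ε * ‖a.1‖ ≤ hh K (((e a).1 : 𝓞 K) : K) := hw.trans (le_hh _ w)
  have hr0 : 0 ≤ r := le_trans (Nat.cast_nonneg _) hr.le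
  simp only [Function.comp_apply]
  rw [← Real.mul_rpow hε.le ha1.le, Real.rpow_neg (hh_nonneg _), Real.rpow_neg (by positivity)]
  exact inv_anti₀ (by positivity) (Real.rpow_le_rpow (by positivity) h3 hr0)

end Pool.Agent.NH35.HC
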