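import Pool.Agent.NH35.HC.Res

/-! The factorisation of the Jacobi sum at a prime of degree one. -/

set_option autoImplicit false
set_option linter.unusedSectionVars false
open NumberField NumberField.InfinitePlace IsDedekindDomain
open Module nonZeroDivisors Ideal IsCyclotomicExtension
open scoped ComplexConjugate

namespace Pool.Agent.NH35.HC

section
variable {p : ℕ} [Fact p.Prime] {K : Type} [Field K] [NumberField K]
  [IsCyclotomicExtension {p} ℚ K]

theorem sa_inv (u : (ZMod p)ˣ) (x : 𝓞 K) : sa p K u⁻¹ (sa p K u x) = x := by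
  rw [← sa_mul, inv_mul_cancel, sa_one]

theorem sa_inv' (u : (ZMod p)ˣ) (x : 𝓞 K) : sa p K u (sa p K u⁻¹ x) = x := by
  rw [← sa_mul, mul_inv_cancel, sa_one]

theorem mem_map_sa (u : (ZMod p)ˣ) (I : Ideal (𝓞 K)) (x : 𝓞 K) :
    x ∈ I.map (sa p K u) ↔ sa p K u⁻¹ x ∈ I := by
  rw [Ideal.mem_map_of_equiv]
  constructor
  · rintro ⟨y, hy, rfl⟩
    rwa [sa_inv]
  · intro h
    exact ⟨_, h, sa_inv' u x⟩

theorem map_map_sa (u v : (ZMod p)ˣ) (I : Ideal (𝓞 K)) :
    (I.map (sa p K v)).map (sa p K u) = I.map (sa p K (u * v)) := by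
  ext x
  rw [mem_map_sa, mem_map_sa, mem_map_sa, ← sa_mul, mul_inv_rev]

theorem map_sa_one (I : Ideal (𝓞 K)) : I.map (sa p K 1) = I := by
  ext x
  rw [mem_map_sa, inv_one, sa_one]

theorem map_sa_inj (u : (ZMod p)ˣ) {I I' : Ideal (𝓞 K)}
    (h : I.map (sa p K u) = I'.map (sa p K u)) : I = I' := by
  have h1 := congrArg (fun J : Ideal (𝓞 K) => J.map (sa p K u⁻¹)) h
  simp only [map_map_sa, inv_mul_cancel, map_sa_one] at h1
  exact h1

theorem absNorm_map_sa (u : (ZMod p)ˣ) (I : Ideal (𝓞 K)) :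
    absNorm (I.map (sa p K u)) = absNorm I := by
  rw [Ideal.absNorm_apply, Ideal.absNorm_apply, Submodule.cardQuot_apply,
    Submodule.cardQuot_apply]
  exact Nat.card_congr (Ideal.quotientEquiv I (I.map (sa p K u)) (sa p K u) rfl).toEquiv.symm

theorem absNorm_nat (n : ℕ) : absNorm (span {(n : 𝓞 K)}) = n ^ (p - 1) := by
  rw [Ideal.absNorm_span_singleton]
  have h1 := norm_prod p K (n : 𝓞 K)
  simp only [map_natCast, Finset.prod_const, Finset.card_univ, ZMod.card_units] at h1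
  have h2 : Algebra.norm ℤ (n : 𝓞 K) = ((n ^ (p - 1) : ℕ) : ℤ) := by exact_mod_cast h1
  rw [h2, Int.natAbs_natCast]

/-- the Galois group permutes the normalised generators -/
theorem Rel.sa {I : Ideal (𝓞 K)} {x : 𝓞 K} (h : Rel p K I x) (u : (ZMod p)ˣ) :
    Rel p K (I.map (sa p K u)) (sa p K u x) := by
  refine ⟨?_, ?_, ?_⟩
  · have h1 : (span {x}).map (HC.sa p K u) = (iph p K I).map (HC.sa p K u) := by rw [h.sp]
    rw [Ideal.map_span, Set.image_singleton] at h1
    rw [h1]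
    unfold iph
    rw [show (∏ t ∈ Ph p, I.map (HC.sa p K t⁻¹)).map (HC.sa p K u) =
      Ideal.mapHom (HC.sa p K u) (∏ t ∈ Ph p, I.map (HC.sa p K t⁻¹)) from rfl, map_prod]
    refine Finset.prod_congr rfl fun t _ => ?_
    change (I.map (HC.sa p K t⁻¹)).map (HC.sa p K u) = (I.map (HC.sa p K u)).map (HC.sa p K t⁻¹)
    rw [map_map_sa, map_map_sa, mul_comm]
  · have h1 := congrArg (HC.sa p K u) h.nrm
    rw [map_natCast, map_mul, ← sa_mul, mul_comm u, sa_mul] at h1
    rw [absNorm_map_sa]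
    exact h1
  · have h1 := map_dvd (HC.sa p K u) h.cg
    rw [map_pow, map_sub, map_sub, map_one, sa_zt] at h1
    refine dvd_trans ?_ h1
    refine pow_dvd_pow_of_dvd ?_ 2
    simpa using sub_dvd_pow_sub_pow (zt p K) 1 (u : ZMod p).val

variable {F : Type} [Field F] [Fintype F]

/-- an automorphism fixing a prime of degree one -/
theorem stab (π : 𝓞 K →+* F) (hpF : ((p : ℕ) : F) ≠ 0) (hF : (Fintype.card F).Prime)
    {I : Ideal (𝓞 K)} (hI : ∀ x, x ∈ I ↔ π x = 0) {u : (ZMod p)ˣ}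
    (hu : I.map (sa p K u) = I) : u = 1 := by
  obtain ⟨c, hc⟩ : ∃ c : ℕ, (c : F) = π (zt p K) := by
    have : Fact (Fintype.card F).Prime := ⟨hF⟩
    let e := ZMod.ringEquivOfPrime F hF rfl
    obtain ⟨z, hz⟩ := e.surjective (π (zt p K))
    refine ⟨z.val, ?_⟩
    rw [← hz, ← map_natCast e, ZMod.natCast_zmod_val]
  have h1 : zt p K - (c : 𝓞 K) ∈ I := by
    rw [hI, map_sub, map_natCast, hc, sub_self]
  have h2 : sa p K u (zt p K - (c : 𝓞 K)) ∈ I := by
    rw [← hu, mem_map_sa, sa_inv]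
    exact h1
  rw [map_sub, map_natCast, sa_zt, hI, map_sub, map_natCast, hc, map_pow] at h2
  have h3 := map_zt π hpF
  have h4 : π (zt p K) ^ (u : ZMod p).val = π (zt p K) ^ ((1 : (ZMod p)ˣ) : ZMod p).val := by
    rw [Units.val_one, ZMod.val_one, pow_one]
    exact sub_eq_zero.1 h2
  exact Units.ext (ZMod.val_injective p (h3.pow_inj (ZMod.val_lt _) (ZMod.val_lt _) h4))

theorem distinct (π : 𝓞 K →+* F) (hpF : ((p : ℕ) : F) ≠ 0) (hF : (Fintype.card F).Prime)
    {I : Ideal (𝓞 K)} (hI : ∀ x, x ∈ I ↔ π x = 0) {u v : (ZMod p)ˣ}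
    (huv : I.map (sa p K u) = I.map (sa p K v)) : u = v := by
  have h1 := congrArg (fun J : Ideal (𝓞 K) => J.map (sa p K v⁻¹)) huv
  simp only [map_map_sa, inv_mul_cancel, map_sa_one] at h1
  have h2 := stab π hpF hF hI h1
  exact (inv_mul_eq_one.1 h2).symm

/-- **The Jacobi sum of a prime of degree one.** -/
theorem rel_jj (hp : p ≠ 2) (π : 𝓞 K →+* F) (hpF : ((p : ℕ) : F) ≠ 0)
    (hF : (Fintype.card F).Prime) {I : Ideal (𝓞 K)} (hI : ∀ x, x ∈ I ↔ π x = 0)
    (hI0 : I ≠ ⊥) (hIp : I.IsPrime) (hIn : absNorm I = Fintype.card F) {χ : MulChar F (𝓞 K)}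
    (hχ : χ ^ p = 1) (hχ2 : ∀ y : F, π (χ y) = y ^ ((Fintype.card F - 1) / p)) :
    Rel p K I (jj χ) := by
  classical
  have hnrm := jj_norm hp π hpF hχ hχ2
  refine ⟨?_, by rw [hIn]; exact hnrm, jj_cong hp hχ (p_dvd π hpF)⟩
  have hprime : Prime I := Ideal.prime_of_isPrime hI0 hIp
  have hdvd : iph p K I ∣ span {jj χ} := by
    let f : (ZMod p)ˣ → Ideal (𝓞 K) := fun t => I.map (sa p K t⁻¹)
    have hf : Function.Injective f := fun u v h => inv_injective (distinct π hpF hF hI h)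
    have e1 : iph p K I = ∏ J ∈ (Ph p).image f, J := by
      rw [Finset.prod_image fun a _ b _ h => hf h]
      rfl
    rw [e1]
    refine Finset.prod_primes_dvd _ ?_ ?_
    · intro J hJ
      obtain ⟨t, -, rfl⟩ := Finset.mem_image.1 hJ
      refine Ideal.prime_of_isPrime ?_ (Ideal.map_isPrime_of_equiv (sa p K t⁻¹))
      intro h
      apply hI0
      apply map_sa_inj (p := p) t⁻¹
      rw [show I.map (sa p K t⁻¹) = ⊥ from h, Ideal.map_bot]
    · intro J hJ
      obtain ⟨t, ht, rfl⟩ := Finset.mem_image.1 hJ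
      rw [Ideal.dvd_span_singleton, mem_map_sa, inv_inv, hI]
      exact jj_mem π hpF hχ hχ2 ht
  obtain ⟨B, hB⟩ := hdvd
  have hℓ : Fintype.card F ≠ 0 := hF.ne_zero
  have hn1 : absNorm (iph p K I) = Fintype.card F ^ (Ph p).card := by
    unfold iph
    rw [map_prod]
    rw [Finset.prod_congr rfl fun t _ => (absNorm_map_sa t⁻¹ I).trans hIn, Finset.prod_const]
  have hn2 : absNorm (span {jj χ}) = Fintype.card F ^ (Ph p).card := by
    have h1 : absNorm (span {jj χ}) * absNorm (span {jj χ}) =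
        Fintype.card F ^ (Ph p).card * Fintype.card F ^ (Ph p).card := by
      have h2 : absNorm (span {jj χ * sa p K (-1) (jj χ)}) =
          absNorm (span {((Fintype.card F : ℕ) : 𝓞 K)}) := by rw [hnrm]
      rw [← Ideal.span_singleton_mul_span_singleton, map_mul, absNorm_nat (p := p)] at h2
      have h3 : span {sa p K (-1) (jj χ)} = (span {jj χ}).map (sa p K (-1)) := by
        rw [Ideal.map_span, Set.image_singleton]
      rw [h3, absNorm_map_sa] at h2
      rw [h2, ← pow_add, ← two_mul, card_Ph hp]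
    exact Nat.mul_self_inj.1 h1
  have h4 := congrArg absNorm hB
  rw [map_mul, hn1, hn2] at h4
  have h5 : absNorm B = 1 := by
    have h6 : Fintype.card F ^ (Ph p).card * absNorm B = Fintype.card F ^ (Ph p).card * 1 := by
      rw [← h4, mul_one]
    exact Nat.eq_of_mul_eq_mul_left (pow_pos hF.pos _) h6
  rw [hB, Ideal.absNorm_eq_one_iff.1 h5, Ideal.mul_top]

end

end Pool.Agent.NH35.HC
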