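import Pool.Agent.NH35.HC.Cnt
import Pool.Agent.H82R3.EK.Fiber

/-! The trace of Frobenius of the curve as a sum over the primes of the cyclotomic field. -/

set_option autoImplicit false
set_option linter.unusedSectionVars false
open NumberField NumberField.InfinitePlace IsDedekindDomain
open Module nonZeroDivisors Ideal IsCyclotomicExtension
open scoped ComplexConjugate
open Pool.Agent.H921R2.TatePole (below deg nm_eq)

namespace Pool.Agent.NH35.HC

/-- the normalised trace of Frobenius of the curve `y² + y = x^p` -/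
noncomputable def TT (p : ℕ) (ℓ : Nat.Primes) : ℝ :=
  ((ℓ : ℕ) - (pts p (ZMod (ℓ : ℕ)) : ℝ)) / Real.sqrt (ℓ : ℕ)

section
variable {p : ℕ} [hp1 : Fact p.Prime]

theorem pow_inj_of_coprime {F : Type} [Field F] [Fintype F]
    (h : Nat.Coprime p (Fintype.card F - 1)) : Function.Injective fun x : F => x ^ p := by
  classical
  have hpr : p.Prime := Fact.out
  intro x y hxy
  simp only at hxy
  by_cases hy : y = 0
  · rw [hy, zero_pow hpr.ne_zero] at hxy
    rw [hy, pow_eq_zero_iff hpr.ne_zero |>.1 hxy]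
  · have hx : x ≠ 0 := by
      rintro rfl
      rw [zero_pow hpr.ne_zero] at hxy
      exact hy (pow_eq_zero_iff hpr.ne_zero |>.1 hxy.symm)
    have h1 : (x / y) ^ p = 1 := by rw [div_pow, hxy, div_self (pow_ne_zero _ hy)]
    have h2 : (x / y) ^ (Fintype.card F - 1) = 1 :=
      FiniteField.pow_card_sub_one_eq_one _ (div_ne_zero hx hy)
    have h3 : orderOf (x / y) ∣ 1 := by
      rw [← h]
      exact Nat.dvd_gcd (orderOf_dvd_of_pow_eq_one h1) (orderOf_dvd_of_pow_eq_one h2)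
    have h4 : x / y = 1 := orderOf_eq_one_iff.1 (Nat.dvd_one.1 h3)
    exact (div_eq_one_iff_eq hy).1 h4

theorem pts_of_inj {F : Type} [Field F] [Fintype F] (h : Function.Injective fun x : F => x ^ p) :
    pts p F = Fintype.card F := by
  rw [pts_eq_sum]
  have h2 : ∀ y : F, Nat.card {x : F // y ^ 2 + y = x ^ p} = 1 := by
    intro y
    obtain ⟨x, hx⟩ := (Finite.injective_iff_bijective.1 h).2 (y ^ 2 + y)
    rw [Nat.card_eq_one_iff_unique]
    refine ⟨⟨fun a b => Subtype.ext (h (a.2.symm.trans b.2))⟩, ⟨⟨x, hx.symm⟩⟩⟩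
  simp [h2]

theorem TT_zero {ℓ : Nat.Primes} (h : ¬ p ∣ (ℓ : ℕ) - 1) : TT p ℓ = 0 := by
  have hpr : p.Prime := Fact.out
  have : Fact (ℓ : ℕ).Prime := ⟨ℓ.2⟩
  have h1 : pts p (ZMod (ℓ : ℕ)) = ℓ := by
    rw [pts_of_inj, ZMod.card]
    apply pow_inj_of_coprime
    rw [ZMod.card]
    exact (Nat.Prime.coprime_iff_not_dvd hpr).2 h
  unfold TT
  rw [h1, sub_self, zero_div]

variable (K : Type) [Field K] [NumberField K] [IsCyclotomicExtension {p} ℚ K]

theorem above_one (ℓ : Nat.Primes) (h : p ∣ (ℓ : ℕ) - 1) :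
    (∀ v : HeightOneSpectrum (𝓞 K), below v = ℓ → deg v = 1) ∧
    Fintype.card {v : HeightOneSpectrum (𝓞 K) // below v = ℓ} = p - 1 := by
  have hpr : p.Prime := hp1.out
  have hℓ := ℓ.2.two_le
  have hne : ¬ (ℓ : ℕ) ∣ p := by
    intro h2
    have h3 : (ℓ : ℕ) = p := (Nat.prime_dvd_prime_iff_eq ℓ.2 hpr).1 h2
    rw [h3] at h hℓ
    have := Nat.le_of_dvd (by omega) h
    omega
  have h1 := H82R3.EK.deg_and_count K p ℓ p 0 (by rw [pow_zero, one_mul]) hne
  have h2 : ((ℓ : ℕ) : ZMod p) = 1 := by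
    have h3 : (((ℓ : ℕ) - 1 : ℕ) : ZMod p) = 0 := (ZMod.natCast_eq_zero_iff _ _).2 h
    rw [Nat.cast_sub (by omega), Nat.cast_one, sub_eq_zero] at h3
    exact h3
  rw [h2, orderOf_one, Nat.div_one, Nat.totient_prime hpr] at h1
  exact h1

theorem deg_ne_one {ℓ : Nat.Primes} (h : ¬ p ∣ (ℓ : ℕ) - 1) (h' : (ℓ : ℕ) ≠ p)
    (v : HeightOneSpectrum (𝓞 K)) (hv : below v = ℓ) : deg v ≠ 1 := by
  have hpr : p.Prime := hp1.out
  have hℓ := ℓ.2.two_le
  have hne : ¬ (ℓ : ℕ) ∣ p := fun h2 => h' ((Nat.prime_dvd_prime_iff_eq ℓ.2 hpr).1 h2)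
  have h1 := (H82R3.EK.deg_and_count K p ℓ p 0 (by rw [pow_zero, one_mul]) hne).1 v hv
  rw [h1]
  intro h2
  rw [orderOf_eq_one_iff] at h2
  apply h
  rw [← ZMod.natCast_eq_zero_iff, Nat.cast_sub (by omega), Nat.cast_one, h2, sub_self]

variable {K}

/-- the primes above a prime `ℓ ≡ 1` are the conjugates of one of them -/
theorem sum_above (ℓ : Nat.Primes) (h : p ∣ (ℓ : ℕ) - 1) (v0 : HeightOneSpectrum (𝓞 K))
    (hv0 : below v0 = ℓ) (hinj : ∀ u u' : (ZMod p)ˣ,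
      v0.asIdeal.map (sa p K u) = v0.asIdeal.map (sa p K u') → u = u')
    (f : Ideal (𝓞 K) → ℂ) :
    ∑ v : {v : HeightOneSpectrum (𝓞 K) // below v = ℓ}, f v.1.asIdeal =
      ∑ u : (ZMod p)ˣ, f (v0.asIdeal.map (sa p K u)) := by
  classical
  have hbel : ∀ u : (ZMod p)ˣ, ∃ v : {v : HeightOneSpectrum (𝓞 K) // below v = ℓ},
      v.1.asIdeal = v0.asIdeal.map (sa p K u) := by
    intro u
    have h1 : v0.asIdeal.map (sa p K u) ≠ ⊥ := by
      intro h
      apply v0.ne_bot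
      apply map_sa_inj (p := p) u
      rw [h, Ideal.map_bot]
    have h2 : (v0.asIdeal.map (sa p K u)).IsPrime := by
      have := v0.isPrime
      exact Ideal.map_isPrime_of_equiv (sa p K u)
    let v : HeightOneSpectrum (𝓞 K) := ⟨v0.asIdeal.map (sa p K u), h2, h1⟩
    refine ⟨⟨v, ?_⟩, rfl⟩
    apply H82R3.EK.below_eq_of_mem
    change (((ℓ : ℕ) : ℕ) : 𝓞 K) ∈ v0.asIdeal.map (sa p K u)
    rw [mem_map_sa, map_natCast]
    have h3 := (nm_eq v0).2.2
    rwa [hv0] at h3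
  choose g hg using hbel
  have hginj : Function.Injective g := by
    intro u u' huu
    apply hinj
    rw [← hg, ← hg, huu]
  have hcard : Fintype.card (ZMod p)ˣ =
      Fintype.card {v : HeightOneSpectrum (𝓞 K) // below v = ℓ} := by
    rw [ZMod.card_units, (above_one K ℓ h).2]
  have hbij : Function.Bijective g := (Fintype.bijective_iff_injective_and_card g).2
    ⟨hginj, hcard⟩
  rw [← hbij.sum_comp fun v : {v : HeightOneSpectrum (𝓞 K) // below v = ℓ} => f v.1.asIdeal]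
  exact Finset.sum_congr rfl fun u _ => by rw [hg]

theorem coprime_max {v : Ideal (𝓞 K)} (hv : v.IsMaximal) (hpv : ((p : ℕ) : 𝓞 K) ∉ v) :
    IsCoprime v (span {((p : ℕ) : 𝓞 K)}) := by
  rw [Ideal.isCoprime_iff_sup_eq]
  by_contra h
  have h1 := hv.eq_of_le h le_sup_left
  apply hpv
  rw [h1]
  exact Ideal.mem_sup_right (Ideal.mem_span_singleton_self _)

theorem not_coprime {v : Ideal (𝓞 K)} (hv : v.IsPrime) (hpv : ((p : ℕ) : 𝓞 K) ∈ v) :
    ¬ IsCoprime v (span {((p : ℕ) : 𝓞 K)}) := by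
  intro h
  rw [Ideal.isCoprime_iff_sup_eq] at h
  apply hv.ne_top
  rw [← h, eq_comm, sup_eq_left, Ideal.span_singleton_le_iff_mem]
  exact hpv

/-- **The trace of Frobenius as a sum of values of the Hecke character.** -/
theorem trace (hp : p ≠ 2) (τ : K →+* ℂ) {χ : Ideal (𝓞 K) → ℂ}
    (hχ0 : ∀ I, ¬ IsCoprime I (span {((p : ℕ) : 𝓞 K)}) → χ I = 0)
    (hrel : ∀ (I : Ideal (𝓞 K)) (x : 𝓞 K), IsCoprime I (span {((p : ℕ) : 𝓞 K)}) →
      Rel p K I x → χ I = (cz (τ (x : K)) : ℂ)) (ℓ : Nat.Primes) :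
    ∑ v : {v : HeightOneSpectrum (𝓞 K) // below v = ℓ},
      (if deg v.1 = 1 then χ v.1.asIdeal else 0) = ((TT p ℓ : ℝ) : ℂ) := by
  classical
  have hpr : p.Prime := hp1.out
  by_cases h : p ∣ (ℓ : ℕ) - 1
  · obtain ⟨hdeg, hcard⟩ := above_one K ℓ h
    have e1 : ∑ v : {v : HeightOneSpectrum (𝓞 K) // below v = ℓ},
        (if deg v.1 = 1 then χ v.1.asIdeal else 0) =
        ∑ v : {v : HeightOneSpectrum (𝓞 K) // below v = ℓ}, χ v.1.asIdeal :=
      Finset.sum_congr rfl fun v _ => if_pos (hdeg v.1 v.2)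
    rw [e1]
    have hne : Nonempty {v : HeightOneSpectrum (𝓞 K) // below v = ℓ} := by
      rw [← Fintype.card_pos_iff, hcard]
      have := hpr.two_le
      omega
    obtain ⟨⟨v0, hv0⟩⟩ := hne
    have hmax : v0.asIdeal.IsMaximal := v0.isMaximal
    have hpv : ((p : ℕ) : 𝓞 K) ∉ v0.asIdeal := by
      intro h2
      have h3 := H82R3.EK.below_eq_of_mem K (p := ⟨p, hpr⟩) v0 h2
      rw [hv0] at h3
      rw [h3] at h
      change p ∣ p - 1 at h
      have := Nat.le_of_dvd (by have := hpr.two_le; omega) h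
      have := hpr.two_le
      omega
    letI : Field (𝓞 K ⧸ v0.asIdeal) := Ideal.Quotient.field v0.asIdeal
    haveI : Finite (𝓞 K ⧸ v0.asIdeal) := Ideal.finiteQuotientOfFreeOfNeBot _ v0.ne_bot
    letI : Fintype (𝓞 K ⧸ v0.asIdeal) := Fintype.ofFinite _
    set π : 𝓞 K →+* 𝓞 K ⧸ v0.asIdeal := Ideal.Quotient.mk v0.asIdeal with hπ
    have hnorm : absNorm v0.asIdeal = ℓ := by
      have h2 := (nm_eq v0).1
      rw [hdeg v0 hv0, pow_one, hv0] at h2
      exact h2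
    have hcF : Fintype.card (𝓞 K ⧸ v0.asIdeal) = ℓ := by
      rw [← hnorm, Ideal.absNorm_apply, Submodule.cardQuot_apply, Nat.card_eq_fintype_card]
    have hF : (Fintype.card (𝓞 K ⧸ v0.asIdeal)).Prime := by
      rw [hcF]
      exact ℓ.2
    have hI : ∀ x, x ∈ v0.asIdeal ↔ π x = 0 := fun x => Ideal.Quotient.eq_zero_iff_mem.symm
    have hpF : ((p : ℕ) : 𝓞 K ⧸ v0.asIdeal) ≠ 0 := by
      intro h2
      apply hpv
      rw [hI, map_natCast]
      exact h2
    obtain ⟨ψ, hψ1, hψ2⟩ := exists_res π hpF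
    have hR := rel_jj hp π hpF hF hI v0.ne_bot v0.isPrime (hnorm.trans hcF.symm) hψ1 hψ2
    rw [sum_above ℓ h v0 hv0 (fun u u' => distinct π hpF hF hI) χ]
    have hℓ0 : (0 : ℝ) < (ℓ : ℕ) := by exact_mod_cast ℓ.2.pos
    have e2 : ∀ u : (ZMod p)ˣ, χ (v0.asIdeal.map (sa p K u)) =
        τ (sa p K u (jj ψ) : K) / ((Real.sqrt (ℓ : ℕ) : ℝ) : ℂ) := by
      intro u
      have h2 := hR.sa u
      have h3 : (v0.asIdeal.map (sa p K u)).IsMaximal := Ideal.map_isMaximal_of_equiv (sa p K u)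
      have h4 : ((p : ℕ) : 𝓞 K) ∉ v0.asIdeal.map (sa p K u) := by
        rw [mem_map_sa, map_natCast]
        exact hpv
      have h5 := coprime_max h3 h4
      rw [hrel _ _ h5 h2]
      have h6 := h2.ne (coprime_ne _ h5)
      have h7 := h2.norm_sq τ
      rw [absNorm_map_sa, hnorm] at h7
      rw [coe_cz (emb_ne τ h6), ← h7, Real.sqrt_sq (norm_nonneg _)]
    rw [Finset.sum_congr rfl fun u _ => e2 u, ← Finset.sum_div]
    have e3 : ∑ u : (ZMod p)ˣ, τ (sa p K u (jj ψ) : K) =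
        ((ℓ : ℕ) : ℂ) - ((pts p (ZMod (ℓ : ℕ)) : ℕ) : ℂ) := by
      have h2 := count hp π hpF hψ1 hψ2
      have h3 := congrArg (fun x : 𝓞 K => τ (algebraMap (𝓞 K) K x)) h2
      simp only [map_sum, map_sub, map_natCast] at h3
      have h4 : pts p (ZMod (ℓ : ℕ)) = pts p (𝓞 K ⧸ v0.asIdeal) :=
        pts_equiv p (ZMod.ringEquivOfPrime (𝓞 K ⧸ v0.asIdeal) ℓ.2 hcF)
      rw [h4]
      have h5 : ((Fintype.card (𝓞 K ⧸ v0.asIdeal) : ℕ) : ℂ) = ((ℓ : ℕ) : ℂ) := by rw [hcF]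
      rw [h5] at h3
      exact h3
    rw [e3]
    unfold TT
    push_cast
    rfl
  · rw [TT_zero h, Complex.ofReal_zero]
    refine Finset.sum_eq_zero fun v _ => ?_
    by_cases h' : (ℓ : ℕ) = p
    · have h2 := (nm_eq v.1).2.2
      rw [v.2, h'] at h2
      rw [hχ0 _ (not_coprime v.1.isPrime h2)]
      split_ifs <;> rfl
    · exact if_neg (deg_ne_one K h h' v.1 v.2)

end

end Pool.Agent.NH35.HC
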