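import Pool.Agent.NH35.HC.Ext

/-! The type at infinity is not invariant under the Galois group. -/

set_option autoImplicit false
set_option linter.unusedSectionVars false
open NumberField NumberField.InfinitePlace IsDedekindDomain
open Module nonZeroDivisors Ideal IsCyclotomicExtension
open scoped ComplexConjugate

namespace Pool.Agent.NH35.HC

section
variable {p : ℕ} [Fact p.Prime]

theorem sum_Ph (hp : p ≠ 2) : ∑ t ∈ Ph p, (t : ZMod p) ≠ 0 := by
  have hpr : p.Prime := Fact.out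
  obtain ⟨m, hm⟩ := hpr.odd_of_ne_two hp
  have h1 : ∑ t ∈ Ph p, (t : ZMod p) = ∑ k ∈ Finset.range (m + 1), (k : ZMod p) := by
    rw [Finset.sum_range_succ', Nat.cast_zero, add_zero]
    have hne : ∀ k ∈ Finset.range m, ((k + 1 : ℕ) : ZMod p) ≠ 0 := by
      intro k hk h0
      rw [ZMod.natCast_eq_zero_iff] at h0
      have := Nat.le_of_dvd (Nat.succ_pos k) h0
      have := Finset.mem_range.1 hk
      omega
    symm
    refine Finset.sum_bij (fun k hk => Units.mk0 ((k + 1 : ℕ) : ZMod p) (hne k hk)) ?_ ?_ ?_ ?_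
    · intro k hk
      rw [mem_Ph, Units.val_mk0, ZMod.val_natCast, Nat.mod_eq_of_lt]
      · have := Finset.mem_range.1 hk
        omega
      · have := Finset.mem_range.1 hk
        omega
    · intro k hk l hl h
      have h2 := congrArg Units.val h
      rw [Units.val_mk0, Units.val_mk0] at h2
      have h3 := congrArg ZMod.val h2
      have hk' := Finset.mem_range.1 hk
      have hl' := Finset.mem_range.1 hl
      rw [ZMod.val_natCast, ZMod.val_natCast, Nat.mod_eq_of_lt (by omega),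
        Nat.mod_eq_of_lt (by omega)] at h3
      omega
    · intro t ht
      rw [mem_Ph] at ht
      have h0 : (t : ZMod p).val ≠ 0 := by
        rw [Ne, ZMod.val_eq_zero]
        exact t.ne_zero
      refine ⟨(t : ZMod p).val - 1, ?_, ?_⟩
      · rw [Finset.mem_range]
        omega
      · apply Units.ext
        rw [Units.val_mk0, Nat.sub_add_cancel (Nat.one_le_iff_ne_zero.2 h0),
          ZMod.natCast_zmod_val]
    · intro k hk
      rw [Units.val_mk0]
  rw [h1]
  intro h0
  have h2 := Finset.sum_range_id_mul_two (m + 1)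
  have h3 : ((∑ i ∈ Finset.range (m + 1), i : ℕ) : ZMod p) * 2 = ((m : ZMod p) + 1) * m := by
    have := congrArg (Nat.cast : ℕ → ZMod p) h2
    push_cast at this
    push_cast
    exact this
  rw [Nat.cast_sum, h0, zero_mul] at h3
  have h4 : (2 * (m : ZMod p) + 1) = 0 := by
    have := congrArg (Nat.cast : ℕ → ZMod p) hm
    push_cast at this
    rw [← this]
    simp
  have h5 : (1 : ZMod p) = 0 := by
    linear_combination (2 * (m : ZMod p) + 1) * h4 + 4 * h3
  exact one_ne_zero h5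

variable {K : Type} [Field K] [NumberField K] [IsCyclotomicExtension {p} ℚ K]

theorem zt_pow_inj {u v : (ZMod p)ˣ}
    (h : zt p K ^ (u : ZMod p).val = zt p K ^ (v : ZMod p).val) : u = v := by
  have := (zt_prim p K).pow_inj (ZMod.val_lt _) (ZMod.val_lt _) h
  exact Units.ext (ZMod.val_injective p this)

theorem exists_moving (hp : p ≠ 2) {u : (ZMod p)ˣ} (hu : u ≠ 1) : ∃ β : 𝓞 K, β ≠ 0 ∧
    β - 1 ∈ span {((p : ℕ) : 𝓞 K)} ∧ xph p K β ≠ xph p K (sa p K u β) := by
  classical
  by_contra hcon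
  push Not at hcon
  have hp0 : ((p : ℕ) : 𝓞 K) ≠ 0 := Nat.cast_ne_zero.2 (Fact.out : p.Prime).ne_zero
  let P : Polynomial (𝓞 K) := ∏ t ∈ Ph p,
    (Polynomial.X - Polynomial.C (-(((p : ℕ) : 𝓞 K) * zt p K ^ ((t⁻¹ : (ZMod p)ˣ) : ZMod p).val)))
  let Q : Polynomial (𝓞 K) := ∏ t ∈ Ph p,
    (Polynomial.X - Polynomial.C (-(((p : ℕ) : 𝓞 K) *
      zt p K ^ ((t⁻¹ * u : (ZMod p)ˣ) : ZMod p).val)))
  have hPQ : P = Q := by
    apply Polynomial.eq_of_infinite_eval_eq
    refine Set.Infinite.mono (s := Set.range fun T : ℕ => (1 : 𝓞 K) + ((p : ℕ) : 𝓞 K) * (T : 𝓞 K))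
      ?_ ?_
    · rintro _ ⟨T, rfl⟩
      rw [Set.mem_ofPred_eq]
      set β : 𝓞 K := 1 + ((p : ℕ) : 𝓞 K) * (T + zt p K) with hβ
      have h1 : β - 1 ∈ span {((p : ℕ) : 𝓞 K)} := by
        rw [Ideal.mem_span_singleton, hβ]
        exact ⟨T + zt p K, by ring⟩
      have h0 : β ≠ 0 := by
        have := coprime_ne _ (coprime_span h1)
        rwa [Ne, Ideal.span_singleton_eq_bot] at this
      have h2 := hcon β h0 h1
      have hs : ∀ v : (ZMod p)ˣ, sa p K v β = (1 : 𝓞 K) + ((p : ℕ) : 𝓞 K) * (T : 𝓞 K) -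
          (-(((p : ℕ) : 𝓞 K) * zt p K ^ (v : ZMod p).val)) := by
        intro v
        rw [hβ, map_add, map_mul, map_add, map_one, map_natCast, map_natCast, sa_zt]
        ring
      unfold xph at h2
      have h3 : ∀ t : (ZMod p)ˣ, sa p K t⁻¹ (sa p K u β) = sa p K (t⁻¹ * u) β := fun t =>
        (sa_mul p K _ _ _).symm
      simp only [h3] at h2
      simp only [P, Q]
      rw [Polynomial.eval_prod, Polynomial.eval_prod]
      simp only [Polynomial.eval_sub, Polynomial.eval_X, Polynomial.eval_C]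
      simp only [hs] at h2
      exact h2
    · apply Set.infinite_range_of_injective
      intro a b h
      have h1 : ((p : ℕ) : 𝓞 K) * (a : 𝓞 K) = ((p : ℕ) : 𝓞 K) * (b : 𝓞 K) := by
        simpa using h
      exact_mod_cast mul_left_cancel₀ hp0 h1
  let f : (ZMod p)ˣ → 𝓞 K := fun v => -(((p : ℕ) : 𝓞 K) * zt p K ^ (v : ZMod p).val)
  have hf : Function.Injective f := by
    intro v w h
    exact zt_pow_inj (mul_left_cancel₀ hp0 (neg_injective h))
  have hP : P.roots = (Ph p).val.map fun t => f t⁻¹ := by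
    have : P = ((((Ph p).val.map fun t => f t⁻¹)).map fun a =>
        Polynomial.X - Polynomial.C a).prod := by
      rw [Multiset.map_map]
      rfl
    rw [this, Polynomial.roots_multiset_prod_X_sub_C]
  have hQ : Q.roots = (Ph p).val.map fun t => f (t⁻¹ * u) := by
    have : Q = ((((Ph p).val.map fun t => f (t⁻¹ * u))).map fun a =>
        Polynomial.X - Polynomial.C a).prod := by
      rw [Multiset.map_map]
      rfl
    rw [this, Polynomial.roots_multiset_prod_X_sub_C]
  have h1 : ((Ph p).val.map fun t => t⁻¹).map f = ((Ph p).val.map fun t => t⁻¹ * u).map f := by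
    rw [Multiset.map_map, Multiset.map_map]
    have e1 := hP.symm.trans ((congrArg Polynomial.roots hPQ).trans hQ)
    exact e1
  have h2 := Multiset.map_injective hf h1
  have h3 := congrArg (fun s : Multiset (ZMod p)ˣ => (s.map fun v => ((v⁻¹ : (ZMod p)ˣ) :
    ZMod p)).sum) h2
  simp only [Multiset.map_map, Function.comp_apply, inv_inv, mul_inv_rev] at h3
  have h4 : ∑ t ∈ Ph p, (t : ZMod p) = ((u⁻¹ : (ZMod p)ˣ) : ZMod p) * ∑ t ∈ Ph p, (t : ZMod p) := by
    rw [Finset.mul_sum]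
    refine Eq.trans h3 ?_
    refine congrArg Multiset.sum (Multiset.map_congr rfl fun t _ => ?_)
    exact Units.val_mul _ _
  have h5 : (((u⁻¹ : (ZMod p)ˣ) : ZMod p) - 1) * ∑ t ∈ Ph p, (t : ZMod p) = 0 := by
    rw [sub_mul, one_mul, ← h4, sub_self]
  rcases mul_eq_zero.1 h5 with h | h
  · apply hu
    have h6 : u⁻¹ = 1 := Units.ext (by rw [Units.val_one]; linear_combination h)
    exact inv_eq_one.1 h6
  · exact sum_Ph hp h

theorem exists_nontriv (hp : p ≠ 2) (τ : K →+* ℂ) {u : (ZMod p)ˣ} (hu : u ≠ 1) :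
    ∃ β : 𝓞 K, β ≠ 0 ∧ β - 1 ∈ span {((p : ℕ) : 𝓞 K)} ∧
      (chinf p K τ β : ℂ) * conj (chinf p K τ (sa p K u β) : ℂ) ≠ 1 := by
  obtain ⟨β, h0, h1, h2⟩ := exists_moving (K := K) hp hu
  refine ⟨β, h0, h1, fun h => h2 ?_⟩
  have e1 : (chinf p K τ β : ℂ) = (chinf p K τ (sa p K u β) : ℂ) := by
    have h3 : (chinf p K τ (sa p K u β) : ℂ) * conj (chinf p K τ (sa p K u β) : ℂ) = 1 := by
      rw [Complex.mul_conj, Complex.normSq_eq_norm_sq, Circle.norm_coe]
      simp
    have h4 : conj (chinf p K τ (sa p K u β) : ℂ) ≠ 0 := right_ne_zero_of_mul_eq_one h3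
    exact mul_right_cancel₀ h4 (h.trans h3.symm)
  unfold chinf at e1
  have hx1 := xph_ne p K h0
  have hx2 := xph_ne p K (sa_ne p K (u := u) h0)
  rw [coe_cz (emb_ne τ hx1), coe_cz (emb_ne τ hx2)] at e1
  have hn : ‖τ (xph p K β : K)‖ = ‖τ (xph p K (sa p K u β) : K)‖ := by
    have a1 := HC.norm_sq p K τ (xph p K β)
    have a2 := HC.norm_sq p K τ (xph p K (sa p K u β))
    rw [xph_norm p K hp, norm_prod p K] at a1 a2
    have a3 : ∏ v : (ZMod p)ˣ, sa p K v (sa p K u β) = ∏ v : (ZMod p)ˣ, sa p K v β := by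
      refine Fintype.prod_equiv (Equiv.mulRight u) _ _ fun v => ?_
      rw [← sa_mul]
      rfl
    rw [a3, a1] at a2
    have a4 : ‖τ (xph p K β : K)‖ ^ 2 = ‖τ (xph p K (sa p K u β) : K)‖ ^ 2 := by exact_mod_cast a2
    exact (pow_left_inj₀ (norm_nonneg _) (norm_nonneg _) two_ne_zero).1 a4
  rw [hn] at e1
  have hz : ((‖τ (xph p K (sa p K u β) : K)‖ : ℝ) : ℂ) ≠ 0 := by
    rw [Ne, Complex.ofReal_eq_zero, norm_eq_zero]
    exact emb_ne τ hx2
  have e2 := (div_left_inj' hz).1 e1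
  exact RingOfIntegers.ext (τ.injective e2)

end

end Pool.Agent.NH35.HC
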